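import Pool.Agent.Work.MP_3e1eec_co.O.Fin

section
/-! Definitions for the range with three more edges than vertices. -/

open SimpleGraph

namespace PS
variable {V : Type}

/-- A path inside `K`. -/
def PK (G : SimpleGraph V) (K : Set V) (l : List V) : Prop := P G l ∧ ∀ v ∈ l, v ∈ K

/-- `z` has exactly the two non adjacent neighbours `x`, `y` in `K`. -/
def Dr (G : SimpleGraph V) (K : Set V) (z x y : V) : Prop :=
  z ∈ K ∧ x ∈ K ∧ y ∈ K ∧ G.Adj z x ∧ G.Adj z y ∧ x ≠ y ∧ ¬ G.Adj x y ∧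
    ∀ u ∈ K, G.Adj z u → u = x ∨ u = y

def Dir (G : SimpleGraph V) (K : Set V) (z : V) : Prop := ∃ x y, Dr G K z x y

/-- `z` lies on a cycle inside `K`. -/
def CyK (G : SimpleGraph V) (K : Set V) (z : V) : Prop :=
  ∃ C, Cyc_C G C ∧ 3 ≤ C.length ∧ z ∈ C ∧ ∀ v ∈ C, v ∈ K

/-- A core with excess at most `j`. -/
structure CK (k : ℕ) (G : SimpleGraph V) (K : Finset V) (j : ℕ) : Prop where
  d2 : D2 k G
  ef : EF G K
  dg2 : ∀ v ∈ K, 2 ≤ dg G K v
  hex : ex G K ≤ j

/-- Outside `K` or on `Q`. -/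
def Of (K : Set V) (Q : List V) : Set V := {x | x ∉ K ∨ x ∈ Q}

/-- The path `Q = z :: (Z ++ v :: T)` leaves `u` along the thread `z :: Z`, and no directed vertex
on a cycle starts a longer path to the end of `Q`. -/
structure St (G : SimpleGraph V) (K : Finset V) (u z : V) (Z : List V) (v : V) (T : List V) :
    Prop where
  path : PK G K (u :: z :: (Z ++ v :: T))
  thr : ∀ c ∈ z :: Z, Dir G K c
  cy : CyK G K z
  du : 3 ≤ dg G K u
  dv : 3 ≤ dg G K v
  dg2 : ∀ x ∈ K, 2 ≤ dg G K x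
  hex : ex G K ≤ 4
  star : ∀ c M, Dir G K c → CyK G K c → PK G K (c :: (M ++ [T.getLastD v])) →
    M.length ≤ Z.length + T.length

/-- `q` is a vertex of `Q = z :: Q'` other than `z` with a neighbour in the region of `u`. -/
def Att (G : SimpleGraph V) (K : Set V) (u z : V) (Q' : List V) (q : V) : Prop :=
  q ∈ Q' ∧ ∃ x ∈ Rg G (Of K (z :: Q')) u, G.Adj x q

/-- `q ∈ T` has a neighbour in `K` outside the region of `u` which is not next to it on `Q`. -/
def Fo (G : SimpleGraph V) (K : Set V) (u : V) (Q T : List V) (q : V) : Prop :=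
  q ∈ T ∧ ∃ d ∈ K, G.Adj q d ∧ d ∉ Rg G (Of K Q) u ∧ ¬ [q, d] <:+: Q ∧ ¬ [d, q] <:+: Q

/-- Complete binary trees of height `h a` at the vertices of `C`. -/
def TG {U : Type} (C : SimpleGraph U) (h : U → ℕ) : SimpleGraph (U × List Bool) where
  Adj p q := (p.2 = [] ∧ q.2 = [] ∧ C.Adj p.1 q.1) ∨ (p.1 = q.1 ∧
    ((∃ x, q.2 = x :: p.2 ∧ p.2.length < h p.1) ∨ ∃ x, p.2 = x :: q.2 ∧ q.2.length < h p.1))
  symm := ⟨by
    rintro p q (⟨a, b, c⟩ | ⟨a, b⟩)
    · exact Or.inl ⟨b, a, c.symm⟩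
    · exact Or.inr ⟨a.symm, a ▸ b.symm⟩⟩
  loopless := ⟨by
    rintro p (⟨-, -, c⟩ | ⟨-, ⟨x, b, -⟩ | ⟨x, b, -⟩⟩)
    · exact c.ne rfl
    · simpa using congrArg List.length b
    · simpa using congrArg List.length b⟩

/-- No weighted path is long. -/
def WPF {U : Type} (k : ℕ) (C : SimpleGraph U) (h : U → ℕ) : Prop :=
  (∀ a, 2 * h a + 1 < k) ∧ ∀ a M b, P C (a :: (M ++ [b])) → h a + M.length + 2 + h b < k

/-- Two disjoint weighted paths from `a` and `b`. -/
def CrC {U : Type} (k : ℕ) (C : SimpleGraph U) (h : U → ℕ) (a b : U) : Prop :=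
  ∃ A B, P C (a :: A) ∧ P C (b :: B) ∧ (a :: A).Disjoint (b :: B) ∧
    k ≤ A.length + h (A.getLastD a) + B.length + h (B.getLastD b) + 2

/-- A weighted path with `k - 1` vertices starts at `a`. -/
def Ti {U : Type} (k : ℕ) (C : SimpleGraph U) (h : U → ℕ) (a : U) : Prop :=
  ∃ y B, P C (a :: y :: B) ∧ k ≤ h a + B.length + h (B.getLastD y) + 3

/-- The edges of the core: a cycle of length `2 s` with three chords. -/
def Ce (s i j : ℕ) : Prop :=
  (j = i + 1 ∧ j < 2 * s) ∨ (i = 0 ∧ j + 1 = 2 * s) ∨ (i + 1 = s ∧ j = s + 1) ∨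
    (i + 1 = s ∧ j + 1 = 2 * s) ∨ (i = 1 ∧ j = s + 1)

def Cg (s : ℕ) : SimpleGraph ℕ where
  Adj i j := i ≠ j ∧ (Ce s i j ∨ Ce s j i)
  symm := ⟨fun _ _ h => ⟨h.1.symm, h.2.symm⟩⟩
  loopless := ⟨fun _ h => h.1 rfl⟩

/-- The heights. -/
def hh (s δ i : ℕ) : ℕ :=
  if i = 0 then δ else if s ≤ min i (2 * s - i) + 1 then 0
  else min (min i (2 * s - i) - 1) (s - min i (2 * s - i))

/-- The reflection. -/
def mr (s i : ℕ) : ℕ := if i = 0 then 0 else 2 * s - i

end PS
end

section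
/-! Threads, runs and cut vertices of a weighted core. -/

open SimpleGraph

namespace PS
variable {V : Type} {G : SimpleGraph V} [Finite V] {k j : ℕ} {K : Finset V}

/-- S1. Every window of `w` consecutive entries meets `B`. -/
theorem L_cnt {α : Type} (w : ℕ) (B : Finset α) (l : List α) (hn : l.Nodup)
    (h : ∀ m, m <:+: l → m.length = w → ∃ x ∈ m, x ∈ B) : l.length + 1 ≤ (B.card + 1) * w := by
  classical
  induction' hL : l.length using Nat.strong_induction_on with n ih generalizing l B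
  subst hL
  rcases Nat.eq_zero_or_pos w with rfl | hw
  · obtain ⟨x, hx, -⟩ := h [] List.nil_infix rfl
    simp at hx
  by_cases hl : l.length < w
  · have : w ≤ (B.card + 1) * w := Nat.le_mul_of_pos_left _ (Nat.succ_pos _)
    omega
  obtain ⟨x, hx, hB⟩ := h (l.take w) (List.take_prefix w l).isInfix (by
    rw [List.length_take]; omega)
  have hd : List.Disjoint (l.take w) (l.drop w) := by
    have h1 : (l.take w ++ l.drop w).Nodup := by rwa [List.take_append_drop]
    exact List.disjoint_of_nodup_append h1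
  have h2 := ih (l.drop w).length (by rw [List.length_drop]; omega) (B.erase x) (l.drop w)
    (hn.sublist (List.drop_sublist w l)) (fun m hm e => by
      obtain ⟨y, hy, hyB⟩ := h m (hm.trans (List.drop_suffix w l).isInfix) e
      refine ⟨y, hy, Finset.mem_erase.2 ⟨fun e' => ?_, hyB⟩⟩
      exact hd hx (e' ▸ hm.subset hy)) rfl
  rw [List.length_drop, Finset.card_erase_add_one hB] at h2
  rw [Nat.add_mul, Nat.one_mul]
  omega

/-- S2. -/
theorem L_seq (a : ℕ → ℕ) (n : ℕ) (h : ∀ i, i < n → a i < a (i + 1) ∨ a (i + 2) < a (i + 1)) :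
    ∃ p, p ≤ n ∧ a 0 + p ≤ a p ∧ a (n + 1) + n ≤ a (p + 1) + p ∧ (p < n → a (n + 1) < a n) := by
  induction n with
  | zero => exact ⟨0, le_rfl, le_rfl, le_rfl, fun hh => absurd hh (lt_irrefl 0)⟩
  | succ n ih =>
    obtain ⟨p, h1, h2, h3, h4⟩ := ih fun i hi => h i (by omega)
    rcases h n (by omega) with h5 | h5
    · have e : p = n := by
        by_contra hne
        have := h4 (by omega)
        omega
      subst e
      exact ⟨p + 1, le_rfl, by omega, le_rfl, fun hh => absurd hh (lt_irrefl _)⟩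
    · have e : n + 1 + 1 = n + 2 := rfl
      exact ⟨p, by omega, h2, by rw [e]; omega, fun _ => h5⟩

/-- S3. At most `j` vertices of degree at least three. -/
theorem L_br (hd : ∀ v ∈ K, 2 ≤ dg G K v) (hx : ex G K ≤ j) :
    ∃ B : Finset V, B.card ≤ j ∧ ∀ v ∈ K, 3 ≤ dg G K v → v ∈ B := by
  classical
  refine ⟨K.filter fun v => 3 ≤ dg G K v, ?_, fun v hv h3 => Finset.mem_filter.2 ⟨hv, h3⟩⟩
  have h1 : (((K.filter fun v => 3 ≤ dg G K v).card : ℕ) : ℤ) ≤ ex G K := by
    rw [ex, ← Finset.sum_boole]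
    refine Finset.sum_le_sum fun v hv => ?_
    have := hd v hv
    split_ifs <;> omega
  omega

/-- S3. A vertex of small degree between two path neighbours has no other neighbour. -/
theorem L_two {x z y : V} (hx : x ∈ K) (hy : y ∈ K) (h1 : G.Adj z x) (h2 : G.Adj z y)
    (hne : x ≠ y) (hd : dg G K z < 3) : ∀ u ∈ (K : Set V), G.Adj z u → u = x ∨ u = y := by
  intro u hu ha
  by_contra hc
  rw [not_or] at hc
  have := three_le_dg (K := (K : Set V)) hx hy hu h1 h2 ha hne (Ne.symm hc.1) (Ne.symm hc.2)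
  omega

/-- S3. -/
theorem Dir.lt {z : V} (h : Dir G K z) : dg G K z < 3 := by
  obtain ⟨x, y, -, -, -, -, -, hne, -, hu⟩ := h
  have h1 : dg G K z ≤ ({x, y} : Set V).ncard :=
    Set.ncard_le_ncard (fun u hh => hu u hh.1 hh.2) (Set.toFinite _)
  rw [Set.ncard_pair hne] at h1
  omega

/-- S3. The two neighbours of a directed vertex. -/
theorem Dir.dr {z x y : V} (h : Dir G K z) (hx : x ∈ K) (hy : y ∈ K) (h1 : G.Adj z x)
    (h2 : G.Adj z y) (hne : x ≠ y) : Dr G K z x y := by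
  have hl := L_two hx hy h1 h2 hne h.lt
  obtain ⟨x', y', hz, -, -, -, -, -, hn, hu⟩ := h
  refine ⟨hz, hx, hy, h1, h2, hne, fun ha => ?_, hl⟩
  rcases hu x hx h1 with e1 | e1 <;> rcases hu y hy h2 with e2 | e2
  · exact hne (e1.trans e2.symm)
  · exact hn (e1 ▸ e2 ▸ ha)
  · exact hn (e1 ▸ e2 ▸ ha.symm)
  · exact hne (e1.trans e2.symm)

/-- S3. Two consecutive vertices of degree two: the second one is directed. -/
theorem L_next {a b c d : V} (h : PK G K [a, b, c, d]) (hb : dg G K b < 3) (hc : dg G K c < 3) :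
    Dr G K c b d := by
  obtain ⟨⟨hn, hc'⟩, hK⟩ := h
  have ma : a ∈ K := hK a (by simp)
  have mb : b ∈ K := hK b (by simp)
  have mc : c ∈ K := hK c (by simp)
  have md : d ∈ K := hK d (by simp)
  simp only [List.isChain_cons_cons] at hc'
  obtain ⟨ab, bc, cd, -⟩ := hc'
  simp only [List.nodup_cons, List.mem_cons, List.not_mem_nil, or_false, not_or] at hn
  obtain ⟨⟨-, ac, ad⟩, ⟨-, bd⟩, cd', -⟩ := hn
  refine ⟨mc, mb, md, bc.symm, cd, bd, fun ha => ?_, L_two mb md bc.symm cd bd hc⟩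
  rcases L_two ma mc ab.symm bc ac hb d md ha with e | e
  · exact ad e.symm
  · exact cd' e.symm

omit [Finite V] in
theorem F02_sub {l l' : List V} (h : PK G K l) (hi : l' <:+: l) : PK G K l' :=
  ⟨h.1.sub hi, fun v hv => h.2 v (hi.subset hv)⟩

theorem F02_hd {α : Type} (M : List α) (z : α) : ∃ y R, M ++ [z] = y :: R := by
  cases M with
  | nil => exact ⟨z, [], rfl⟩
  | cons a M => exact ⟨a, M ++ [z], rfl⟩

theorem F02_tl {α : Type} (a : α) (s : List α) : ∃ s' p, a :: s = s' ++ [p] := by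
  rcases List.eq_nil_or_concat (a :: s) with h | ⟨s', p, h⟩
  · cases h
  · exact ⟨s', p, by simpa using h⟩

/-- S4. A path all of whose directed vertices lie in `Y` is short. -/
theorem L_run (hd : ∀ v ∈ K, 2 ≤ dg G K v) (hx : ex G K ≤ 4) {l : List V} (hl : PK G K l)
    (Y : Finset V) (h : ∀ c ∈ l, Dir G K c → c ∈ Y) : l.length ≤ 2 * Y.card + 11 := by
  classical
  obtain ⟨B, hB, hB'⟩ := L_br (j := 4) hd (by exact_mod_cast hx)
  rcases l with _ | ⟨a, t⟩
  · simp
  rcases List.eq_nil_or_concat t with rfl | ⟨m, d, rfl⟩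
  · simp
  rw [List.concat_eq_append] at hl h ⊢
  have hn : m.Nodup := (hl.1.sub ⟨[a], [d], by simp⟩).1
  have key := L_cnt 2 (B ∪ Y) m hn fun w hw hw2 => by
    obtain ⟨b, c, rfl⟩ := List.length_eq_two.1 hw2
    obtain ⟨s, t', rfl⟩ := hw
    obtain ⟨s', p, e1⟩ := F02_tl a s
    obtain ⟨q, R, e2⟩ := F02_hd t' d
    have e3 : a :: (s ++ [b, c] ++ t' ++ [d]) = s' ++ [p, b, c, q] ++ R := by
      have : a :: (s ++ [b, c] ++ t' ++ [d]) = (a :: s) ++ [b, c] ++ (t' ++ [d]) := by simp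
      rw [this, e1, e2]
      simp
    have h4 : PK G K [p, b, c, q] := F02_sub hl ⟨s', R, e3.symm⟩
    by_contra hc
    have hb1 : b ∉ B ∪ Y := fun hm => hc ⟨b, by simp, hm⟩
    have hc1 : c ∉ B ∪ Y := fun hm => hc ⟨c, by simp, hm⟩
    have hb2 : dg G K b < 3 := by
      by_contra h3
      exact hb1 (Finset.mem_union_left _ (hB' b (h4.2 b (by simp)) (not_lt.1 h3)))
    have hc2 : dg G K c < 3 := by
      by_contra h3
      exact hc1 (Finset.mem_union_left _ (hB' c (h4.2 c (by simp)) (not_lt.1 h3)))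
    exact hc1 (Finset.mem_union_right _ (h c (by simp) ⟨b, q, L_next h4 hb2 hc2⟩))
  have h1 := Finset.card_union_le B Y
  simp only [List.length_cons, List.length_append, List.length_nil]
  omega

theorem F02_step (hE : EF G K) (hD : D2 k G) {a b c d : V} {R : List V}
    (h : PK G K (a :: b :: c :: d :: R)) (hb : dg G K b < 3) (hc : dg G K c < 3) :
    gK G K b < gK G K c ∨ gK G K d < gK G K c := by
  obtain ⟨h1, h2, h3, h4, h5, h6, h7, h8⟩ := L_next (a := a) (d := d) (F02_sub h ⟨[], R, rfl⟩) hb hc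
  exact (TL hE hD h1 h2 h3 h4 h5 h6 h7 h8).imp (TT.lt hE hD.1 h1 h2 h3 h4 h6)
    (TT.lt hE hD.1 h1 h3 h2 h5 h6.symm)

theorem F02_down (hE : EF G K) (hD : D2 k G) {z' : V} (M : List V) : ∀ {p m y : V} {R : List V},
    PK G K (p :: m :: (M ++ [z'])) → (∀ c ∈ m :: M, dg G K c < 3) → M ++ [z'] = y :: R →
    gK G K y < gK G K m →
    gK G K z' + M.length < gK G K m ∧ gK G K z' < gK G K (M.getLastD m) := by
  induction M with
  | nil =>
    intro p m y R _ _ e hy
    obtain ⟨rfl, -⟩ := List.cons.inj e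
    exact ⟨hy, hy⟩
  | cons y' M ih =>
    intro p m y R h hd e hy
    obtain ⟨rfl, -⟩ := List.cons.inj e
    obtain ⟨y2, R2, e2⟩ := F02_hd M z'
    have h1 : PK G K (p :: m :: y' :: y2 :: R2) := by
      rw [← e2]; exact h
    have h2 := (F02_step hE hD h1 (hd m (by simp)) (hd y' (by simp))).resolve_left (by omega)
    obtain ⟨h3, h4⟩ := ih (p := m) (F02_sub h ⟨[p], [], by simp⟩)
      (fun c hc => hd c (List.mem_cons_of_mem _ hc)) e2 h2
    rw [List.getLastD_cons, List.length_cons]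
    exact ⟨by omega, h4⟩

/-- S5. The weights along a thread go up and then down. -/
theorem L_thread (hE : EF G K) (hD : D2 k G) {u z z' : V} {M : List V}
    (h : PK G K (u :: z :: (M ++ [z']))) (hd : ∀ c ∈ z :: M, dg G K c < 3) :
    ∃ Z₁ c c' Z₂, z :: (M ++ [z']) = Z₁ ++ c :: c' :: Z₂ ∧ gK G K z + Z₁.length ≤ gK G K c ∧
      gK G K z' + Z₂.length ≤ gK G K c' ∧ (Z₂ ≠ [] → gK G K z' < gK G K (M.getLastD z)) := by
  induction M generalizing u z with
  | nil => exact ⟨[], z, z', [], rfl, le_rfl, le_rfl, fun h => absurd rfl h⟩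
  | cons m M ih =>
    obtain ⟨y, R, e⟩ := F02_hd M z'
    have h1 : PK G K (u :: z :: m :: y :: R) := by
      rw [← e]; exact h
    have h2 : PK G K (z :: m :: (M ++ [z'])) := F02_sub h ⟨[u], [], by simp⟩
    have h3 : ∀ c ∈ m :: M, dg G K c < 3 := fun c hc => hd c (List.mem_cons_of_mem _ hc)
    rw [List.getLastD_cons]
    rcases F02_step hE hD h1 (hd z (by simp)) (hd m (by simp)) with h4 | h4
    · obtain ⟨Z₁, c, c', Z₂, a1, a2, a3, a4⟩ := ih h2 h3
      refine ⟨z :: Z₁, c, c', Z₂, congrArg (z :: ·) a1, ?_, a3, a4⟩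
      rw [List.length_cons]
      omega
    · obtain ⟨a1, a2⟩ := F02_down hE hD M h2 h3 e h4
      refine ⟨[], z, m, M ++ [z'], rfl, le_rfl, ?_, fun _ => a2⟩
      rw [List.length_append, List.length_singleton]
      omega

theorem F03_half (hE : EF G K) (hk : PF k G) {p c x y : V} {A A0 : List V}
    (h : PK G K (p :: (A ++ [c]))) (hx : p :: A = A0 ++ [x]) (hy : y ∈ (K : Set V)) (hne : x ≠ y)
    (ht : TT k G K c x y) (hn : ¬ CyK G K c) : gK G K p + A.length + 1 ≤ gK G K c := by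
  obtain ⟨B, hP, hB, hxB, hle⟩ := ht
  have hK : ∀ v ∈ y :: B, v ∈ (K : Set V) := fun v hv => by
    rcases List.mem_cons.1 hv with rfl | hv
    · exact hy
    · exact hB v hv
  have h0 : P G ((p :: A) ++ [c]) := h.1
  have hd : (p :: A).Disjoint (y :: B) := by
    by_contra hcon
    have hex : ∃ t ∈ y :: B, t ∈ p :: A := by
      by_contra hh
      exact hcon fun t a b => hh ⟨t, b, a⟩
    obtain ⟨L, t, R, e, ht, hL⟩ := Ctr_first (p := fun t => t ∈ p :: A) hex
    have htx : t ≠ x := by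
      rintro rfl
      have : t ∈ y :: B := by rw [e]; simp
      rcases List.mem_cons.1 this with a | a
      · exact hne a
      · exact hxB a
    have ht0 : t ∈ A0 := by
      rw [hx] at ht
      rcases List.mem_append.1 ht with a | a
      · exact a
      · exact absurd (List.mem_singleton.1 a) htx
    obtain ⟨A1, A2, rfl⟩ := List.append_of_mem ht0
    have h1 : P G ((c :: L) ++ [t]) := by
      refine hP.pre ⟨R, ?_⟩
      rw [e]
      simp
    rw [hx] at h0
    have h2 : P G (t :: (A2 ++ [x])) := h0.sub ⟨A1, [c], by simp⟩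
    have h3 : G.Adj x c := P.mid (A := A1 ++ t :: A2) (B := []) (by simpa using h0)
    have h4 : (c :: L).Disjoint (A2 ++ [x]) := by
      intro v hv hv'
      have hm : v ∈ A1 ++ t :: A2 ++ [x] := by
        simp only [List.mem_append, List.mem_cons] at hv' ⊢
        tauto
      rcases List.mem_cons.1 hv with rfl | hv
      · exact h0.disj hm (List.mem_singleton_self _)
      · exact hL v hv (hx ▸ hm)
    refine hn ⟨c :: ((L ++ t :: A2) ++ [x]), ⟨by simpa using h1.glue h2 h4, c, L ++ t :: A2, x, rfl,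
      h3.symm⟩, by simp; omega, List.mem_cons_self, fun v hv => ?_⟩
    have hv2 : v = c ∨ v ∈ L ∨ v ∈ A1 ++ t :: A2 ++ [x] := by
      simp only [List.mem_append, List.mem_cons] at hv ⊢
      tauto
    rcases hv2 with rfl | a | a
    · exact h.2 v (by simp)
    · exact hK v (by rw [e]; exact List.mem_append_left _ a)
    · rw [← hx] at a
      exact h.2 v (List.mem_append_left [c] a)
  obtain ⟨M, e1, e2⟩ := B3_last y B
  have h5 : P G (p :: ((A ++ c :: M) ++ [B.getLastD y])) := by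
    have := h0.glue hP hd
    rw [e1] at this
    simpa using this
  have h6 := W1 hE hk h5 fun v hv => by
    have hv2 : v ∈ p :: (A ++ [c]) ∨ v ∈ M ++ [B.getLastD y] := by
      simp only [List.mem_append, List.mem_cons] at hv ⊢
      tauto
    rcases hv2 with a | a
    · exact h.2 v a
    · exact hK v (e1 ▸ a)
  simp only [List.length_append, List.length_cons] at h6
  omega

/-- S6. A directed vertex on no cycle is heavier than one of the two sides of a path. -/
theorem L_cut (hE : EF G K) (hD : D2 k G) {p c e : V} {A B : List V}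
    (h : PK G K (p :: (A ++ c :: (B ++ [e])))) (hc : Dir G K c) (hn : ¬ CyK G K c) :
    gK G K p + A.length + 1 ≤ gK G K c ∨ gK G K e + B.length + 1 ≤ gK G K c := by
  obtain ⟨A0, e1, -⟩ := B3_last p A
  obtain ⟨B0, e2, -⟩ := B3_last e B.reverse
  generalize A.getLastD p = x at e1
  generalize B.reverse.getLastD e = y at e2
  have e3 : B ++ [e] = y :: B0.reverse := by simpa using congrArg List.reverse e2
  have e4 : p :: (A ++ c :: (B ++ [e])) = A0 ++ x :: c :: y :: B0.reverse := by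
    rw [e3, ← List.cons_append, e1]
    simp
  have hP := h.1
  rw [e4] at hP
  have hx : x ∈ (K : Set V) := h.2 x (by rw [e4]; simp)
  have hy : y ∈ (K : Set V) := h.2 y (by rw [e4]; simp)
  have a1 : G.Adj c x := hP.mid.symm
  have a2 : G.Adj c y := hP.right.tail.adj
  have hne : x ≠ y := fun t => hP.right.notMem (by simp [t])
  obtain ⟨d1, d2, d3, -, -, -, d7, d8⟩ := hc.dr hx hy a1 a2 hne
  rcases TL hE hD d1 d2 d3 a1 a2 hne d7 d8 with t | t
  · refine Or.inl (F03_half hE hD.1 ⟨h.1.pre ⟨B ++ [e], by simp⟩, fun v hv => h.2 v ?_⟩ e1 hy hne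
      t hn)
    simp only [List.mem_append, List.mem_cons] at hv ⊢
    tauto
  · have := F03_half (A := B.reverse) hE hD.1
      ⟨h.1.reverse.pre ⟨A.reverse ++ [p], by simp⟩, fun v hv => h.2 v (by
        simp only [List.mem_append, List.mem_cons, List.mem_reverse] at hv ⊢
        tauto)⟩ e2 hx hne.symm t hn
    rw [List.length_reverse] at this
    exact Or.inr this

/-- S7. The tail of a long path is light. -/
theorem L_FB (hK : CK k G K 4) {H : ℕ} (hH : ∀ v ∈ K, gK G K v ≤ H) {p e : V} {M T : List V}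
    (h : PK G K (p :: (M ++ (T ++ [e])))) (hk : k ≤ gK G K p + M.length + T.length + gK G K e + 1)
    (Y : Finset V) (hY : Y.card ≤ 3) (hT : ∀ c ∈ T, Dir G K c → CyK G K c → c ∈ Y) :
    k ≤ 2 * H + 18 ∨ T.length + gK G K e ≤ H + 17 := by
  by_contra hcon
  have he := hH e (h.2 e (by simp))
  obtain ⟨T1, T2, T3, rfl, l2, l3⟩ : ∃ T1 T2 T3, T = T1 ++ (T2 ++ T3) ∧ T2.length = 18 ∧
      T3.length + gK G K e = H := by
    refine ⟨T.take (T.length + gK G K e - H - 18), (T.drop (T.length + gK G K e - H - 18)).take 18,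
      (T.drop (T.length + gK G K e - H - 18)).drop 18, by simp, ?_, ?_⟩
    · rw [List.length_take, List.length_drop]
      omega
    · rw [List.length_drop, List.length_drop]
      omega
  have h2 : PK G K T2 := ⟨h.1.sub ⟨p :: (M ++ T1), T3 ++ [e], by simp⟩, fun v hv => h.2 v (by
    simp [hv])⟩
  obtain ⟨c, c1, c2, c3⟩ : ∃ c ∈ T2, Dir G K c ∧ c ∉ Y := by
    by_contra hh
    have := L_run hK.dg2 (by exact_mod_cast hK.hex) h2 Y fun c a b => by
      by_contra hc
      exact hh ⟨c, a, b, hc⟩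
    omega
  obtain ⟨U1, U2, rfl⟩ := List.append_of_mem c1
  have hc := hH c (h2.2 c c1)
  have := L_cut (p := p) (c := c) (e := e) (A := M ++ (T1 ++ U1)) (B := U2 ++ T3) hK.ef hK.d2
    (by simpa using h) c2 fun t => c3 (hT c (by simp) c2 t)
  simp only [List.length_append, List.length_cons] at this hk l2
  omega

end PS
end

section
/-! Ears from `u` to the path, and counting. -/

open SimpleGraph

namespace PS
variable {V : Type} {G : SimpleGraph V} [Finite V] {K : Finset V} {u z v : V} {Z T : List V}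

omit [Finite V] in
theorem F06_of {Q : List V} {x : V} : x ∉ Of K Q ↔ x ∈ K ∧ x ∉ Q := by
  simp only [Of, Set.mem_ofPred_eq, not_or, not_not, Finset.mem_coe]

omit [Finite V] in
theorem F06_last (v : V) (T : List V) : ∃ N, v :: T = N ++ [T.getLastD v] ∧ N.length = T.length := by
  induction T generalizing v with
  | nil => exact ⟨[], rfl, rfl⟩
  | cons a T ih =>
    obtain ⟨N, e, l⟩ := ih a
    exact ⟨v :: N, by rw [List.getLastD_cons, List.cons_append, ← e], by simp [l]⟩

omit [Finite V] in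
theorem F06_u (h : St G K u z Z v T) : u ∉ Of K (z :: (Z ++ v :: T)) :=
  F06_of.2 ⟨h.path.2 u (by simp), h.path.1.notMem⟩

omit [Finite V] in
/-- A path inside a region, continued by one step out of the region. -/
theorem F06_ext {S : Set V} {w x y q : V} (hw : w ∉ S) (hx : x ∈ Rg G S w) (hy : y ∈ Rg G S w)
    (hq : q ∈ S) (ha : G.Adj y q) :
    ∃ E, P G (x :: (E ++ [q])) ∧ ∀ c ∈ x :: E, c ∈ Rg G S w := by
  by_cases hne : x = y
  · subst hne
    exact ⟨[], (P.single q).cons ha (by simpa using ha.ne), fun c hc => by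
      rw [List.mem_singleton.1 hc]; exact hx⟩
  · obtain ⟨A, h1, h2⟩ := Rg_path (Rg_notMem hw hx) (Rg_trans (Rg_symm hx) hy) hne
    refine ⟨A ++ [y], ?_, fun c hc => Rg_trans hx (h1.mem_Rg h2 c hc)⟩
    have h3 := P.append (A := x :: A) (B := []) h1 (P.single q) ha fun c hc hc' =>
      h2 c hc (by rw [List.mem_singleton.1 hc']; exact hq)
    simpa using h3

omit [Finite V] in
/-- S10. -/
theorem St.reg (h : St G K u z Z v T) {x : V} (hx : x ∈ Rg G (Of K (z :: (Z ++ v :: T))) u) :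
    x ∈ K ∧ x ∉ z :: (Z ++ v :: T) :=
  F06_of.1 (Rg_notMem (F06_u h) hx)

omit [Finite V] in
theorem F06_K (h : St G K u z Z v T) {q : V} (hq : q ∈ z :: (Z ++ v :: T)) : q ∈ (K : Set V) :=
  h.path.2 q (List.mem_cons_of_mem _ hq)

omit [Finite V] in
/-- S10. -/
theorem St.ear (h : St G K u z Z v T) {q : V} (hq : Att G K u z (Z ++ v :: T) q) :
    ∃ E, PK G K (u :: (E ++ [q])) ∧ ∀ c ∈ E, c ∈ Rg G (Of K (z :: (Z ++ v :: T))) u := by
  obtain ⟨hq, x, hx, ha⟩ := hq
  have hq1 : q ∈ z :: (Z ++ v :: T) := List.mem_cons_of_mem _ hq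
  obtain ⟨E, h1, h2⟩ := F06_ext (F06_u h) (Rg_self _ u) hx (Or.inr hq1) ha
  refine ⟨E, ⟨h1, fun c hc => ?_⟩, fun c hc => h2 c (List.mem_cons_of_mem _ hc)⟩
  rcases List.mem_append.1 (show c ∈ (u :: E) ++ [q] from hc) with hc | hc
  · exact (h.reg (h2 c hc)).1
  · rw [List.mem_singleton.1 hc]; exact F06_K h hq1

omit [Finite V] in
/-- S10. -/
theorem St.ear2 (h : St G K u z Z v T) {q q' : V} (hq : Att G K u z (Z ++ v :: T) q)
    (hq' : Att G K u z (Z ++ v :: T) q') (hne : q ≠ q') :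
    ∃ E, E ≠ [] ∧ PK G K (q :: (E ++ [q'])) ∧
      ∀ c ∈ E, c ∈ Rg G (Of K (z :: (Z ++ v :: T))) u := by
  obtain ⟨hq, x, hx, ha⟩ := hq
  obtain ⟨hq', x', hx', ha'⟩ := hq'
  have hq1 : q ∈ z :: (Z ++ v :: T) := List.mem_cons_of_mem _ hq
  have hq2 : q' ∈ z :: (Z ++ v :: T) := List.mem_cons_of_mem _ hq'
  obtain ⟨E, h1, h2⟩ := F06_ext (F06_u h) hx hx' (Or.inr hq2) ha'
  refine ⟨x :: E, by simp, ⟨h1.cons ha.symm fun hc => ?_, fun c hc => ?_⟩, h2⟩
  · rcases List.mem_append.1 (show q ∈ (x :: E) ++ [q'] from hc) with hc | hc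
    · exact (h.reg (h2 q hc)).2 hq1
    · exact hne (List.mem_singleton.1 hc)
  · rcases List.mem_cons.1 hc with rfl | hc
    · exact F06_K h hq1
    · rcases List.mem_append.1 hc with hc | hc
      · exact (h.reg (h2 c hc)).1
      · rw [List.mem_singleton.1 hc]; exact F06_K h hq2

omit [Finite V] in
/-- S11. -/
theorem St.noD (h : St G K u z Z v T) {c : V} (hc : c ∈ Rg G (Of K (z :: (Z ++ v :: T))) u)
    (h1 : Dir G K c) (h2 : CyK G K c) : False := by
  obtain ⟨E, g1, g2⟩ := F06_ext (F06_u h) hc (Rg_self _ u) (Or.inr List.mem_cons_self)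
    h.path.1.adj
  have g3 : P G ((c :: E) ++ z :: (Z ++ v :: T)) :=
    P.glue (A := c :: E) g1 h.path.1.tail fun x hx hx' =>
      (h.reg (g2 x hx)).2 (List.mem_cons_of_mem _ hx')
  have g4 : PK G K ((c :: E) ++ z :: (Z ++ v :: T)) := ⟨g3, fun x hx => by
    rcases List.mem_append.1 hx with hx | hx
    · exact (h.reg (g2 x hx)).1
    · exact F06_K h hx⟩
  obtain ⟨N, e, l⟩ := F06_last v T
  have g5 := h.star c (E ++ z :: (Z ++ N)) h1 h2 (by
    rw [e] at g4
    simpa using g4)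
  simp only [List.length_append, List.length_cons] at g5
  omega

/-- S11. -/
theorem St.att_ex (h : St G K u z Z v T) : ∃ q, Att G K u z (Z ++ v :: T) q := by
  have key : ∀ l, P G (u :: l) → (∀ c ∈ l, c ∈ (K : Set V) ∧ c ≠ z) →
      (∃ t ∈ l, t ∈ Z ++ v :: T) → ∃ q, Att G K u z (Z ++ v :: T) q := by
    intro l hP hl ht
    obtain ⟨L, t, R, rfl, g1, g2⟩ := Ctr_first ht
    obtain ⟨N, e, -⟩ := F06_last u L
    have hL : P G (u :: L) := P.left (A := u :: L) (B := t :: R) hP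
    have hS : ∀ c ∈ u :: L, c ∉ Of K (z :: (Z ++ v :: T)) := by
      intro c hc
      rcases List.mem_cons.1 hc with rfl | hc
      · exact F06_u h
      · have g3 := hl c (List.mem_append_left _ hc)
        exact F06_of.2 ⟨g3.1, fun hh => (List.mem_cons.1 hh).elim g3.2 (g2 c hc)⟩
    refine ⟨t, g1, L.getLastD u, hL.mem_Rg hS _ (by rw [e]; simp), ?_⟩
    have g4 : P G ((u :: L) ++ t :: R) := hP
    rw [e, List.append_assoc] at g4
    exact P.mid (A := N) (B := R) g4
  obtain ⟨y, Q2, eq⟩ : ∃ y Q2, Z ++ v :: T = y :: Q2 := by cases Z <;> simp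
  have hy : y ∈ Z ++ v :: T := by rw [eq]; exact List.mem_cons_self
  have hP := h.path.1
  have huy : u ≠ y := fun e => hP.notMem (e ▸ List.mem_cons_of_mem _ hy)
  have hzy : G.Adj z y := by
    have := hP.tail
    rw [eq] at this
    exact this.adj
  have hD : Dr G K z u y := (h.thr z List.mem_cons_self).dr (h.path.2 u List.mem_cons_self)
    (F06_K h (List.mem_cons_of_mem _ hy)) hP.adj.symm hzy huy
  obtain ⟨C, hC, h3, hz, hK⟩ := h.cy
  obtain ⟨l, ⟨hl, x, A, y', e, ha⟩, hp⟩ := Cyc_first hC hz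
  obtain ⟨rfl, rfl⟩ := List.cons_eq_cons.1 e
  have hlen := hp.length_eq
  have hm : ∀ c ∈ A ++ [y'], c ∈ (K : Set V) ∧ c ≠ z := fun c hc =>
    ⟨hK c (hp.subset (List.mem_cons_of_mem _ hc)), fun e => hl.notMem (e ▸ hc)⟩
  cases A with
  | nil => simp at hlen; omega
  | cons a A =>
    have hA : P G (a :: (A ++ [y'])) := hl.tail
    have hne : a ≠ y' := fun e => hA.notMem (by simp [e])
    have g1 := hD.2.2.2.2.2.2.2 a (hm a (by simp)).1 hl.adj
    have g2 := hD.2.2.2.2.2.2.2 y' (hm y' (by simp)).1 ha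
    rcases g1 with rfl | rfl <;> rcases g2 with rfl | rfl
    · exact absurd rfl hne
    · exact key (A ++ [y']) hA (fun c hc => hm c (List.mem_cons_of_mem _ hc)) ⟨y', by simp, hy⟩
    · refine key (A.reverse ++ [a]) (by simpa using hA.reverse) (fun c hc => hm c ?_)
        ⟨a, by simp, hy⟩
      simp only [List.mem_append, List.mem_reverse, List.mem_cons] at hc ⊢
      tauto
    · exact absurd rfl hne

omit [Finite V] in
theorem F07_long (h : St G K u z Z v T) {c : V} {L : List V} (hc : Dir G K c) (hy : CyK G K c)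
    (hP : PK G K (c :: L)) (hl : L.getLast? = some (T.getLastD v))
    (hn : Z.length + T.length + 1 < L.length) : False := by
  obtain ⟨M, rfl⟩ := List.getLast?_eq_some_iff.1 hl
  have := h.star c M hc hy hP
  simp only [List.length_append, List.length_cons, List.length_nil] at hn
  omega

omit [Finite V] in
theorem F07_last {X A B Y : List V} {q : V} (e : X ++ v :: T = A ++ q :: B) :
    (Y ++ q :: B).getLast? = some (T.getLastD v) := by
  have := congrArg List.getLast? e
  simp only [List.getLast?_append, List.getLast?_cons, Option.some_or, Option.some.injEq,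
    List.getLastD_eq_getLast?] at this ⊢
  exact this.symm

omit [Finite V] in
theorem F07_split {q : V} (l : List V) (a : V) (hq : q ∈ l ∨ q = v) :
    ∃ A p B, a :: (l ++ v :: T) = A ++ p :: q :: B ∧ p ∈ a :: l := by
  induction l generalizing a with
  | nil =>
    obtain rfl : q = v := by simpa using hq
    exact ⟨[], a, T, rfl, by simp⟩
  | cons b l ih =>
    by_cases hb : q = b
    · subst hb
      exact ⟨[], a, l ++ v :: T, rfl, by simp⟩
    · obtain ⟨A, p, B, e, hp⟩ := ih b (by simpa [hb] using hq)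
      exact ⟨a :: A, p, B, by rw [List.cons_append, List.cons_append, e],
        List.mem_cons_of_mem _ hp⟩

/-- S12. -/
theorem St.pred (h : St G K u z Z v T) {A B : List V} {p q : V}
    (e : z :: (Z ++ v :: T) = A ++ p :: q :: B) (hq : Att G K u z (Z ++ v :: T) q) :
    ¬ Dir G K p := by
  intro hp
  obtain ⟨E, hE, hR⟩ := h.ear hq
  have hn : ∀ c ∈ E, c ∉ A ++ p :: q :: B := fun c hc => e ▸ (h.reg (hR c hc)).2
  obtain ⟨hP, hK⟩ := h.path
  rw [e] at hP hK
  have h1 : P G (p :: A.reverse ++ [u]) := by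
    have : P G ((u :: (A ++ [p])) ++ q :: B) := by simpa using hP
    simpa using this.left.reverse
  have h2 : P G (q :: B) := P.tail (P.right (A := u :: A) hP)
  have hu := hP.notMem
  have h3 : P G (u :: E ++ q :: B) := by
    refine P.glue (A := u :: E) hE.1 h2 fun c hc hB => ?_
    rcases List.mem_cons.1 hc with rfl | hc
    · exact hu (by simp [hB])
    · exact hn c hc (by simp [hB])
  have hd : (A ++ [p]).Disjoint (q :: B) := by
    have : P G ((A ++ [p]) ++ q :: B) := by simpa using hP.tail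
    exact this.disj
  have h4 : P G (p :: A.reverse ++ u :: (E ++ q :: B)) := by
    refine P.glue h1 h3 fun c hc hB => ?_
    have hc' : c ∈ A ++ [p] := by
      simp only [List.mem_append, List.mem_cons, List.mem_reverse] at hc ⊢
      tauto
    rcases List.mem_append.1 hB with hB | hB
    · refine hn c hB ?_
      simp only [List.mem_append, List.mem_cons] at hc' ⊢
      tauto
    · exact hd hc' hB
  have h5 : ∀ c ∈ p :: A.reverse ++ u :: (E ++ q :: B), c ∈ (K : Set V) := by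
    intro c hc
    by_cases hcE : c ∈ E
    · exact hE.2 c (by simp [hcE])
    · refine hK c ?_
      simp only [List.mem_append, List.mem_cons, List.mem_reverse] at hc ⊢
      tauto
  have h6 : CyK G K p := by
    refine ⟨p :: ((A.reverse ++ u :: E) ++ [q]), ⟨?_, p, _, q, rfl, hP.tail.mid⟩, ?_, by simp,
      fun c hc => h5 c ?_⟩
    · have : P G ((p :: ((A.reverse ++ u :: E) ++ [q])) ++ B) := by simpa using h4
      exact this.left
    · simp only [List.length_append, List.length_cons]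
      omega
    · simp only [List.mem_append, List.mem_cons, List.mem_reverse] at hc ⊢
      tauto
  refine F07_long h hp h6 (L := (A.reverse ++ u :: E) ++ q :: B)
    ⟨by simpa using h4, by simpa using h5⟩
    (F07_last (X := z :: Z) (A := A ++ [p]) (by simpa using e)) ?_
  have := congrArg List.length e
  simp only [List.length_append, List.length_cons, List.length_reverse] at this ⊢
  omega

/-- S12. -/
theorem St.att_T (h : St G K u z Z v T) {q : V} (hq : Att G K u z (Z ++ v :: T) q) : q ∈ T := by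
  by_contra hT
  have : q ∈ Z ∨ q = v := by simpa [hT] using hq.1
  obtain ⟨A, p, B, e, hp⟩ := F07_split (T := T) Z z this
  exact h.pred e hq (h.thr p hp)

/-- S12. -/
theorem St.consec (h : St G K u z Z v T) {A B : List V} {q q' : V} (e : T = A ++ q :: q' :: B)
    (hq : Att G K u z (Z ++ v :: T) q) (hq' : Att G K u z (Z ++ v :: T) q') : False := by
  obtain ⟨hP, hK⟩ := h.path
  have e' : z :: (Z ++ v :: T) = (z :: (Z ++ v :: A)) ++ q :: q' :: B := by simp [e]
  have hQ := hP.tail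
  rw [e'] at hQ hK
  obtain ⟨E, hne, hE, hR⟩ := h.ear2 hq hq' hQ.mid.ne
  have hn : ∀ c ∈ E, c ∉ (z :: (Z ++ v :: A)) ++ q :: q' :: B :=
    fun c hc => e' ▸ (h.reg (hR c hc)).2
  generalize hX : Z ++ v :: A = X at hQ hK hn e'
  have h2 : P G (q :: q' :: B) := hQ.right
  have h3 : P G (q :: E ++ q' :: B) := by
    refine P.glue (A := q :: E) hE.1 h2.tail fun c hc hB => ?_
    rcases List.mem_cons.1 hc with rfl | hc
    · exact h2.notMem (by simp [hB])
    · exact hn c hc (by simp [hB])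
  have h1 : P G (z :: X ++ [q]) := by
    have : P G ((z :: X ++ [q]) ++ q' :: B) := by simpa using hQ
    exact this.left
  have h4 : P G (z :: X ++ q :: (E ++ q' :: B)) := by
    refine P.glue h1 h3 fun c hc hB => ?_
    rcases List.mem_append.1 hB with hB | hB
    · exact hn c hB (List.mem_append_left _ hc)
    · exact hQ.disj hc (List.mem_cons_of_mem _ hB)
  have h5 : ∀ c ∈ z :: X ++ q :: (E ++ q' :: B), c ∈ (K : Set V) := by
    intro c hc
    by_cases hcE : c ∈ E
    · exact hE.2 c (by simp [hcE])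
    · refine hK c ?_
      simp only [List.mem_append, List.mem_cons] at hc ⊢
      tauto
  refine F07_long h (h.thr z (by simp)) h.cy (L := (X ++ q :: E) ++ q' :: B)
    ⟨by simpa using h4, by simpa using h5⟩
    (F07_last (X := z :: Z) (A := z :: X ++ [q]) (by simpa using e')) ?_
  have := congrArg List.length e'
  have := List.length_pos_iff.2 hne
  simp only [List.length_append, List.length_cons] at *
  omega

/-- S8. -/
theorem L_gain {S S' : Finset V} (h1 : S ⊆ S') (h2 : S' ⊆ K) (hd : ∀ v ∈ K, 2 ≤ dg G K v)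
    (hc : ∀ c ∈ S', c ∉ S → ∀ y ∈ K, G.Adj c y → y ∈ S') (X : Finset (V × V))
    (hX : ∀ p ∈ X, p.1 ∈ S ∧ p.2 ∈ S' ∧ p.2 ∉ S ∧ G.Adj p.1 p.2) :
    ex G S + X.card ≤ ex G S' := by
  classical
  have a1 : ∀ c ∈ S' \ S, 0 ≤ (dg G S' c : ℤ) - 2 := fun c hcc => by
    obtain ⟨c1, c2⟩ := Finset.mem_sdiff.1 hcc
    have e1 := hd c (h2 c1)
    have e2 : dg G K c ≤ dg G S' c :=
      Set.ncard_le_ncard (fun y hy => ⟨hc c c1 c2 y hy.1 hy.2, hy.2⟩) (Set.toFinite _)
    omega
  have a2 : ∀ w ∈ S, dg G S w + (X.filter fun p => p.1 = w).card ≤ dg G S' w := fun w hw => by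
    have e1 : ((X.filter fun p => p.1 = w).image Prod.snd).card =
        (X.filter fun p => p.1 = w).card :=
      Finset.card_image_of_injOn fun p hp q hq e =>
        Prod.ext ((Finset.mem_filter.1 hp).2.trans (Finset.mem_filter.1 hq).2.symm) e
    have e2 : ∀ y ∈ (X.filter fun p => p.1 = w).image Prod.snd, y ∈ S' ∧ y ∉ S ∧ G.Adj w y := by
      intro y hy
      obtain ⟨p, hp, rfl⟩ := Finset.mem_image.1 hy
      obtain ⟨p1, rfl⟩ := Finset.mem_filter.1 hp
      exact (hX p p1).2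
    rw [← e1, ← Set.ncard_coe_finset, dg, dg, ← Set.ncard_union_eq
      (Set.disjoint_left.2 fun y hy hy' => (e2 y hy').2.1 hy.1) (Set.toFinite _) (Set.toFinite _)]
    refine Set.ncard_le_ncard ?_ (Set.toFinite _)
    rintro y (hy | hy)
    · exact ⟨h1 hy.1, hy.2⟩
    · exact ⟨(e2 y hy).1, (e2 y hy).2.2⟩
  have a3 : X.card = ∑ w ∈ S, (X.filter fun p => p.1 = w).card :=
    Finset.card_eq_sum_card_fiberwise fun p hp => (hX p hp).1
  have a4 := Finset.sum_nonneg a1
  have a5 : ∑ w ∈ S, (((dg G S w : ℤ) - 2) + ((X.filter fun p => p.1 = w).card : ℤ)) ≤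
      ∑ w ∈ S, ((dg G S' w : ℤ) - 2) := Finset.sum_le_sum fun w hw => by
    have := a2 w hw
    omega
  rw [Finset.sum_add_distrib] at a5
  rw [ex, ex, ← Finset.sum_sdiff h1, a3]
  push_cast
  linarith

theorem F05_deg [DecidableEq V] {S : Set V} {a q : V} {Q : List V} (hP : P G (a :: Q))
    (hS : ∀ x ∈ a :: Q, x ∈ S) (hq : q ∈ Q) (Y : Finset V)
    (hY : ∀ y ∈ Y, y ∈ S ∧ G.Adj q y ∧ ¬ [q, y] <:+: a :: Q ∧ ¬ [y, q] <:+: a :: Q) :
    2 + Y.card ≤ dg G S q + if q = Q.getLastD a then 1 else 0 := by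
  obtain ⟨A, B, rfl⟩ := List.append_of_mem hq
  obtain ⟨N, e, -⟩ := B3_last a A
  have e1 : a :: (A ++ q :: B) = N ++ A.getLastD a :: q :: B := by
    rw [← List.cons_append, e]; simp
  generalize A.getLastD a = p at e1
  rw [e1] at hP hS hY
  have hp : p ∉ Y := fun h => (hY p h).2.2.2 ⟨N, B, by simp⟩
  cases B with
  | nil =>
    have := le_dg (G := G) (K := S) (v := q) (insert p Y) fun y hy => by
      rcases Finset.mem_insert.1 hy with rfl | hy
      · exact ⟨hS _ (by simp), hP.mid.symm⟩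
      · exact ⟨(hY y hy).1, (hY y hy).2.1⟩
    rw [Finset.card_insert_of_notMem hp] at this
    rw [if_pos (by simp)]
    omega
  | cons b B =>
    have hb : b ∉ Y := fun h => (hY b h).2.2.1 ⟨N ++ [p], B, by simp⟩
    have hne : b ≠ p := fun e => hP.right.notMem (by simp [e])
    have := le_dg (G := G) (K := S) (v := q) (insert b (insert p Y)) fun y hy => by
      rcases Finset.mem_insert.1 hy with rfl | hy
      · exact ⟨hS _ (by simp), hP.right.tail.adj⟩
      rcases Finset.mem_insert.1 hy with rfl | hy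
      · exact ⟨hS _ (by simp), hP.mid.symm⟩
      · exact ⟨(hY y hy).1, (hY y hy).2.1⟩
    rw [Finset.card_insert_of_notMem (by simp [hne, hb]), Finset.card_insert_of_notMem hp] at this
    omega

/-- S9. -/
theorem St.cnt (h : St G K u z Z v T) {S : Finset V}
    (hS : ∀ x, x ∈ S ↔ x ∈ z :: (Z ++ v :: T) ∨ x ∈ Rg G (Of K (z :: (Z ++ v :: T))) u)
    (X : Finset (V × V)) (hX : ∀ p ∈ X, p.1 ∈ z :: (Z ++ v :: T) ∧ p.2 ∈ S ∧ G.Adj p.1 p.2 ∧
      ¬ [p.1, p.2] <:+: u :: z :: (Z ++ v :: T) ∧ ¬ [p.2, p.1] <:+: u :: z :: (Z ++ v :: T)) :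
    (X.card : ℤ) ≤ ex G S := by
  classical
  have hP := h.path
  have reg := fun x => h.reg (x := x)
  have du := h.du
  have d2 := h.dg2
  generalize z :: (Z ++ v :: T) = Q at *
  have uO : u ∉ Of (K : Set V) Q := fun hm => hm.elim (fun a => a (hP.2 u (by simp))) hP.1.notMem
  have uS : u ∈ S := (hS u).2 (Or.inr (Rg_self _ _))
  have cl : ∀ x ∈ S, x ∉ Q → dg G K x ≤ dg G S x := fun x hx hQ =>
    Set.ncard_le_ncard (fun y hy => ⟨(hS y).2 (or_iff_not_imp_left.2 fun yQ =>
      Rg_adj uO (((hS x).1 hx).resolve_left hQ) hy.2 fun hm => hm.elim (fun a => a hy.1) yQ),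
        hy.2⟩) (Set.toFinite _)
  have h1 : ∑ x ∈ S.filter (fun x => ¬ x ∈ Q), (if x = u then 1 else 0 : ℤ) ≤
      ∑ x ∈ S.filter (fun x => ¬ x ∈ Q), ((dg G S x : ℤ) - 2) :=
    Finset.sum_le_sum fun x hx => by
      obtain ⟨a, b⟩ := Finset.mem_filter.1 hx
      have c := cl x a b
      have d := d2 x (reg x (((hS x).1 a).resolve_left b)).1
      split_ifs with e
      · subst e
        omega
      · omega
  rw [Finset.sum_ite_eq', if_pos (Finset.mem_filter.2 ⟨uS, hP.1.notMem⟩)] at h1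
  have h2 : ∑ x ∈ S.filter (fun x => x ∈ Q), (((X.filter fun p => p.1 = x).card : ℤ) -
      if x = Q.getLastD u then 1 else 0) ≤
      ∑ x ∈ S.filter (fun x => x ∈ Q), ((dg G S x : ℤ) - 2) :=
    Finset.sum_le_sum fun x hx => by
      have a := F05_deg (S := (S : Set V)) hP.1 (fun y hy => by
        rcases List.mem_cons.1 hy with rfl | hy
        · exact uS
        · exact (hS y).2 (Or.inl hy)) (Finset.mem_filter.1 hx).2
        ((X.filter fun p => p.1 = x).image Prod.snd) fun y hy => by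
          obtain ⟨p, hp, rfl⟩ := Finset.mem_image.1 hy
          obtain ⟨b, rfl⟩ := Finset.mem_filter.1 hp
          exact (hX p b).2
      rw [Finset.card_image_of_injOn fun p hp p' hp' e => Prod.ext
        ((Finset.mem_filter.1 hp).2.trans (Finset.mem_filter.1 hp').2.symm) e] at a
      split_ifs at a ⊢ <;> omega
  have h3 : X.card = ∑ x ∈ S.filter (fun x => x ∈ Q), (X.filter fun p => p.1 = x).card :=
    Finset.card_eq_sum_card_fiberwise fun p hp =>
      Finset.mem_filter.2 ⟨(hS _).2 (Or.inl (hX p hp).1), (hX p hp).1⟩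
  rw [Finset.sum_sub_distrib, Finset.sum_ite_eq', ← Nat.cast_sum, ← h3] at h2
  rw [ex, ← Finset.sum_filter_add_sum_filter_not S fun x => x ∈ Q]
  split_ifs at h2 <;> omega

end PS
end

section
/-! The budget is used up. -/

open SimpleGraph

namespace PS
variable {V : Type} {G : SimpleGraph V} [Finite V] {K : Finset V} {u z v : V} {Z T : List V}

/-- What the budget gives. -/
structure Bud (G : SimpleGraph V) (K : Set V) (u : V) (Q : List V) (v : V) (T : List V) :
    Prop where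
  uniq : ∀ q q', Fo G K u Q T q → Fo G K u Q T q' → q = q'
  ear : ∀ q, Fo G K u Q T q → ∃ E, PK G K (v :: (E ++ [q])) ∧
    (∀ c ∈ E, c ∉ Q ∧ c ∉ Rg G (Of K Q) u) ∧ (E = [] → ¬ [v, q] <:+: Q)
  chord : ∀ a ∈ Q, ∀ b ∈ Q, G.Adj a b → ¬ [a, b] <:+: Q → ¬ [b, a] <:+: Q → a = v ∨ b = v
  all : ∀ W, PK G K (u :: W) → ∀ c ∈ W, c ∈ Rg G (Of K Q) u ∨ c ∈ Q ∨
    ((∃ E, PK G K (c :: (E ++ [v])) ∧ ∀ x ∈ c :: E, x ∉ Q ∧ x ∉ Rg G (Of K Q) u) ∧
      ∀ b ∈ T, G.Adj v b → [v, b] <:+: Q)

omit [Finite V] in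
theorem F08_succ {l : List V} (hn : l.Nodup) {x d d' : V} (h : [x, d] <:+: l)
    (h' : [x, d'] <:+: l) : d = d' := by
  induction l with
  | nil => simp at h
  | cons a l ih =>
    obtain ⟨ha, hl⟩ := List.nodup_cons.1 hn
    rcases List.infix_cons_iff.1 h with p | p <;> rcases List.infix_cons_iff.1 h' with p' | p'
    · obtain ⟨t, e⟩ := p
      obtain ⟨t', e'⟩ := p'
      exact (List.cons.inj (List.cons.inj (e.trans e'.symm)).2).1
    · obtain ⟨t, e⟩ := p
      exact absurd (p'.subset List.mem_cons_self) ((List.cons.inj e).1 ▸ ha)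
    · obtain ⟨t, e⟩ := p'
      exact absurd (p.subset List.mem_cons_self) ((List.cons.inj e).1 ▸ ha)
    · exact ih hl p p'

omit [Finite V] in
theorem F08_pred {l : List V} (hn : l.Nodup) {x d d' : V} (h : [d, x] <:+: l)
    (h' : [d', x] <:+: l) : d = d' :=
  F08_succ (x := x) (List.nodup_reverse.2 hn) (List.reverse_infix.2 h) (List.reverse_infix.2 h')

omit [Finite V] in
theorem F08_cons {l : List V} {a x y : V} (h : [x, y] <:+: a :: l) :
    (x = a ∧ l.head? = some y) ∨ [x, y] <:+: l := by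
  rcases List.infix_cons_iff.1 h with ⟨t, e⟩ | p
  · obtain ⟨e1, e2⟩ := List.cons.inj e
    exact Or.inl ⟨e1, e2 ▸ rfl⟩
  · exact Or.inr p

omit [Finite V] in
theorem F08_vT (h : St G K u z Z v T) : v ∉ T :=
  (P.right (A := u :: z :: Z) h.path.1).notMem

omit [Finite V] in
theorem F08_closed {S : Set V} (hS : ∀ s ∈ S, ∀ y ∈ K, G.Adj s y → y ∈ S) {W : List V} {x : V}
    (hx : x ∈ S) (h : PK G K (x :: W)) : ∀ c ∈ W, c ∈ S := by
  induction W generalizing x with
  | nil => exact fun c hc => nomatch hc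
  | cons y W ih =>
    have hy : y ∈ S := hS x hx y (h.2 y (by simp)) h.1.adj
    intro c hc
    rcases List.mem_cons.1 hc with rfl | hc
    · exact hy
    · exact ih hy ⟨h.1.tail, fun w hw => h.2 w (List.mem_cons_of_mem _ hw)⟩ c hc

/-- S13. A third neighbour of `v`. -/
theorem St.third (h : St G K u z Z v T) : ∃ d ∈ K, G.Adj v d ∧
    d ∉ Rg G (Of K (z :: (Z ++ v :: T))) u ∧ ¬ [v, d] <:+: u :: z :: (Z ++ v :: T) ∧
      ¬ [d, v] <:+: u :: z :: (Z ++ v :: T) := by
  by_contra hc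
  have key : {d | d ∈ (K : Set V) ∧ G.Adj v d} ⊆ {d | [v, d] <:+: u :: z :: (Z ++ v :: T)} ∪
      {d | [d, v] <:+: u :: z :: (Z ++ v :: T)} := by
    intro d hd
    by_contra hn
    exact hc ⟨d, hd.1, hd.2, fun hr => F08_vT h (h.att_T ⟨by simp, d, hr, hd.2.symm⟩),
      fun q => hn (Or.inl q), fun q => hn (Or.inr q)⟩
  have e1 := (Set.ncard_le_ncard key (Set.toFinite _)).trans (Set.ncard_union_le _ _)
  have e2 : {d | [v, d] <:+: u :: z :: (Z ++ v :: T)}.ncard ≤ 1 :=
    (Set.ncard_le_one (Set.toFinite _)).2 fun a ha b hb => F08_succ h.path.1.1 ha hb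
  have e3 : {d | [d, v] <:+: u :: z :: (Z ++ v :: T)}.ncard ≤ 1 :=
    (Set.ncard_le_one (Set.toFinite _)).2 fun a ha b hb => F08_pred h.path.1.1 ha hb
  have e4 := h.dv
  unfold dg at e4
  omega

/-- S14. There is a chord. -/
theorem St.budA (h : St G K u z Z v T) {a b : V} (ha : a ∈ z :: (Z ++ v :: T))
    (hb : b ∈ z :: (Z ++ v :: T)) (hab : G.Adj a b) (h1 : ¬ [a, b] <:+: z :: (Z ++ v :: T))
    (h2 : ¬ [b, a] <:+: z :: (Z ++ v :: T)) : Bud G K u (z :: (Z ++ v :: T)) v T := by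
  classical
  obtain ⟨d, hdK, hvd, hdR, hd1, hd2⟩ := h.third
  obtain ⟨q, hq, x, hx, hxq⟩ := h.att_ex
  have hxQ := (h.reg hx).2
  have hu : u ∉ z :: (Z ++ v :: T) := h.path.1.notMem
  have hz : z ∉ Z ++ v :: T := h.path.1.tail.notMem
  have hvT := F08_vT h
  have hQK : ∀ c ∈ z :: (Z ++ v :: T), c ∈ K := fun c hc => h.path.2 c (List.mem_cons_of_mem _ hc)
  have hTQ : ∀ c ∈ T, c ∈ z :: (Z ++ v :: T) := fun c hc => by simp [hc]
  have hvQ : v ∈ z :: (Z ++ v :: T) := by simp
  have hqQ : q ∈ z :: (Z ++ v :: T) := List.mem_cons_of_mem _ hq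
  obtain ⟨S, hS⟩ : ∃ S : Finset V, ∀ x, x ∈ S ↔ x ∈ z :: (Z ++ v :: T) ∨
      x ∈ Rg G (Of K (z :: (Z ++ v :: T))) u :=
    ⟨(Set.toFinite {x | x ∈ z :: (Z ++ v :: T) ∨
      x ∈ Rg G (Of K (z :: (Z ++ v :: T))) u}).toFinset, fun x => Set.Finite.mem_toFinset _⟩
  have hSK : S ⊆ K := fun c hc => ((hS c).1 hc).elim (hQK c) fun k => (h.reg k).1
  have cnt := h.cnt hS
  have gain := fun X hX => (L_gain (G := G) hSK (Finset.Subset.refl K) h.dg2
    (fun _ _ _ _ hy _ => hy) X hX).trans h.hex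
  have hqx : ¬ [q, x] <:+: u :: z :: (Z ++ v :: T) ∧ ¬ [x, q] <:+: u :: z :: (Z ++ v :: T) := by
    refine ⟨fun k => ?_, fun k => ?_⟩
    · rcases F08_cons k with k | k
      · exact hu (k.1 ▸ hqQ)
      · exact hxQ (k.subset (by simp))
    · rcases F08_cons k with k | k
      · exact hz ((Option.some.inj k.2) ▸ hq)
      · exact hxQ (k.subset (by simp))
  generalize z :: (Z ++ v :: T) = Q at *
  have up : ∀ {a b}, a ∈ Q → ¬ [a, b] <:+: Q → ¬ [a, b] <:+: u :: Q := fun ha hn k =>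
    (F08_cons k).elim (fun k => hu (k.1 ▸ ha)) hn
  have pq : (q, x).1 ∈ Q ∧ (q, x).2 ∈ S ∧ G.Adj (q, x).1 (q, x).2 ∧
      ¬ [(q, x).1, (q, x).2] <:+: u :: Q ∧ ¬ [(q, x).2, (q, x).1] <:+: u :: Q :=
    ⟨hqQ, (hS x).2 (Or.inr hx), hxq.symm, hqx⟩
  have pc : ∀ {a b}, a ∈ Q → b ∈ Q → G.Adj a b → ¬ [a, b] <:+: Q → ¬ [b, a] <:+: Q →
      (a, b).1 ∈ Q ∧ (a, b).2 ∈ S ∧ G.Adj (a, b).1 (a, b).2 ∧
      ¬ [(a, b).1, (a, b).2] <:+: u :: Q ∧ ¬ [(a, b).2, (a, b).1] <:+: u :: Q :=
    fun ha hb hab h1 h2 => ⟨ha, (hS _).2 (Or.inl hb), hab, up ha h1, up hb h2⟩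
  have nx : ∀ {a b}, b ∈ Q → (a, b) ≠ (q, x) := fun hb e => hxQ ((Prod.mk.inj e).2 ▸ hb)
  have c3 : ({(a, b), (b, a), (q, x)} : Finset (V × V)).card = 3 :=
    Finset.card_eq_three.2 ⟨_, _, _, fun e => hab.ne (Prod.mk.inj e).1, nx hb, nx ha, rfl⟩
  have p3 : ∀ p ∈ ({(a, b), (b, a), (q, x)} : Finset (V × V)), p.1 ∈ Q ∧ p.2 ∈ S ∧
      G.Adj p.1 p.2 ∧ ¬ [p.1, p.2] <:+: u :: Q ∧ ¬ [p.2, p.1] <:+: u :: Q := by
    intro p hp
    simp only [Finset.mem_insert, Finset.mem_singleton] at hp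
    rcases hp with rfl | rfl | rfl
    · exact pc ha hb hab h1 h2
    · exact pc hb ha hab.symm h2 h1
    · exact pq
  have e4 : 4 ≤ ex G S := by
    have e1 := cnt _ p3
    obtain ⟨m, e2⟩ := ex_even (G := G) S
    rw [c3] at e1
    omega
  have cl : ∀ s ∈ (S : Set V), ∀ y ∈ K, G.Adj s y → y ∈ (S : Set V) := by
    intro s hs y hy hsy
    by_contra hn
    have := gain {(s, y)} fun p hp => Finset.mem_singleton.1 hp ▸ ⟨hs, hy, hn, hsy⟩
    rw [Finset.card_singleton] at this
    omega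
  have two : ∀ {a' b'}, a' ∈ Q → b' ∈ Q → G.Adj a' b' → ¬ [a', b'] <:+: Q → ¬ [b', a'] <:+: Q →
      (a' = a ∧ b' = b) ∨ (a' = b ∧ b' = a) := by
    intro a' b' ha' hb' hab' h1' h2'
    by_contra hn
    have n1 : (b', a') ∉ ({(a, b), (b, a), (q, x)} : Finset (V × V)) := by
      simp only [Finset.mem_insert, Finset.mem_singleton]
      rintro (e | e | e)
      · exact hn (Or.inr ⟨(Prod.mk.inj e).2, (Prod.mk.inj e).1⟩)
      · exact hn (Or.inl ⟨(Prod.mk.inj e).2, (Prod.mk.inj e).1⟩)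
      · exact nx ha' e
    have n2 : (a', b') ∉ insert (b', a') ({(a, b), (b, a), (q, x)} : Finset (V × V)) := by
      simp only [Finset.mem_insert, Finset.mem_singleton]
      rintro (e | e | e | e)
      · exact hab'.ne (Prod.mk.inj e).1
      · exact hn (Or.inl (Prod.mk.inj e))
      · exact hn (Or.inr (Prod.mk.inj e))
      · exact nx hb' e
    have e1 := cnt (insert (a', b') (insert (b', a') {(a, b), (b, a), (q, x)})) fun p hp => by
      rcases Finset.mem_insert.1 hp with rfl | hp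
      · exact pc ha' hb' hab' h1' h2'
      rcases Finset.mem_insert.1 hp with rfl | hp
      · exact pc hb' ha' hab'.symm h2' h1'
      · exact p3 p hp
    have e2 := gain ∅ fun p hp => nomatch hp
    rw [Finset.card_insert_of_notMem n2, Finset.card_insert_of_notMem n1, c3] at e1
    rw [Finset.card_empty] at e2
    omega
  have inQ : ∀ {s y}, s ∈ Q → y ∈ K → G.Adj s y → y ∉ Rg G (Of K Q) u → y ∈ Q :=
    fun hs hy hsy hn => ((hS _).1 (cl _ ((hS _).2 (Or.inl hs)) _ hy hsy)).resolve_right hn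
  have hd1' : ¬ [v, d] <:+: Q := fun k => hd1 (List.infix_cons k)
  have hvd' := two hvQ (inQ hvQ hdK hvd hdR) hvd hd1' fun k => hd2 (List.infix_cons k)
  have ch : ∀ a' ∈ Q, ∀ b' ∈ Q, G.Adj a' b' → ¬ [a', b'] <:+: Q → ¬ [b', a'] <:+: Q →
      (a' = v ∧ b' = d) ∨ (a' = d ∧ b' = v) := by
    intro a' ha' b' hb' hab' h1' h2'
    rcases two ha' hb' hab' h1' h2' with ⟨rfl, rfl⟩ | ⟨rfl, rfl⟩ <;>
      rcases hvd' with ⟨e1, e2⟩ | ⟨e1, e2⟩
    · exact Or.inl ⟨e1.symm, e2.symm⟩
    · exact Or.inr ⟨e2.symm, e1.symm⟩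
    · exact Or.inr ⟨e2.symm, e1.symm⟩
    · exact Or.inl ⟨e1.symm, e2.symm⟩
  have fo : ∀ c, Fo G K u Q T c → c = d := by
    rintro c ⟨hc, y, hy, hcy, k1, k2, k3⟩
    rcases ch c (hTQ c hc) y (inQ (hTQ c hc) hy hcy k1) hcy k2 k3 with e | e
    · exact absurd (e.1 ▸ hc) hvT
    · exact e.1
  refine ⟨fun c c' hc hc' => (fo c hc).trans (fo c' hc').symm, fun c hc => ?_,
    fun a' ha' b' hb' hab' h1' h2' => (ch a' ha' b' hb' hab' h1' h2').imp And.left And.right,
    fun W hW c hc => ?_⟩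
  · obtain rfl := fo c hc
    refine ⟨[], ⟨(P.single c).cons hvd fun k => hvd.ne (List.mem_singleton.1 k), fun w hw => ?_⟩,
      fun _ k => (nomatch k), fun _ => hd1'⟩
    rcases List.mem_cons.1 hw with rfl | hw
    · exact hQK _ hvQ
    · exact List.mem_singleton.1 hw ▸ hdK
  · rcases (hS c).1 (F08_closed cl ((hS u).2 (Or.inr (Rg_self _ _))) hW c hc) with k | k
    · exact Or.inr (Or.inl k)
    · exact Or.inl k

theorem F09_inf {α : Type} {a b x y : α} {l : List α} (h : [a, b] <:+: x :: y :: l) :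
    b ∈ y :: l ∧ (a ∈ y :: l ∨ b = y) := by
  rcases List.infix_cons_iff.1 h with h1 | h1
  · obtain ⟨t, ht⟩ := h1
    simp only [List.cons_append, List.cons.injEq] at ht
    exact ⟨ht.2.1 ▸ List.mem_cons_self, Or.inr ht.2.1⟩
  · exact ⟨h1.subset (by simp), Or.inl (h1.subset (by simp))⟩

theorem F09_back {α : Type} {b x : α} {A B : List α} (hn : (A ++ x :: B).Nodup) (hb : b ∈ B)
    (h : [b, x] <:+: A ++ x :: B) : False := by
  obtain ⟨s, t, e⟩ := h
  have e' : A ++ x :: B = (s ++ [b]) ++ x :: t := by rw [← e]; simp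
  have hd := List.disjoint_of_nodup_append hn
  have h1 : x ∉ A := fun hx => hd hx List.mem_cons_self
  have h2 : x ∉ B := (List.nodup_cons.1 hn.of_append_right).1
  have h3 := ((List.append_cons_inj_of_notMem h1 h2).1 e').1
  exact hd (show b ∈ A by rw [h3]; simp) (List.mem_cons_of_mem _ hb)

omit [Finite V] in
theorem F09_path {S : Set V} {x y : V} (hx : x ∉ S) (h : y ∈ Rg G S x) :
    (∃ A, P G (x :: A) ∧ (∃ B, x :: A = B ++ [y]) ∧ ∀ c ∈ x :: A, c ∈ Rg G S x) := by
  by_cases hne : x = y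
  · subst hne
    exact ⟨[], P.single x, ⟨[], rfl⟩, fun c hc => by rw [List.mem_singleton.1 hc]; exact h⟩
  · obtain ⟨A, h1, h2⟩ := Rg_path hx h hne
    exact ⟨A ++ [y], h1, ⟨x :: A, rfl⟩, h1.mem_Rg h2⟩

omit [Finite V] in
theorem F09_closed {S K' : Set V} (hc : ∀ a ∈ S, ∀ b ∈ K', G.Adj a b → b ∈ S) (W : List V) :
    ∀ x, x ∈ S → PK G K' (x :: W) → ∀ c ∈ W, c ∈ S := by
  induction W with
  | nil => intro x _ _ c hc; simp at hc
  | cons y W ih =>
    intro x hx hP c hcW
    have hy : y ∈ S := hc x hx y (hP.2 y (by simp)) hP.1.adj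
    rcases List.mem_cons.1 hcW with rfl | hcW
    · exact hy
    · exact ih y hy ⟨hP.1.tail, fun a ha => hP.2 a (List.mem_cons_of_mem _ ha)⟩ c hcW

/-- S15. There is no chord. -/
theorem St.budB (h : St G K u z Z v T) (hn : ∀ a ∈ z :: (Z ++ v :: T), ∀ b ∈ z :: (Z ++ v :: T),
    G.Adj a b → [a, b] <:+: z :: (Z ++ v :: T) ∨ [b, a] <:+: z :: (Z ++ v :: T)) :
    Bud G K u (z :: (Z ++ v :: T)) v T := by
  classical
  obtain ⟨d, hdK, hvd, hdR, hd1, hd2⟩ := h.third
  obtain ⟨q0, hq0⟩ := h.att_ex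
  have hq0T := h.att_T hq0
  obtain ⟨hq0m, x0, hx0, hxq⟩ := hq0
  have hreg := fun x (hx : x ∈ Rg G (Of K (z :: (Z ++ v :: T))) u) => h.reg hx
  have hcnt := fun S hS X hX => h.cnt (S := S) hS X hX
  have hPQ : P G (z :: (Z ++ v :: T)) := h.path.1.tail
  have hzQ : z ∉ Z ++ v :: T := hPQ.notMem
  have hback : ∀ b ∈ T, ¬ [b, v] <:+: z :: (Z ++ v :: T) := fun b hb hi =>
    F09_back (A := z :: Z) hPQ.1 hb hi
  have hvT : v ∉ T := hPQ.tail.right.notMem
  have hQK : ∀ x ∈ z :: (Z ++ v :: T), x ∈ K := fun x hx => h.path.2 x (List.mem_cons_of_mem _ hx)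
  have hvQ : v ∈ z :: (Z ++ v :: T) := by simp
  have hTQ : ∀ x ∈ T, x ∈ z :: (Z ++ v :: T) := fun x hx => by simp [hx]
  have hinf1 : ¬ [q0, x0] <:+: u :: z :: (Z ++ v :: T) := fun hi =>
    (hreg x0 hx0).2 (F09_inf hi).1
  have hinf2 : ¬ [x0, q0] <:+: u :: z :: (Z ++ v :: T) := fun hi => by
    rcases (F09_inf hi).2 with h1 | h1
    · exact (hreg x0 hx0).2 h1
    · exact hzQ (h1 ▸ hq0m)
  have hdg := h.dg2
  have hex := h.hex
  generalize z :: (Z ++ v :: T) = Q at *
  have hdQ : d ∉ Q := fun hd => (hn v hvQ d hd hvd).elim (fun hi => hd1 (List.infix_cons hi))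
    (fun hi => hd2 (List.infix_cons hi))
  have hdO : d ∉ Of K Q := fun hd => hd.elim (fun hk => hk hdK) hdQ
  have hP0 : ∀ x ∈ Rg G (Of K Q) d, x ∈ K ∧ x ∉ Q ∧ x ∉ Rg G (Of K Q) u := by
    intro x hx
    have h1 := Rg_notMem hdO hx
    refine ⟨?_, fun hq => h1 (Or.inr hq), fun hr => hdR (Rg_trans hr (Rg_symm hx))⟩
    by_contra hk
    exact h1 (Or.inl hk)
  obtain ⟨S, hS⟩ : ∃ S : Finset V, ∀ x, x ∈ S ↔ x ∈ Q ∨ x ∈ Rg G (Of K Q) u := by
    refine ⟨K.filter fun x => x ∈ Q ∨ x ∈ Rg G (Of K Q) u, fun x => ?_⟩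
    rw [Finset.mem_filter]
    exact ⟨fun hx => hx.2, fun hx => ⟨hx.elim (hQK x) (fun hr => (hreg x hr).1), hx⟩⟩
  obtain ⟨S1, hS1⟩ : ∃ S1 : Finset V, ∀ x, x ∈ S1 ↔ x ∈ S ∨ x ∈ Rg G (Of K Q) d := by
    refine ⟨S ∪ K.filter fun x => x ∈ Rg G (Of K Q) d, fun x => ?_⟩
    rw [Finset.mem_union, Finset.mem_filter]
    exact ⟨fun hx => hx.imp id And.right, fun hx => hx.imp id fun hr => ⟨(hP0 x hr).1, hr⟩⟩
  have hSS : S ⊆ S1 := fun x hx => (hS1 x).2 (Or.inl hx)
  have hSK : S1 ⊆ K := fun x hx => ((hS1 x).1 hx).elim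
    (fun hs => ((hS x).1 hs).elim (hQK x) (fun hr => (hreg x hr).1)) (fun hr => (hP0 x hr).1)
  have hQS : ∀ x ∈ Q, x ∈ S := fun x hx => (hS x).2 (Or.inl hx)
  have hPS : ∀ x ∈ Rg G (Of K Q) d, x ∈ S1 ∧ x ∉ S := fun x hx =>
    ⟨(hS1 x).2 (Or.inr hx), fun hs => ((hS x).1 hs).elim (hP0 x hx).2.1 (hP0 x hx).2.2⟩
  have hcl : ∀ c ∈ S1, c ∉ S → ∀ y ∈ K, G.Adj c y → y ∈ S1 := by
    intro c hc hcS y hy ha
    have hc' := ((hS1 c).1 hc).resolve_left hcS
    by_cases hq : y ∈ Q
    · exact hSS (hQS y hq)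
    · exact (hS1 y).2 (Or.inr (Rg_adj hdO hc' ha fun ho => ho.elim (fun hk => hk hy) hq))
  have e1 : (2 : ℤ) ≤ ex G S := by
    have h1 := hcnt S hS {(q0, x0)} (fun p hp => by
      rw [Finset.mem_singleton.1 hp]
      exact ⟨hTQ q0 hq0T, (hS x0).2 (Or.inr hx0), hxq.symm, hinf1, hinf2⟩)
    obtain ⟨m, hm⟩ := ex_even (G := G) S
    rw [Finset.card_singleton] at h1
    omega
  have e2 : (4 : ℤ) ≤ ex G S1 := by
    have h1 := L_gain hSS hSK hdg hcl {(v, d)} (fun p hp => by
      rw [Finset.mem_singleton.1 hp]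
      exact ⟨hQS v hvQ, (hPS d (Rg_self _ _)).1, (hPS d (Rg_self _ _)).2, hvd⟩)
    obtain ⟨m, hm⟩ := ex_even (G := G) S1
    rw [Finset.card_singleton] at h1
    omega
  have e3 : ex G S1 ≤ 4 := by
    have h1 := L_gain hSK (Finset.Subset.refl K) hdg (fun _ _ _ y hy _ => hy) ∅
      (fun p hp => by simp at hp)
    rw [Finset.card_empty] at h1
    omega
  have hclosed : ∀ a ∈ S1, ∀ b ∈ K, G.Adj a b → b ∈ S1 := by
    intro a ha b hb hab
    by_contra hcon
    have h1 := L_gain hSK (Finset.Subset.refl K) hdg (fun _ _ _ y hy _ => hy) {(a, b)}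
      (fun p hp => by
        rw [Finset.mem_singleton.1 hp]
        exact ⟨ha, hb, hcon, hab⟩)
    rw [Finset.card_singleton] at h1
    omega
  have hFo : ∀ q, Fo G K u Q T q → q ∈ T ∧ ∃ d' ∈ Rg G (Of K Q) d, G.Adj q d' := by
    rintro q ⟨hq, d', hK', ha, hR, i1, i2⟩
    refine ⟨hq, d', ?_, ha⟩
    rcases (hS1 d').1 (hclosed q (hSS (hQS q (hTQ q hq))) d' hK' ha) with h1 | h1
    · rcases (hS d').1 h1 with h2 | h2
      · exact ((hn q (hTQ q hq) d' h2 ha).elim i1 i2).elim
      · exact (hR h2).elim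
    · exact h1
  refine ⟨fun q q' hq hq' => ?_, fun q hq => ?_, fun a ha b hb hab i1 i2 => ?_,
    fun W hW c hc => ?_⟩
  · by_contra hne
    obtain ⟨t1, d1, r1, a1⟩ := hFo q hq
    obtain ⟨t2, d2, r2, a2⟩ := hFo q' hq'
    have n1 : v ≠ q := fun e => hvT (e ▸ t1)
    have n2 : v ≠ q' := fun e => hvT (e ▸ t2)
    have h1 := L_gain hSS hSK hdg hcl {(v, d), (q, d1), (q', d2)} (fun p hp => by
      simp only [Finset.mem_insert, Finset.mem_singleton] at hp
      rcases hp with rfl | rfl | rfl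
      · exact ⟨hQS v hvQ, (hPS d (Rg_self _ _)).1, (hPS d (Rg_self _ _)).2, hvd⟩
      · exact ⟨hQS q (hTQ q t1), (hPS d1 r1).1, (hPS d1 r1).2, a1⟩
      · exact ⟨hQS q' (hTQ q' t2), (hPS d2 r2).1, (hPS d2 r2).2, a2⟩)
    rw [Finset.card_eq_three.2 ⟨(v, d), (q, d1), (q', d2), fun e => n1 (congrArg Prod.fst e),
      fun e => n2 (congrArg Prod.fst e), fun e => hne (congrArg Prod.fst e), rfl⟩] at h1
    omega
  · obtain ⟨t1, d1, r1, a1⟩ := hFo q hq
    obtain ⟨A, p1, ⟨B, eB⟩, p2⟩ := F09_path hdO r1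
    have n1 : v ≠ q := fun e => hvT (e ▸ t1)
    have p3 : P G (B ++ d1 :: q :: []) := by
      refine P.append (eB ▸ p1) (P.single q) a1.symm fun x hx hx' => ?_
      rw [← eB] at hx
      exact (hP0 x (p2 x hx)).2.1 (List.mem_singleton.1 hx' ▸ hTQ q t1)
    have e4 : B ++ d1 :: q :: [] = d :: (A ++ [q]) := by
      rw [← List.cons_append, eB]; simp
    rw [e4] at p3
    refine ⟨d :: A, ⟨p3.cons hvd fun hx => ?_, fun x hx => ?_⟩, fun c hc => (hP0 c (p2 c hc)).2,
      fun e => by simp at e⟩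
    · rw [← List.cons_append, List.mem_append, List.mem_singleton] at hx
      exact hx.elim (fun hx => (hP0 v (p2 v hx)).2.1 hvQ) n1
    · rcases List.mem_cons.1 hx with rfl | hx
      · exact hQK _ hvQ
      · rcases List.mem_append.1 hx with hx | hx
        · exact (hP0 x (p2 x hx)).1
        · exact List.mem_singleton.1 hx ▸ hQK q (hTQ q t1)
  · exact ((hn a ha b hb hab).elim i1 i2).elim
  · have hc1 : c ∈ S1 := F09_closed (S := (S1 : Set V)) (K' := (K : Set V)) hclosed W u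
      (hSS ((hS u).2 (Or.inr (Rg_self _ _)))) hW c hc
    rcases (hS1 c).1 hc1 with h1 | h1
    · exact ((hS c).1 h1).elim (fun h2 => Or.inr (Or.inl h2)) Or.inl
    · refine Or.inr (Or.inr ⟨?_, fun b hb hvb =>
        (hn v hvQ b (hTQ b hb) hvb).resolve_right (hback b hb)⟩)
      obtain ⟨A, p1, ⟨B, eB⟩, p2⟩ := F09_path (Rg_notMem hdO h1) (Rg_symm h1)
      have p4 : ∀ x ∈ c :: A, x ∈ Rg G (Of K Q) d := fun x hx => Rg_trans h1 (p2 x hx)
      have p3 : P G (B ++ d :: v :: []) := by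
        refine P.append (eB ▸ p1) (P.single v) hvd.symm fun x hx hx' => ?_
        rw [← eB] at hx
        exact (hP0 x (p4 x hx)).2.1 (List.mem_singleton.1 hx' ▸ hvQ)
      have e4 : B ++ d :: v :: [] = c :: (A ++ [v]) := by
        rw [← List.cons_append, eB]; simp
      rw [e4] at p3
      refine ⟨A, ⟨p3, fun x hx => ?_⟩, fun x hx => (hP0 x (p4 x hx)).2⟩
      rw [← List.cons_append, List.mem_append, List.mem_singleton] at hx
      exact hx.elim (fun hx => (hP0 x (p4 x hx)).1) (fun e => e ▸ hQK v hvQ)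

theorem St.bud (h : St G K u z Z v T) : Bud G K u (z :: (Z ++ v :: T)) v T := by
  by_cases hn : ∀ a ∈ z :: (Z ++ v :: T), ∀ b ∈ z :: (Z ++ v :: T),
      G.Adj a b → [a, b] <:+: z :: (Z ++ v :: T) ∨ [b, a] <:+: z :: (Z ++ v :: T)
  · exact h.budB hn
  · push Not at hn
    obtain ⟨a, ha, b, hb, hab, h1, h2⟩ := hn
    exact h.budA ha hb hab h1 h2

end PS
end

section
/-! The path ends soon after the thread. -/

open SimpleGraph

namespace PS
variable {V : Type} {G : SimpleGraph V} [Finite V] {K : Finset V} {u z v : V} {Z T : List V}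

omit [Finite V] in
theorem F10_split {A B A' B' : List V} {p : V} (hn : (A ++ p :: B).Nodup)
    (e : A ++ p :: B = A' ++ p :: B') : A = A' ∧ B = B' := by
  have h1 : p ∉ A := fun m => (List.nodup_append.1 hn).2.2 p m p (by simp) rfl
  have h2 : p ∉ B := (List.nodup_cons.1 (List.nodup_append.1 hn).2.1).1
  have := (List.append_cons_inj_of_notMem h1 h2).1 e
  exact ⟨this.1, this.2.2⟩

omit [Finite V] in
theorem F10_next {A B : List V} {p d : V} (hn : (A ++ p :: B).Nodup)
    (h : [p, d] <:+: A ++ p :: B) : ∃ B', B = d :: B' := by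
  obtain ⟨s, t, e⟩ := h
  exact ⟨t, (F10_split (A' := s) (B' := d :: t) hn (by rw [← e]; simp)).2⟩

omit [Finite V] in
theorem F10_prev {A B : List V} {a p d : V} (hn : (A ++ a :: p :: B).Nodup)
    (h : [d, p] <:+: A ++ a :: p :: B) : d = a := by
  obtain ⟨s, t, e⟩ := h
  have e1 : A ++ a :: p :: B = (A ++ [a]) ++ p :: B := by simp
  have := (F10_split (A := A ++ [a]) (A' := s ++ [d]) (B' := t) (e1 ▸ hn)
    (by rw [← e1, ← e]; simp)).1
  exact ((List.append_singleton_inj.1 this).2).symm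

omit [Finite V] in
theorem F10_third {p d : V} (hp : p ∈ T) (hd : d ∈ K) (ha : G.Adj p d)
    (h1 : ¬ [p, d] <:+: z :: (Z ++ v :: T)) (h2 : ¬ [d, p] <:+: z :: (Z ++ v :: T)) :
    Att G K u z (Z ++ v :: T) p ∨ Fo G K u (z :: (Z ++ v :: T)) T p := by
  by_cases hr : d ∈ Rg G (Of K (z :: (Z ++ v :: T))) u
  · exact Or.inl ⟨by simp [hp], d, hr, ha.symm⟩
  · exact Or.inr ⟨hp, d, hd, ha, hr, h1, h2⟩

omit [Finite V] in
theorem F10_pre (v : V) (T₁ : List V) :
    ∃ A a, v :: T₁ = A ++ [a] ∧ (T₁ = [] ∨ a ∈ T₁) := by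
  rcases List.eq_nil_or_concat T₁ with rfl | ⟨L, a, rfl⟩
  · exact ⟨[], v, rfl, Or.inl rfl⟩
  · exact ⟨v :: L, a, by simp, Or.inr (by simp)⟩

omit [Finite V] in
theorem F10_adj {A B : List V} {a p : V} (h : P G (A ++ a :: p :: B)) : G.Adj a p :=
  (List.isChain_append_cons_cons.1 h.2).2.1

/-- S16. -/
theorem St.inner (h : St G K u z Z v T) {T₁ T₂ : List V} {p q : V} (e : T = T₁ ++ p :: q :: T₂)
    (hp : ¬ Dir G K p) : Att G K u z (Z ++ v :: T) p ∨ Fo G K u (z :: (Z ++ v :: T)) T p ∨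
      (T₁ = [] ∧ G.Adj v q ∧ Fo G K u (z :: (Z ++ v :: T)) T q) := by
  obtain ⟨A, a, e1, ha⟩ := F10_pre v T₁
  have eQ : z :: (Z ++ v :: T) = (z :: (Z ++ A)) ++ a :: p :: q :: T₂ := by
    rw [e, ← List.cons_append (a := v), e1]; simp
  have eQ' : z :: (Z ++ v :: T) = (z :: (Z ++ A) ++ [a]) ++ p :: q :: T₂ := by rw [eQ]; simp
  have eQ'' : z :: (Z ++ v :: T) = (z :: (Z ++ A) ++ [a, p]) ++ q :: T₂ := by rw [eQ]; simp
  have hP : P G (z :: (Z ++ v :: T)) := h.path.1.tail
  have hK : ∀ x ∈ z :: (Z ++ v :: T), x ∈ (K : Set V) := fun x hx =>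
    h.path.2 x (List.mem_cons_of_mem _ hx)
  have haQ : a ∈ z :: (Z ++ v :: T) := by rw [eQ]; simp
  have hpT : p ∈ T := by rw [e]; simp
  have hqT : q ∈ T := by rw [e]; simp
  have hpQ : p ∈ z :: (Z ++ v :: T) := by simp [hpT]
  have hqQ : q ∈ z :: (Z ++ v :: T) := by simp [hqT]
  have hap : G.Adj a p := F10_adj (eQ ▸ hP)
  have hpq : G.Adj p q := F10_adj (eQ' ▸ hP)
  have hn3 : (a :: p :: q :: T₂).Nodup := (List.nodup_append.1 (eQ ▸ hP.1)).2.1
  have hvT : v ∉ T :=
    (List.nodup_cons.1 (List.nodup_append.1 (List.nodup_cons.1 hP.1).2).2.1).1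
  have haq : a ≠ q := fun c => (List.nodup_cons.1 hn3).1 (by simp [c])
  by_cases h3 : ∃ d ∈ (K : Set V), G.Adj p d ∧ d ≠ a ∧ d ≠ q
  · obtain ⟨d, hd, hpd, d1, d2⟩ := h3
    have n1 : ¬ [p, d] <:+: z :: (Z ++ v :: T) := fun c => by
      obtain ⟨B', eb⟩ := F10_next (eQ' ▸ hP.1) (eQ' ▸ c)
      exact d2 (List.cons_eq_cons.1 eb).1.symm
    have n2 : ¬ [d, p] <:+: z :: (Z ++ v :: T) := fun c => d1 (F10_prev (eQ ▸ hP.1) (eQ ▸ c))
    rcases F10_third (u := u) hpT hd hpd n1 n2 with c | c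
    · exact Or.inl c
    · exact Or.inr (Or.inl c)
  · have hadj : G.Adj a q := by
      by_contra c
      refine hp ⟨a, q, hK p hpQ, hK a haQ, hK q hqQ, hap.symm, hpq, haq, c, fun d hd hpd => ?_⟩
      by_contra c'
      exact h3 ⟨d, hd, hpd, fun x => c' (Or.inl x), fun x => c' (Or.inr x)⟩
    have n1 : ¬ [a, q] <:+: z :: (Z ++ v :: T) := fun c => by
      obtain ⟨B', eb⟩ := F10_next (eQ ▸ hP.1) (eQ ▸ c)
      exact hpq.ne (List.cons_eq_cons.1 eb).1
    have n2 : ¬ [q, a] <:+: z :: (Z ++ v :: T) := fun c => by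
      obtain ⟨B', eb⟩ := F10_next (eQ'' ▸ hP.1) (eQ'' ▸ c)
      exact (List.nodup_cons.1 hn3).1 (by simp [eb])
    rcases h.bud.chord a haQ q hqQ hadj n1 n2 with c | c
    · subst c
      have hT : T₁ = [] := ha.resolve_right fun m => hvT (by rw [e]; simp [m])
      exact Or.inr (Or.inr ⟨hT, hadj, hqT, a, hK a haQ, hadj.symm,
        fun r => (h.reg r).2 haQ, n2, n1⟩)
    · exact absurd (c ▸ hqT) hvT

/-- S16. -/
theorem St.last (h : St G K u z Z v T) {T₁ : List V} {l : V} (e : T = T₁ ++ [l]) :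
    Att G K u z (Z ++ v :: T) l ∨ Fo G K u (z :: (Z ++ v :: T)) T l := by
  obtain ⟨A, a, e1, -⟩ := F10_pre v T₁
  have eQ : z :: (Z ++ v :: T) = (z :: (Z ++ A)) ++ a :: l :: [] := by
    rw [e, ← List.cons_append (a := v), e1]; simp
  have eQ' : z :: (Z ++ v :: T) = (z :: (Z ++ A) ++ [a]) ++ l :: [] := by rw [eQ]; simp
  have hP : P G (z :: (Z ++ v :: T)) := h.path.1.tail
  have hlT : l ∈ T := by rw [e]; simp
  have hlK : l ∈ K := h.path.2 l (by simp [hlT])
  have h2 : 1 < {x | x ∈ (K : Set V) ∧ G.Adj l x}.ncard := h.dg2 l hlK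
  obtain ⟨d, ⟨hd, hld⟩, hda⟩ := Set.exists_ne_of_one_lt_ncard h2 a
  refine F10_third hlT hd hld (fun c => ?_) fun c => hda (F10_prev (eQ ▸ hP.1) (eQ ▸ c))
  obtain ⟨B', eb⟩ := F10_next (eQ' ▸ hP.1) (eQ' ▸ c)
  simp at eb

/-- S16. -/
theorem St.rule (h : St G K u z Z v T) {T₁ T₂ : List V} {p q : V} (e : T = T₁ ++ p :: q :: T₂)
    (hq : Att G K u z (Z ++ v :: T) q) : Fo G K u (z :: (Z ++ v :: T)) T p ∨
      (T₁ = [] ∧ G.Adj v q ∧ Fo G K u (z :: (Z ++ v :: T)) T q) := by
  have eQ : z :: (Z ++ v :: T) = (z :: (Z ++ v :: T₁)) ++ p :: q :: T₂ := by rw [e]; simp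
  rcases h.inner e (h.pred eQ hq) with c | c
  · exact (h.consec e c hq).elim
  · exact c

omit [Finite V] in
theorem F11_last {T T₁ A B : List V} {l x : V} (hn : T.Nodup) (e : T = T₁ ++ [l])
    (e' : T = A ++ x :: B) (hx : x = l) : B = [] := by
  subst hx
  rcases List.eq_nil_or_concat B with h | ⟨B', y, h⟩
  · exact h
  · exfalso
    rw [List.concat_eq_append] at h
    subst h
    have e2 : T₁ ++ [x] = (A ++ x :: B') ++ [y] := by rw [← e, e']; simp
    have hy : x = y := by simpa using (List.append_inj' e2 rfl).2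
    subst hy
    rw [e'] at hn
    have := (List.nodup_cons.1 hn.of_append_right).1
    exact this (by simp)

omit [Finite V] in
theorem F11_rev {A : List V} {x y : V} (h : (x :: (A ++ [y])).IsChain G.Adj) :
    (y :: (A.reverse ++ [x])).IsChain G.Adj := by
  have := List.isChain_reverse.2 (h.imp fun _ _ hab => G.adj_symm hab)
  simpa using this

omit [Finite V] in
theorem F11_gl {A B : List V} {x y : V} (h1 : (x :: (A ++ [y])).IsChain G.Adj)
    (h2 : (y :: B).IsChain G.Adj) : (x :: (A ++ y :: B)).IsChain G.Adj :=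
  (List.isChain_split (l₁ := x :: A)).2 ⟨h1, h2⟩

theorem F11_nd (h : St G K u z Z v T) {T₃ : List V} {q p l : V} (e : T = q :: (T₃ ++ [p, l]))
    (hq : Att G K u z (Z ++ v :: T) q) (hl : Fo G K u (z :: (Z ++ v :: T)) T l) :
    ¬ Dir G K p := by
  intro hd
  obtain ⟨E, hE, hER⟩ := h.ear hq
  obtain ⟨E₃, hF, hFR, -⟩ := h.bud.ear l hl
  have hreg := fun x hx => (h.reg (x := x) hx).2
  have huR := Rg_self (G := G) (Of K (z :: (Z ++ v :: T))) u
  have hP := h.path
  have hst := h.star p (T₃.reverse ++ q :: (E.reverse ++ u :: z :: (Z ++ v :: E₃))) hd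
  have hlast : T.getLastD v = l := by
    have e2 : T = (q :: (T₃ ++ [p])) ++ [l] := by rw [e]; simp
    rw [e2, List.getLastD_concat]
  rw [hlast] at hst
  have d1 : ∀ a, 0 < Th1_c a E → Th1_c a (z :: (Z ++ v :: T)) = 0 := fun a ha => by
    have := hreg a (hER a (Th1_mem.2 ha))
    rw [Th1_mem] at this; omega
  have d2 : ∀ a, 0 < Th1_c a E₃ → Th1_c a (z :: (Z ++ v :: T)) = 0 := fun a ha => by
    have := (hFR a (Th1_mem.2 ha)).1
    rw [Th1_mem] at this; omega
  have d3 : ∀ a, 0 < Th1_c a E₃ → Th1_c a (u :: E) = 0 := fun a ha => by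
    have h1 := (hFR a (Th1_mem.2 ha)).2
    have : a ∉ u :: E := fun hm => by
      rcases List.mem_cons.1 hm with rfl | hm
      · exact h1 huR
      · exact h1 (hER a hm)
    rw [Th1_mem] at this; omega
  have n1 := Th1_nodup.1 hP.1.1
  have n2 := Th1_nodup.1 hE.1.1
  have n3 := Th1_nodup.1 hF.1.1
  have k1 := hP.2
  have k2 := hE.2
  have k3 := hF.2
  subst e
  have c0 : (u :: ((z :: Z) ++ [v])).IsChain G.Adj :=
    (hP.1.sub ⟨[], q :: (T₃ ++ [p, l]), by simp⟩).2
  have c1 : (q :: (T₃ ++ [p])).IsChain G.Adj :=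
    (hP.1.sub ⟨u :: z :: (Z ++ [v]), [l], by simp⟩).2
  have c2 : G.Adj v q := (hP.1.sub ⟨u :: z :: Z, T₃ ++ [p, l], by simp⟩ : P G [v, q]).adj
  have c3 : G.Adj p l := (hP.1.sub ⟨u :: z :: (Z ++ v :: q :: T₃), [], by simp⟩ : P G [p, l]).adj
  have hcy : CyK G K p := by
    refine ⟨l :: ((E₃.reverse ++ v :: q :: T₃) ++ [p]), ⟨⟨?_, ?_⟩, l, _, p, rfl, c3.symm⟩,
      by simp; omega, by simp, ?_⟩
    · refine Th1_nodup.2 fun a => ?_
      have a1 := n1 a
      have a2 := n3 a
      have a3 := d2 a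
      simp only [Th1_app, Th1_cons, Th1_rev, Th1_nil] at a1 a2 a3 ⊢
      omega
    · have := F11_gl (F11_rev hF.1.2) (List.isChain_cons_cons.2 ⟨c2, c1⟩)
      simpa using this
    · intro x hx
      by_contra hK
      have a1 : ¬ _ := fun hm => hK (k1 x hm)
      have a3 : ¬ _ := fun hm => hK (k3 x hm)
      rw [Th1_mem] at hx a1 a3
      simp only [Th1_app, Th1_cons, Th1_rev, Th1_nil] at hx a1 a3
      omega
  have := hst hcy ⟨⟨?_, ?_⟩, ?_⟩
  · simp only [List.length_append, List.length_cons, List.length_reverse, List.length_nil] at this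
    omega
  · refine Th1_nodup.2 fun a => ?_
    have a1 := n1 a
    have a2 := n2 a
    have a3 := n3 a
    have a4 := d1 a
    have a5 := d2 a
    have a6 := d3 a
    simp only [Th1_app, Th1_cons, Th1_rev, Th1_nil] at a1 a2 a3 a4 a5 a6 ⊢
    omega
  · have := F11_gl (F11_rev c1) (F11_gl (F11_rev hE.1.2) (F11_gl c0 hF.1.2))
    simpa using this
  · intro x hx
    by_contra hK
    have a1 : ¬ _ := fun hm => hK (k1 x hm)
    have a2 : ¬ _ := fun hm => hK (k2 x hm)
    have a3 : ¬ _ := fun hm => hK (k3 x hm)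
    rw [Th1_mem] at hx a1 a2 a3
    simp only [Th1_app, Th1_cons, Th1_rev, Th1_nil] at hx a1 a2 a3
    omega

/-- S17. -/
theorem St.foL (h : St G K u z Z v T) {T₁ : List V} {l : V} (e : T = T₁ ++ [l])
    (hl : Fo G K u (z :: (Z ++ v :: T)) T l) : T.length ≤ 2 := by
  by_contra hlen
  have hn : T.Nodup := (h.path.1.sub ⟨u :: z :: (Z ++ [v]), [], by simp⟩).1
  have hu : ∀ {A B : List V} {x : V}, T = A ++ x :: B →
      Fo G K u (z :: (Z ++ v :: T)) T x → B = [] := fun e' hx =>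
    F11_last hn e e' (h.bud.uniq _ _ hx hl)
  obtain ⟨q, hq⟩ := h.att_ex
  obtain ⟨A, B, eq⟩ := List.append_of_mem (h.att_T hq)
  have hA : A = [] := by
    rcases List.eq_nil_or_concat A with hA | ⟨A', p', hA⟩
    · exact hA
    · exfalso
      rw [List.concat_eq_append] at hA
      have e2 : T = A' ++ p' :: q :: B := by rw [eq, hA]; simp
      rcases h.rule e2 hq with h1 | ⟨h1, -, h2⟩
      · simpa using hu e2 h1
      · have hB := hu eq h2
        rw [e2, h1, hB] at hlen
        simp at hlen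
  have eq' : T = q :: B := by rw [eq, hA]; rfl
  obtain ⟨T₃, p, e3⟩ : ∃ T₃ p, T = q :: (T₃ ++ [p, l]) := by
    rcases List.eq_nil_or_concat T₁ with h1 | ⟨T₂, p, h1⟩
    · rw [e, h1] at hlen; simp at hlen
    · rw [List.concat_eq_append] at h1
      cases T₂ with
      | nil => rw [e, h1] at hlen; simp at hlen
      | cons a T₃ =>
        have e4 : T = a :: (T₃ ++ [p, l]) := by rw [e, h1]; simp
        have : q = a := by
          have := eq'.symm.trans e4
          exact (List.cons_eq_cons.1 this).1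
        exact ⟨T₃, p, this ▸ e4⟩
  have hp := F11_nd h e3 hq hl
  have e5 : T = (q :: T₃) ++ p :: l :: [] := by rw [e3]; simp
  rcases h.inner e5 hp with h1 | h1 | ⟨h1, -⟩
  · obtain ⟨T', p₀, h2⟩ : ∃ T' p₀, q :: T₃ = T' ++ [p₀] := by
      rcases List.eq_nil_or_concat (q :: T₃) with h2 | ⟨T', p₀, h2⟩
      · simp at h2
      · exact ⟨T', p₀, by rw [h2, List.concat_eq_append]⟩
    have e6 : T = T' ++ p₀ :: p :: [l] := by rw [e5, h2]; simp
    rcases h.rule e6 h1 with h3 | ⟨-, -, h3⟩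
    · simpa using hu e6 h3
    · simpa using hu e5 h3
  · simpa using hu e5 h1
  · simp at h1

/-- S18. -/
theorem St.mid (h : St G K u z Z v T) {T₃ : List V} {q p l : V} (e : T = q :: (T₃ ++ [p, l]))
    (hp : Fo G K u (z :: (Z ++ v :: T)) T p) (hl : Att G K u z (Z ++ v :: T) l) :
    T₃ = [] ∧ G.Adj v p := by
  have hb := h.bud
  obtain ⟨E₃, ⟨p3, k3⟩, o3, -⟩ := hb.ear p hp
  have hu := hb.uniq
  obtain ⟨E, ⟨p4, k4⟩, r4⟩ := h.ear hl
  have hreg := fun x hx => (h.reg (x := x) hx).2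
  have hin := fun {T₂ : List V} {a : V} (e' : T = [] ++ q :: a :: T₂) => h.inner e'
  have he2 := fun hq => h.ear2 (q := q) hq hl
  obtain ⟨⟨p0, k0⟩, hthr, hcy, -, -, -, -, hstar⟩ := h
  have u0 : u ∈ Rg G (Of K (z :: (Z ++ v :: T))) u := Reachable.refl _
  have hlast : T.getLastD v = l := by
    rw [e, show q :: (T₃ ++ [p, l]) = (q :: (T₃ ++ [p])) ++ [l] by simp, List.getLastD_concat]
  have hlen : T.length = T₃.length + 3 := by rw [e]; simp
  rw [hlast, hlen] at hstar
  generalize Rg G (Of K (z :: (Z ++ v :: T))) u = R at o3 r4 hreg u0 he2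
  have o4 : ∀ c ∈ E₃, c ∉ R := fun c hc => (o3 c hc).2
  have o5 : ∀ c, c ∈ E₃ ∨ c ∈ R →
      c ≠ z ∧ c ∉ Z ∧ c ≠ v ∧ c ≠ q ∧ c ∉ T₃ ∧ c ≠ p ∧ c ≠ l := fun c hc => by
    have : c ∉ z :: (Z ++ v :: T) := hc.elim (fun hc => (o3 c hc).1) (hreg c)
    simpa [e, not_or] using this
  rw [e] at p0 k0
  have k1 : ∀ c, c = u ∨ c = z ∨ c ∈ Z ∨ c = v ∨ c = q ∨ c ∈ T₃ ∨ c = p ∨ c = l →
      c ∈ (K : Set V) := fun c hc => k0 c (by simpa using hc)
  have k5 : ∀ c ∈ E₃, c ∈ (K : Set V) := fun c hc => k3 c (by simp [hc])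
  have N := p0.1
  simp only [List.nodup_cons, List.nodup_append, List.mem_append, List.mem_cons,
    List.not_mem_nil, or_false, not_or, List.nodup_nil, not_false_eq_true, and_true,
    forall_eq_or_imp, forall_eq] at N
  have a1 : P G ((q :: T₃) ++ [p]) := p0.sub ⟨u :: z :: (Z ++ [v]), [l], by simp⟩
  have a2 : P G ((p :: E₃.reverse) ++ [v]) := by simpa using p3.reverse
  have a3 : P G ((u :: z :: Z) ++ [v]) := p0.sub ⟨[], q :: (T₃ ++ [p, l]), by simp⟩
  have avq : G.Adj v q := P.mid (A := u :: z :: Z) (B := T₃ ++ [p, l]) (by simpa using p0)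
  have hq : ¬ Dir G K q := fun hd => by
    have b0 : P G ((q :: T₃) ++ p :: (E₃.reverse ++ [v])) := a1.glue a2 fun c h1 h2 => by
      simp only [List.mem_append, List.mem_cons, List.mem_reverse, List.not_mem_nil,
        or_false] at h1 h2
      grind
    have b3 : P G ((v :: (Z.reverse ++ [z])) ++ u :: (E ++ [l])) :=
      P.glue (by simpa using a3.reverse) p4 fun c h1 h2 => by
        simp only [List.mem_append, List.mem_cons, List.mem_reverse, List.not_mem_nil,
          or_false] at h1 h2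
        grind
    have b2 : P G ((p :: E₃.reverse) ++ v :: ((Z.reverse ++ [z]) ++ u :: (E ++ [l]))) :=
      a2.glue b3 fun c h1 h2 => by
        simp only [List.mem_append, List.mem_cons, List.mem_reverse, List.not_mem_nil,
          or_false] at h1 h2
        grind
    have b1 : P G ((q :: T₃) ++ p :: (E₃.reverse ++ v :: ((Z.reverse ++ [z]) ++ u :: (E ++ [l])))) :=
      a1.glue b2 fun c h1 h2 => by
        simp only [List.mem_append, List.mem_cons, List.mem_reverse, List.not_mem_nil,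
          or_false] at h1 h2
        grind
    have := hstar q (T₃ ++ p :: (E₃.reverse ++ v :: ((Z.reverse ++ [z]) ++ u :: E))) hd
      ⟨_, ⟨b0, q, T₃ ++ p :: E₃.reverse, v, by simp, avq.symm⟩, by simp; omega, by simp,
        fun c hc => by
          simp only [List.mem_append, List.mem_cons, List.mem_reverse, List.not_mem_nil,
            or_false] at hc
          grind⟩
      ⟨by simpa using b1, fun c hc => by
        have k6 : ∀ c ∈ E, c ∈ (K : Set V) := fun c hc => k4 c (by simp [hc])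
        simp only [List.mem_append, List.mem_cons, List.mem_reverse, List.not_mem_nil,
          or_false] at hc
        grind⟩
    simp at this
    omega
  have hA : ¬ Att G K u z (Z ++ v :: T) q := fun ha => by
    obtain ⟨E', hne, ⟨p5, k6⟩, r5⟩ := he2 ha (by grind)
    have b3 : P G ((p :: T₃.reverse) ++ q :: (E' ++ [l])) :=
      P.glue (by simpa using a1.reverse) p5 fun c h1 h2 => by
        simp only [List.mem_append, List.mem_cons, List.mem_reverse, List.not_mem_nil,
          or_false] at h1 h2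
        grind
    have b2 : P G ((v :: E₃) ++ p :: (T₃.reverse ++ q :: (E' ++ [l]))) :=
      P.glue p3 b3 fun c h1 h2 => by
        simp only [List.mem_append, List.mem_cons, List.mem_reverse, List.not_mem_nil,
          or_false] at h1 h2
        grind
    have b1 : P G ((z :: Z) ++ v :: (E₃ ++ p :: (T₃.reverse ++ q :: (E' ++ [l])))) :=
      P.glue a3.tail b2 fun c h1 h2 => by
        simp only [List.mem_append, List.mem_cons, List.mem_reverse, List.not_mem_nil,
          or_false] at h1 h2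
        grind
    have := hstar z (Z ++ v :: (E₃ ++ p :: (T₃.reverse ++ q :: E'))) (hthr z (by simp)) hcy
      ⟨by simpa using b1, fun c hc => by
        have k7 : ∀ c ∈ E', c ∈ (K : Set V) := fun c hc => k6 c (by simp [hc])
        simp only [List.mem_append, List.mem_cons, List.mem_reverse, List.not_mem_nil,
          or_false] at hc
        grind⟩
    have := List.length_pos_iff.2 hne
    simp at *
    omega
  have hF : ¬ Fo G K u (z :: (Z ++ v :: T)) T q := fun hf => by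
    have := hu q p hf hp
    grind
  cases T₃ with
  | nil =>
    rcases hin (a := p) (T₂ := [l]) (by simpa using e) hq with h1 | h1 | h1
    · exact absurd h1 hA
    · exact absurd h1 hF
    · exact ⟨rfl, h1.2.1⟩
  | cons a T₄ =>
    rcases hin (a := a) (T₂ := T₄ ++ [p, l]) (by simpa using e) hq with h1 | h1 | h1
    · exact absurd h1 hA
    · exact absurd h1 hF
    · have := hu a p h1.2.2 hp
      grind

omit [Finite V] in
theorem F13_pk {S : Set V} {N l : List V} (hN : N.Nodup) (hK : ∀ x ∈ N, x ∈ S)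
    (hs : ∀ a, Th1_c a l ≤ Th1_c a N) (hc : l.IsChain G.Adj) : PK G S l :=
  ⟨⟨Th1_nodup.2 fun a => (hs a).trans (Th1_nodup.1 hN a), hc⟩,
    fun x hx => hK x (Th1_mem.2 (lt_of_lt_of_le (Th1_mem.1 hx) (hs x)))⟩

omit [Finite V] in
theorem F13_succ {A B : List V} {x a b : V} (hN : (A ++ x :: a :: B).Nodup)
    (h : [x, b] <:+: A ++ x :: a :: B) : b = a := by
  obtain ⟨s, t, e⟩ := h
  have e' : s ++ x :: b :: t = A ++ x :: a :: B := by simpa using e
  have h1 : x ∉ A := fun hx => List.disjoint_of_nodup_append hN hx (by simp)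
  have h2 : x ∉ a :: B := (List.nodup_cons.1 hN.of_append_right).1
  have h3 := (List.append_cons_inj_of_notMem h1 h2).1 e'.symm
  exact (List.cons_eq_cons.1 h3.2.2).1.symm

/-- The ear together with the path. -/
theorem F13_ear (h : St G K u z Z v T) {q : V} (hq : Att G K u z (Z ++ v :: T) q) :
    ∃ E, (u :: (E ++ [q])).IsChain G.Adj ∧ (E ++ u :: z :: (Z ++ v :: T)).Nodup ∧
      (∀ x ∈ E ++ u :: z :: (Z ++ v :: T), x ∈ (K : Set V)) ∧
      ∀ x ∈ E, x ∈ Rg G (Of K (z :: (Z ++ v :: T))) u := by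
  obtain ⟨E, hE, hR⟩ := h.ear hq
  refine ⟨E, hE.1.2, List.Nodup.append hE.1.tail.left.1 h.path.1.1 fun x hx hx' => ?_,
    fun x hx => ?_, hR⟩
  · rcases List.mem_cons.1 hx' with rfl | hx'
    · exact hE.1.notMem (List.mem_append_left _ hx)
    · exact (h.reg (hR x hx)).2 hx'
  · rcases List.mem_append.1 hx with hx | hx
    · exact (h.reg (hR x hx)).1
    · exact h.path.2 x hx

/-- S19. -/
theorem St.short (h : St G K u z Z v T) : T.length ≤ 3 := by
  by_contra hl
  obtain ⟨q, T', rfl⟩ := List.exists_cons_of_ne_nil (l := T) (by rintro rfl; simp at hl)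
  rcases List.eq_nil_or_concat' T' with rfl | ⟨T', l, rfl⟩
  · simp at hl
  rcases List.eq_nil_or_concat' T' with rfl | ⟨T₃, p, rfl⟩
  · simp at hl
  rcases h.last (T₁ := q :: (T₃ ++ [p])) (l := l) (by simp) with h1 | h1
  · rcases h.rule (T₁ := q :: T₃) (p := p) (q := l) (T₂ := []) (by simp) h1 with h2 | h2
    · have := (h.mid (T₃ := T₃) (q := q) (p := p) (l := l) (by simp) h2 h1).1
      subst this
      simp at hl
    · exact absurd h2.1 (by simp)
  · have := h.foL (T₁ := q :: (T₃ ++ [p])) (l := l) (by simp) h1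
    omega

/-- S19. -/
theorem St.near (h : St G K u z Z v T) (hn : ∀ b ∈ T, G.Adj v b → [v, b] <:+: z :: (Z ++ v :: T)) :
    ∃ T₁ q T₂, T = T₁ ++ q :: T₂ ∧ T₁.length ≤ 1 ∧ Att G K u z (Z ++ v :: T) q := by
  obtain ⟨q, hq⟩ := h.att_ex
  obtain ⟨T₁, T₂, e⟩ := List.append_of_mem (h.att_T hq)
  refine ⟨T₁, q, T₂, e, ?_, hq⟩
  by_contra hl
  have h3 := h.short
  have h4 := congrArg List.length e
  simp only [List.length_append, List.length_cons] at h4
  obtain ⟨a, p, rfl⟩ := List.length_eq_two.1 (show T₁.length = 2 by omega)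
  obtain rfl : T₂ = [] := List.length_eq_zero_iff.1 (by simp at h4; omega)
  rcases h.rule (T₁ := [a]) (p := p) (q := q) (T₂ := []) (by simpa using e) hq with h2 | h2
  · have h5 := (h.mid (T₃ := []) (q := a) (p := p) (l := q) (by simpa using e) h2 hq).2
    have h6 := hn p (by simp [e]) h5
    have h7 := h.path.1.tail.1
    rw [e] at h6 h7
    have h8 : p = a := F13_succ (A := z :: Z) (x := v) (a := a) (B := [p, q]) h7 h6
    have h9 := (List.Nodup.of_append_right (l₁ := z :: Z) h7).of_cons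
    simp [h8] at h9
  · exact absurd h2.1 (by simp)

/-- S19. -/
theorem St.fs (h : St G K u z Z v T) {W : List V} (hW : PK G K (u :: W)) (hv : v ∉ W)
    (hZ : ∀ c ∈ z :: Z, c ∉ W) : ∀ c ∈ u :: W, Dir G K c → CyK G K c → c ∈ T := by
  intro c hc h1 h2
  rcases List.mem_cons.1 hc with rfl | hc
  · exact absurd h1.lt (not_lt.2 h.du)
  rcases h.bud.all W hW c hc with h3 | h3 | ⟨⟨E₀, h3, h4⟩, hn⟩
  · exact (h.noD h3 h1 h2).elim
  · rcases List.mem_append.1 (show c ∈ (z :: Z) ++ v :: T from h3) with h3 | h3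
    · exact absurd hc (hZ c h3)
    · exact (List.mem_cons.1 h3).resolve_left fun e => hv (e ▸ hc)
  exfalso
  obtain ⟨T₁, q, T₂, e, hl, hq⟩ := h.near hn
  obtain ⟨E, c1, hN, hK, hR⟩ := F13_ear h hq
  have hN' : ((c :: E₀) ++ (E ++ u :: z :: (Z ++ v :: T))).Nodup := by
    refine List.Nodup.append (P.left (A := c :: E₀) h3.1).1 hN fun x hx hx' => ?_
    rcases List.mem_append.1 hx' with hx' | hx'
    · exact (h4 x hx).2 (hR x hx')
    rcases List.mem_cons.1 hx' with rfl | hx'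
    · exact (h4 x hx).2 (Rg_self _ _)
    · exact (h4 x hx).1 hx'
  have c2 : (u :: z :: (Z ++ [v])).IsChain G.Adj :=
    (P.left (A := u :: z :: (Z ++ [v])) (B := T) (by simpa using h.path.1)).2
  have c3 : (q :: T₂).IsChain G.Adj :=
    (P.right (A := u :: z :: (Z ++ v :: T₁)) (by simpa [e] using h.path.1)).2
  have c4 : (v :: (Z.reverse ++ [z]) ++ [u]).IsChain G.Adj := by
    simpa using List.isChain_reverse.2 (c2.imp fun _ _ hab => hab.symm)
  have hP : PK G K ((c :: E₀) ++ v :: ((Z.reverse ++ [z]) ++ u :: (E ++ q :: T₂))) := by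
    refine F13_pk hN' (fun x hx => ?_) (fun a => ?_) ?_
    · rcases List.mem_append.1 hx with hx | hx
      · exact h3.2 x (List.mem_append_left [v] hx)
      · exact hK x hx
    · simp only [e, Th1_app, Th1_cons, Th1_rev, Th1_nil]
      omega
    · exact List.isChain_split.2 ⟨h3.1.2, List.isChain_split (l₁ := v :: (Z.reverse ++ [z])).2
        ⟨c4, List.isChain_split (l₁ := u :: E).2 ⟨c1, c3⟩⟩⟩
  obtain ⟨T', l, e'⟩ := (List.eq_nil_or_concat' (q :: T₂)).resolve_left (by simp)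
  have hg : T.getLastD v = l := by
    rw [e, e', ← List.append_assoc]
    simp
  have h5 := h.star c (E₀ ++ v :: ((Z.reverse ++ [z]) ++ u :: (E ++ T'))) h1 h2
    (by rw [hg]; simpa [e'] using hP)
  have h6 := congrArg List.length e'
  simp only [e, List.length_append, List.length_cons, List.length_reverse,
    List.length_nil] at h5 h6
  omega

/-- S12'. The thread lies on a cycle: cut it between `c` and `c'`. -/
theorem St.cut (h : St G K u z Z v T) {Z₁ Z₂ : List V} {c c' : V}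
    (e : z :: Z = Z₁ ++ c :: c' :: Z₂) :
    ∃ M, PK G K (c' :: (M ++ [c])) ∧ Z.length + 2 ≤ M.length := by
  obtain ⟨q, hq⟩ := h.att_ex
  obtain ⟨T₁, T₂, e'⟩ := List.append_of_mem (h.att_T hq)
  obtain ⟨E, c1, hN, hK, -⟩ := F13_ear h hq
  have e2 : z :: (Z ++ v :: T) = Z₁ ++ c :: c' :: (Z₂ ++ v :: (T₁ ++ q :: T₂)) := by
    rw [← List.cons_append, e, e']
    simp
  have hp := h.path.1
  rw [e2] at hN hK hp
  have c2 : (u :: (Z₁ ++ [c])).IsChain G.Adj :=
    (P.left (A := u :: (Z₁ ++ [c])) (by simpa using hp)).2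
  have c3 : (c' :: (Z₂ ++ v :: T₁) ++ [q]).IsChain G.Adj :=
    (P.left (A := c' :: (Z₂ ++ v :: T₁) ++ [q]) (B := T₂)
      (P.right (A := u :: (Z₁ ++ [c])) (by simpa using hp))).2
  have c4 : (q :: E.reverse ++ [u]).IsChain G.Adj := by
    simpa using List.isChain_reverse.2 (c1.imp fun _ _ hab => hab.symm)
  have hP : PK G K (c' :: (Z₂ ++ v :: T₁) ++ q :: (E.reverse ++ u :: (Z₁ ++ [c]))) := by
    refine F13_pk hN hK (fun a => ?_) ?_
    · simp only [Th1_app, Th1_cons, Th1_rev, Th1_nil]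
      omega
    · exact List.isChain_split.2 ⟨c3, List.isChain_split (l₁ := q :: E.reverse).2 ⟨c4, c2⟩⟩
  refine ⟨(Z₂ ++ v :: T₁) ++ q :: (E.reverse ++ u :: Z₁), by simpa using hP, ?_⟩
  have h6 := congrArg List.length e
  simp only [List.length_append, List.length_cons] at h6 ⊢
  omega

end PS
end

section
/-! A core with excess at most four carries a high tree. -/

open SimpleGraph

namespace PS
variable {V : Type} {G : SimpleGraph V} [Finite V] {k : ℕ} {K : Finset V} {H : ℕ}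

/-- S20. A long path which stays in a thread. -/
theorem L_in (hE : EF G K) (hD : D2 k G) (hH : ∀ v ∈ K, gK G K v ≤ H) {u z z' : V} {M : List V}
    (h : PK G K (u :: z :: (M ++ [z']))) (hd : ∀ c ∈ z :: M, dg G K c < 3)
    (hk : k ≤ gK G K z + M.length + gK G K z' + 1) : k ≤ 2 * H + 1 := by
  obtain ⟨Z₁, c, c', Z₂, e, h1, h2, -⟩ := L_thread hE hD h hd
  have hl := congrArg List.length e
  simp only [List.length_cons, List.length_append, List.length_nil] at hl
  have m1 := hH c (h.2 c (List.mem_cons_of_mem _ (by rw [e]; simp)))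
  have m2 := hH c' (h.2 c' (List.mem_cons_of_mem _ (by rw [e]; simp)))
  omega

theorem F14_tt (hK : CK k G K 4) {z : V} (hz : Dir G K z) :
    ∃ u y, Dr G K z u y ∧ TT k G K z u y := by
  obtain ⟨x, y, a1, a2, a3, a4, a5, a6, a7, a8⟩ := hz
  rcases TL hK.ef hK.d2 a1 a2 a3 a4 a5 a6 a7 a8 with h | h
  · exact ⟨x, y, ⟨a1, a2, a3, a4, a5, a6, a7, a8⟩, h⟩
  · exact ⟨y, x, ⟨a1, a3, a2, a5, a4, a6.symm, fun a => a7 a.symm,
      fun u hu a => (a8 u hu a).symm⟩, h⟩

/-- S20. No directed vertex lies on a cycle. -/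
theorem core_cut (hK : CK k G K 4) (hH : ∀ v ∈ K, gK G K v ≤ H) {z : V} (hz : Dir G K z)
    (hn : ∀ c, Dir G K c → ¬ CyK G K c) : k ≤ 2 * H + 20 := by
  obtain ⟨u, y, ⟨a1, -, a3, -⟩, B, hP, hB, -, hk⟩ := F14_tt hK hz
  obtain ⟨T, e, hl⟩ := B3_last y B
  have hp : PK G K (z :: ([] ++ (T ++ [B.getLastD y]))) := by
    rw [List.nil_append, ← e]
    refine ⟨hP, fun v hv => ?_⟩
    simp only [List.mem_cons] at hv
    rcases hv with rfl | rfl | hv
    · exact a1
    · exact a3
    · exact hB v hv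
  have hz' := hH z a1
  rcases L_FB hK hH hp (by simp only [List.length_nil]; omega) ∅ (by simp)
    (fun c _ h1 h2 => absurd h2 (hn c h1)) with h | h <;> omega

omit [Finite V] in
theorem F14_last (Z : List V) (v y : V) (T : List V) :
    (Z ++ v :: T).getLastD y = T.getLastD v := by
  induction Z generalizing y with
  | nil => rw [List.nil_append, List.getLastD_cons]
  | cons a Z ih => rw [List.cons_append, List.getLastD_cons, ih]

theorem F14_thr {v : V} {T : List V} (Z : List V) : ∀ a b : V, PK G K (a :: b :: (Z ++ v :: T)) →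
    dg G K b < 3 → (∀ c ∈ Z, dg G K c < 3) → ∀ c ∈ Z, Dir G K c := by
  induction Z with
  | nil => intro a b _ _ _ c hc; cases hc
  | cons c Z ih =>
    intro a b h hb hZ x hx
    have hc := hZ c List.mem_cons_self
    rcases List.mem_cons.1 hx with rfl | hx
    · obtain ⟨d, R, e⟩ := List.exists_cons_of_ne_nil (l := Z ++ v :: T) (by simp)
      rw [List.cons_append, e] at h
      exact ⟨b, d, L_next (a := a) ⟨P.left (A := [a, b, x, d]) (B := R) h.1,
        fun w hw => h.2 w (List.mem_append_left (as := [a, b, x, d]) R hw)⟩ hb hc⟩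
    · exact ih b c ⟨h.1.tail, fun w hw => h.2 w (List.mem_cons_of_mem _ hw)⟩ hc
        (fun w hw => hZ w (List.mem_cons_of_mem _ hw)) x hx

omit [Finite V] in
theorem F14_cy {z u y : V} (h : Dr G K z u y) (hc : CyK G K z) : CyK G K u := by
  obtain ⟨C, h1, h2, h3, h4⟩ := hc
  refine ⟨C, h1, h2, ?_, h4⟩
  obtain ⟨l, c1, c2⟩ := Cyc_first h1 h3
  obtain ⟨z', B, b, e, hb⟩ := c1.2
  obtain ⟨rfl, rfl⟩ := List.cons_eq_cons.1 e
  have hl := c2.length_eq
  obtain ⟨a, M, rfl⟩ := List.exists_cons_of_ne_nil (l := B) (by rintro rfl; simp at hl; omega)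
  have ma : a ∈ C := c2.mem_iff.1 (by simp)
  have mb : b ∈ C := c2.mem_iff.1 (by simp)
  have ne : a ≠ b := fun e => c1.1.tail.notMem (by simp [e])
  obtain ⟨-, -, -, -, -, -, -, ho⟩ := h
  rcases ho a (h4 a ma) c1.1.adj with e1 | e1
  · exact e1 ▸ ma
  · rcases ho b (h4 b mb) hb with e2 | e2
    · exact e2 ▸ mb
    · exact absurd (e1.trans e2.symm) ne

theorem F14_du (hd : ∀ v ∈ K, 2 ≤ dg G K v) {z u y : V} (h : Dr G K z u y) (hu : ¬ Dir G K u) :
    3 ≤ dg G K u := by
  obtain ⟨a1, a2, -, a4, -, -, a7, a8⟩ := h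
  by_contra q
  have h2 : dg G K u = 2 := le_antisymm (by omega) (hd u a2)
  have key : ∀ w, w ∈ (K : Set V) → z ≠ w → G.Adj u w →
      (∀ t ∈ (K : Set V), G.Adj u t → t = z ∨ t = w) → False := fun w hw hne ha ho => by
    by_cases c : G.Adj z w
    · rcases a8 w hw c with e | e
      · exact ha.ne e.symm
      · exact a7 (e ▸ ha)
    · exact hu ⟨z, w, a2, a1, hw, a4.symm, ha, hne, c, ho⟩
  obtain ⟨x, w, hx, hw, hne, b1, b2, ho⟩ := dg_two h2
  rcases ho z a1 a4.symm with e | e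
  · subst e
    exact key w hw hne b2 ho
  · subst e
    exact key x hx hne.symm b1 fun t ht a => (ho t ht a).symm

/-- S21. The lightest directed vertex on a cycle. -/
theorem core_st (hK : CK k G K 4) (hH : ∀ v ∈ K, gK G K v ≤ H) {c : V} (h1 : Dir G K c)
    (h2 : CyK G K c) : k ≤ 2 * H + 1 ∨ ∃ u z Z v T, St G K u z Z v T ∧
      k ≤ gK G K z + Z.length + T.length + gK G K (T.getLastD v) + 1 := by
  obtain ⟨z, ⟨hz, hc⟩, hm⟩ := Set.exists_min_image {x | Dir G K x ∧ CyK G K x} (gK G K)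
    (Set.toFinite _) ⟨c, h1, h2⟩
  obtain ⟨u, y, hr, ht⟩ := F14_tt hK hz
  have hr' := hr
  obtain ⟨a1, a2, a3, a4, -, a6, -, -⟩ := hr'
  have hlt := ht.lt hK.ef hK.d2.1 a1 a2 a3 a4 a6
  have du := F14_du hK.dg2 hr fun hu => absurd hlt (not_lt.2 (hm u ⟨hu, F14_cy hr hc⟩))
  obtain ⟨B, hP, hB, huB, hk⟩ := ht
  have hp : PK G K (u :: z :: y :: B) := by
    refine ⟨hP.cons a4.symm fun hm => ?_, fun v hv => ?_⟩
    · simp only [List.mem_cons] at hm
      rcases hm with hm | hm | hm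
      · exact a4.ne' hm
      · exact a6 hm
      · exact huB hm
    · simp only [List.mem_cons] at hv
      rcases hv with rfl | rfl | rfl | hv
      · exact a2
      · exact a1
      · exact a3
      · exact hB v hv
  by_cases hb : ∃ t ∈ y :: B, 3 ≤ dg G K t
  · obtain ⟨Z, v, T, e, hv, hZ⟩ := Ctr_first hb
    have hl := congrArg List.length e
    simp only [List.length_cons, List.length_append] at hl
    have el : B.getLastD y = T.getLastD v := by
      rw [← F14_last Z v y T, ← e, List.getLastD_cons]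
    rw [e] at hp
    rw [el] at hk
    refine Or.inr ⟨u, z, Z, v, T, ⟨hp, fun x hx => ?_, hc, du, hv, hK.dg2, by simpa using hK.hex,
      fun x M b1 b2 b3 => ?_⟩, by omega⟩
    · rcases List.mem_cons.1 hx with rfl | hx
      · exact hz
      · exact F14_thr Z u z hp hz.lt (fun s hs => not_le.1 (hZ s hs)) x hx
    · have := W1 hK.ef hK.d2.1 b3.1 b3.2
      have := hm x ⟨b1, b2⟩
      omega
  · obtain ⟨M, e, hl⟩ := B3_last y B
    rw [e] at hp
    refine Or.inl (L_in hK.ef hK.d2 hH hp (fun x hx => ?_) (by omega))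
    rcases List.mem_cons.1 hx with rfl | hx
    · exact hz.lt
    · exact not_le.1 fun q => hb ⟨x, by rw [e]; exact List.mem_append_left _ hx, q⟩

/-- S22. The long path from the other end of the thread. -/
theorem core_back (hK : CK k G K 4) (hH : ∀ v ∈ K, gK G K v ≤ H) {u z z' v : V} {M T : List V}
    (h : St G K u z (M ++ [z']) v T) (ht : TT k G K z' v (M.getLastD z)) :
    k ≤ 2 * H + 18 ∨ k ≤ gK G K z' + M.length + H + 19 := by
  classical
  obtain ⟨M0, e0, l0⟩ := B3_last z M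
  generalize M.getLastD z = y at ht e0
  obtain ⟨B, hP, hB, hvB, hk⟩ := ht
  have ef : u :: z :: ((M ++ [z']) ++ v :: T) = (u :: (M0 ++ [y, z'])) ++ v :: T := by
    have e1 : z :: ((M ++ [z']) ++ v :: T) = (z :: M) ++ z' :: v :: T := by simp
    rw [e1, e0]
    simp
  have hp := h.path
  rw [ef] at hp
  have er : (u :: (M0 ++ [y, z'])).reverse = z' :: y :: (M0.reverse ++ [u]) := by simp
  have hr : P G (z' :: y :: (M0.reverse ++ [u])) := er ▸ hp.1.left.reverse
  have hm : ∀ c ∈ z' :: y :: (M0.reverse ++ [u]), c ∈ (K : Set V) := fun c hc => hp.2 c (by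
    rw [← er, List.mem_reverse] at hc
    exact List.mem_append_left _ hc)
  have hth : ∀ c, c ∈ z :: (M ++ [z']) ↔ c ∈ z' :: y :: M0.reverse := by
    intro c
    rw [← List.cons_append, e0]
    simp only [List.mem_append, List.mem_cons, List.mem_reverse, List.not_mem_nil]
    tauto
  have hl : B.getLastD y ∈ K := by
    rcases List.mem_cons.1 (List.getLastD_mem_cons (l := B) (a := y)) with e1 | e1
    · rw [e1]
      exact hm y (by simp)
    · exact hB _ e1
  have hw := Th1_walk (G := G) (K := (K : Set V)) (M0.reverse ++ [u]) z' y B (by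
    intro A x w t B' e s hs ha
    obtain ⟨B'', e1, -⟩ := B3_last t B'
    have hw : w ∈ z' :: y :: M0.reverse := by
      have e2 : (z' :: y :: M0.reverse) ++ [u] = (A ++ x :: w :: B'') ++ [B'.getLastD t] := by
        rw [List.cons_append, List.cons_append, e, e1]
        simp
      rw [(List.append_inj' e2 rfl).1]
      simp
    rw [e] at hr hm
    have h3 : P G (x :: w :: t :: B') := hr.right
    exact L_two (hm x (by simp)) (hm t (by simp)) h3.adj.symm h3.tail.adj
      (fun e3 => h3.notMem (by simp [e3])) (h.thr w ((hth w).2 hw)).lt s hs ha)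
    hP.tail (fun hh => hP.notMem (List.mem_cons_of_mem _ hh)) hB
  rcases hw with ⟨W, hw⟩ | ⟨W, hw⟩
  · have e1 := congrArg List.length hw
    have e2 := hH _ hl
    simp only [List.length_append, List.length_reverse, List.length_singleton] at e1
    omega
  · obtain ⟨T', e1, l1⟩ := B3_last u W
    generalize W.getLastD u = e at e1
    have eB : B = M0.reverse ++ u :: W := by rw [← hw]; simp
    have eB' : B = (M0.reverse ++ T') ++ [e] := by rw [eB, e1]; simp
    have eP : z' :: y :: B = (z' :: y :: M0.reverse) ++ u :: W := by rw [eB]; simp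
    have hall : ∀ c ∈ z' :: y :: B, c ∈ (K : Set V) := by
      intro c hc
      rcases List.mem_cons.1 hc with rfl | hc
      · exact hm _ (by simp)
      rcases List.mem_cons.1 hc with rfl | hc
      · exact hm _ (by simp)
      · exact hB c hc
    have hP' := hP
    rw [eP] at hP'
    have hfs := h.fs (W := W) ⟨hP'.right, fun c hc => hB c (by rw [eB]; simp [List.mem_cons.1 hc])⟩
      (fun hh => hvB (by rw [eB]; simp [hh]))
      (fun c hc hh => hP'.disj ((hth c).1 hc) (List.mem_cons_of_mem _ hh))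
    have eQ : z' :: y :: B = z' :: ((y :: M0.reverse) ++ (T' ++ [e])) := by rw [eB']; simp
    have eL : B.getLastD y = e := by rw [eB', List.getLastD_concat]
    have lB : B.length = M.length + T'.length + 1 := by
      rw [eB']
      simp only [List.length_append, List.length_reverse, List.length_singleton]
      omega
    rw [eL] at hk
    have hF := L_FB hK hH (p := z') (e := e) (M := y :: M0.reverse) (T := T') (eQ ▸ ⟨hP, hall⟩)
      (by
        simp only [List.length_cons, List.length_reverse]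
        omega) T.toFinset ((List.toFinset_card_le T).trans h.short)
      (fun c hc h1 h2 => List.mem_toFinset.2 (hfs c (by rw [e1]; simp [hc]) h1 h2))
    omega

/-- S23. -/
theorem core4 (hK : CK k G K 4) (hH : ∀ v ∈ K, gK G K v ≤ H) {z : V} (hz : Dir G K z) :
    k ≤ 2 * H + 20 := by
  by_cases hn : ∀ c, Dir G K c → ¬ CyK G K c
  · exact core_cut hK hH hz hn
  push Not at hn
  obtain ⟨c0, h1, h2⟩ := hn
  rcases core_st hK hH h1 h2 with h0 | ⟨u, z, Z, v, T, h, hk⟩
  · omega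
  have hT := h.short
  have hl : gK G K (T.getLastD v) ≤ H := hH _ (h.path.2 _ (List.mem_cons_of_mem _
    (List.mem_cons_of_mem _ (List.mem_append_right _ List.getLastD_mem_cons))))
  have hgz : gK G K z ≤ H := hH _ (h.path.2 _ (by simp))
  rcases List.eq_nil_or_concat Z with rfl | ⟨M, z', rfl⟩
  · simp only [List.length_nil] at hk
    omega
  rw [List.concat_eq_append] at h hk
  rw [List.length_append, List.length_singleton] at hk
  have ef : u :: z :: ((M ++ [z']) ++ v :: T) = (u :: z :: (M ++ [z'])) ++ v :: T := by simp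
  have hp : PK G K (u :: z :: (M ++ [z'])) :=
    ⟨(ef ▸ h.path.1).left, fun c hc => h.path.2 c (ef ▸ List.mem_append_left _ hc)⟩
  obtain ⟨Z₁, c, c', Z₂, e, g1, g2, g3⟩ := L_thread hK.ef hK.d2 hp fun c hc =>
    (h.thr c (by rw [← List.cons_append]; exact List.mem_append_left _ hc)).lt
  have le := congrArg List.length e
  simp only [List.length_cons, List.length_append, List.length_nil] at le
  have hc : gK G K c ≤ H := hH _ (hp.2 c (List.mem_cons_of_mem _ (by rw [e]; simp)))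
  obtain ⟨M0, e0, -⟩ := B3_last z M
  have eg : u :: z :: ((M ++ [z']) ++ v :: T) = (u :: M0) ++ M.getLastD z :: z' :: v :: T := by
    have e1 : z :: ((M ++ [z']) ++ v :: T) = (z :: M) ++ z' :: v :: T := by simp
    rw [e1, e0]
    simp
  have hq := h.path
  rw [eg] at hq
  have h3 : P G (M.getLastD z :: z' :: v :: T) := hq.1.right
  have hd : Dr G K z' v (M.getLastD z) := (h.thr z' (by simp)).dr (hq.2 v (by simp))
    (hq.2 _ (by simp)) h3.tail.adj h3.adj.symm fun e3 => h3.notMem (by rw [← e3]; simp)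
  obtain ⟨d1, d2, d3, d4, d5, d6, d7, d8⟩ := hd
  rcases TL hK.ef hK.d2 d1 d2 d3 d4 d5 d6 d7 d8 with ht | ht
  · obtain ⟨M', hM', lM⟩ := h.cut e
    have hW := W1 hK.ef hK.d2.1 hM'.1 hM'.2
    rw [List.length_append, List.length_singleton] at lM
    have hb := core_back hK hH h ht
    omega
  · have hlt := ht.lt hK.ef hK.d2.1 d1 d3 d2 d5 d6.symm
    have e2 : Z₂ = [] := by
      by_contra hne
      have := g3 hne
      omega
    rw [e2, List.length_nil] at le
    omega

end PS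
end

section
/-! The lower bound. -/

open SimpleGraph

namespace PS
variable {V : Type} {G : SimpleGraph V} [Finite V] {k : ℕ}

/-- At the exact height the top child has a twin. -/
theorem F16_twin (hD : D2 k G) {w x c : V} (nx : Ac G x) (hx : G.Adj w x) (xc : G.Adj x c)
    (cw : c ≠ w) (hk : 2 * lp G {w} x < k) :
    ∃ d, G.Adj x d ∧ d ≠ c ∧ d ≠ w ∧ lp G {x} c ≤ lp G {x} d := by
  obtain ⟨A, B, hA, hB, hd, hl⟩ := hD.2 x w c hx.symm xc cw.symm fun a =>
    nx.sep hx.symm xc cw.symm (Rg_adj hx.ne (Rg_self _ _) a xc.ne')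
  by_cases xB : x ∈ B
  · exact Lo2_half hD.1 nx xc hx.symm cw hB hA hd.symm (by omega) xB
  have xB' : x ∉ c :: B := fun q => (List.mem_cons.1 q).elim xc.ne xB
  by_cases xA : x ∈ A
  · obtain ⟨A₁, A₂, rfl⟩ := List.append_of_mem xA
    have h1 : P G (w :: (A₁ ++ [x])) := hA.pre ⟨A₂, by simp⟩
    obtain rfl : A₁ = [] :=
      List.reverse_eq_nil_iff.1 (nx w _ hx.symm (by simpa using h1.reverse))
    have h2 : P G (w :: x :: A₂) := hA
    have a := lp_ge (S := {w}) h2.tail fun v hv (e : v = w) => h2.notMem (e ▸ hv)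
    have b := lp_ge (S := {x}) hB fun v hv (e : v = x) => xB' (e ▸ hv)
    have d := (Lo2_child nx hx xc cw).1
    simp only [List.nil_append, List.length_cons] at hl
    omega
  have := hD.1.join hA (hB.cons xc xB') hx fun v hv hv' => by
    rcases List.mem_cons.1 hv' with rfl | hv'
    · exact (List.mem_cons.1 hv).elim hx.ne' xA
    · exact hd hv hv'
  simp only [List.length_cons] at this
  omega

theorem F16_ind (hD : D2 k G) (n : ℕ) : ∀ (m : ℕ) (w x : V), 2 * m + 2 < k → G.Adj w x →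
    (∀ t ∈ Rg G {w} x, Ac G t) → m ≤ lp G {w} x → lp G {w} x ≤ n →
    2 ^ m ≤ (Rg G {w} x).ncard + 1 := by
  induction n with
  | zero =>
    intro m w x _ _ _ h1 h2
    obtain rfl : m = 0 := by omega
    simp
  | succ n ih =>
    intro m w x hm hx hA h1 h2
    have hp : 0 < (Rg G {w} x).ncard := (Set.ncard_pos (Set.toFinite _)).2 ⟨x, Rg_self _ _⟩
    rcases m with _ | m
    · simp
    rcases Nat.eq_zero_or_pos m with rfl | h0
    · simp only [zero_add, pow_one]
      omega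
    have nx := hA x (Rg_self _ _)
    obtain ⟨A, a1, a2, a3⟩ := lp_ex G (S := {w}) (x := x) hx.ne'
    cases A with
    | nil => simp only [List.length_nil] at a3; omega
    | cons c A =>
      have xc : G.Adj x c := a1.adj
      have cw : c ≠ w := a2 c (by simp)
      have l2 := lp_ge (S := {x}) a1.tail fun v hv (e : v = x) => a1.notMem (e ▸ hv)
      simp only [List.length_cons] at a3
      obtain ⟨u1, s1⟩ := Lo2_child nx hx xc cw
      rcases eq_or_lt_of_le h1 with e | e
      · obtain ⟨d, xd, dc, dw, l3⟩ := F16_twin hD nx hx xc cw (by omega)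
        obtain ⟨u2, s2⟩ := Lo2_child nx hx xd dw
        have i1 := ih m x c (by omega) xc (fun t q => hA t (s1 q).1) (by omega) (by omega)
        have i2 := ih m x d (by omega) xd (fun t q => hA t (s2 q).1) (by omega) (by omega)
        have := Sz1_two (Lo2_sepR nx xc xd dc.symm) s1 s2 (Rg_self _ _)
        rw [pow_succ]
        omega
      · have i1 := ih (m + 1) x c hm xc (fun t q => hA t (s1 q).1) (by omega) (by omega)
        have := Set.ncard_le_ncard (s1.trans Set.sdiff_subset) (Set.toFinite _)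
        omega

/-- S24. Hanging trees are binary up to height `k / 2`. -/
theorem brB (hD : D2 k G) (m : ℕ) (hm : 2 * m + 2 < k) {w x : V} (hx : G.Adj w x)
    (hA : ∀ t ∈ Rg G {w} x, Ac G t) (h1 : m ≤ lp G {w} x) : 2 ^ m ≤ (Rg G {w} x).ncard + 1 :=
  F16_ind hD _ m w x hm hx hA h1 le_rfl

theorem F17_up {K : Set V} (hE : EF G K) (hs : ∀ l, PK G K l → l.length ≤ 11) {H : ℕ}
    (hH : ∀ u ∈ K, gK G K u ≤ H) {x : V} {A : List V} (hx : x ∈ K) (hP : P G (x :: A)) :
    A.length + 1 ≤ 10 + H := by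
  obtain ⟨A', h1, h2, h3⟩ := W0 hE hx hP
  have h4 : ∀ u ∈ x :: A', u ∈ K := fun u hu => by
    rcases List.mem_cons.1 hu with rfl | hu
    · exact hx
    · exact h2 u hu
  have h5 := hs (x :: A') ⟨hP.pre ((List.prefix_cons_inj x).2 h1), h4⟩
  have h6 := hH _ (h4 _ List.getLastD_mem_cons)
  simp only [List.length_cons] at h5
  omega

/-- S25. All paths in `K` are short. -/
theorem noDir (hD : D2 k G) {K : Set V} (hE : EF G K) {v₀ v : V} (hv : v ∈ K)
    (hr : ∀ u ∈ K, G.Reachable v₀ u) (hA : ∀ y, G.Reachable v₀ y → y ∉ K → Ac G y)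
    (hs : ∀ l, PK G K l → l.length ≤ 11) (hl : 14 ≤ lp G ∅ v) :
    ∃ z ∈ K, k ≤ 2 * gK G K z + 20 := by
  obtain ⟨z, hz, hH⟩ := Set.exists_max_image K (gK G K) (Set.toFinite K) ⟨v, hv⟩
  refine ⟨z, hz, ?_⟩
  obtain ⟨A₀, a1, -, a2⟩ := lp_ex G (S := ∅) (x := v) (Set.notMem_empty v)
  have a3 := F17_up hE hs hH hv a1
  obtain ⟨C, c1, c2, c3⟩ := B3_ex G K z
  obtain ⟨x, y, C, rfl⟩ : ∃ x y C', C = x :: y :: C' := by
    rcases C with _ | ⟨x, _ | ⟨y, C⟩⟩
    · simp only [List.length_nil] at c3; omega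
    · simp only [List.length_cons, List.length_nil] at c3; omega
    · exact ⟨x, y, C, rfl⟩
  have hx : x ∉ K := c2 x (by simp)
  have zx : G.Adj z x := c1.adj
  have xy : G.Adj x y := c1.tail.adj
  have zy : z ≠ y := fun e => c1.notMem (by simp [e])
  have hAx : Ac G x := hA x ((hr z hz).trans zx.reachable) hx
  have nzy : ¬ G.Adj z y := fun h => by
    have := hAx z [y] zx.symm (((P.single z).cons h.symm (by simpa using zy.symm)).cons xy
      (by simpa using ⟨xy.ne, zx.ne'⟩))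
    simp at this
  obtain ⟨A, B, b1, b2, b3, b4⟩ := hD.2 x z y zx.symm xy zy nzy
  have b5 := F17_up hE hs hH hz b1
  have zB : z ∉ y :: B := b3 List.mem_cons_self
  have hx' : x ∉ ({z} : Set V) := fun e => zx.ne' e
  have yR : y ∈ Rg G {z} x := Rg_adj hx' (Rg_self _ x) xy fun e => zy (Eq.symm e)
  have hB : ∀ t ∈ y :: B, t ∉ K := fun t ht => Lo3_miss hE hz hx zx
    (Rg_trans yR (b2.mem_Rg (fun u hu (e : u = z) => zB (e ▸ hu)) t ht))
  by_cases hxB : x ∈ B
  · obtain ⟨B₁, B₂, rfl⟩ := List.append_of_mem hxB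
    have h1 : P G (y :: (B₁ ++ [x])) := b2.pre ⟨B₂, by simp⟩
    obtain rfl : B₁ = [] := List.reverse_eq_nil_iff.1 (hAx y _ xy (by simpa using h1.reverse))
    have h2 : P G (z :: x :: B₂) := b2.tail.cons zx fun hm => zB (List.mem_cons_of_mem _ hm)
    have h3 := B3_ge (K := K) h2 fun t ht => hB t (List.mem_cons_of_mem _ ht)
    simp only [List.length_cons, List.nil_append] at h3 b4
    omega
  · have h1 : P G (x :: y :: B) := b2.cons xy (by simpa using ⟨xy.ne, hxB⟩)
    have h2 : P G (z :: x :: y :: B) := h1.cons zx fun hm => by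
      rcases List.mem_cons.1 hm with e | hm
      · exact zx.ne e
      · exact zB hm
    have h3 := B3_ge (K := K) h2 fun t ht => by
      rcases List.mem_cons.1 ht with rfl | ht
      · exact hx
      · exact hB t ht
    simp only [List.length_cons] at h3
    omega

/-- S26. -/
theorem ex_comp2 (hk : 9 ≤ k) (hS : SatL k G) (hn : Nat.card V < a k) (v : V) :
    ex G (Sf G v) ≤ 2 * (G.edgeSet.ncard : ℤ) - 2 * Nat.card V ∨
      ∀ x, G.Reachable v x → k ≤ lp G ∅ x + 2 := by
  classical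
  have hD := hS.d2
  have sm : ∀ u, ex G (Sf G u) < 0 → lp G ∅ u ≤ 2 := fun u hu => by
    have hC := Cnt_cac hD (v := u) (by omega)
    rw [← lp_res (Reachable.refl u)]
    refine small2 (nt_of_few hC ((few_res fun _ => mem_Sf).mono (by omega))) (fun ht => ?_) u
    obtain ⟨Q, hQ, hl⟩ := Cnt_long hk hD (by omega) ht
    have h5 := (Cnt_size hk hD hC hQ hl).1 hu
    have h6 : (Sf G u).card ≤ Nat.card V := by
      rw [Sf_card, ← Set.ncard_univ]
      exact Set.ncard_le_ncard (Set.subset_univ _) (Set.toFinite _)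
    omega
  obtain ⟨R, hR, hu, h1, -⟩ := Cnt_sum G
  obtain ⟨r, hr, hrv⟩ := hR v
  rw [← Finset.add_sum_erase _ _ hr] at h1
  by_cases h : ∀ u ∈ R.erase r, 0 ≤ ex G (Sf G u)
  · left
    have h2 := Finset.sum_nonneg h
    rw [← Sf_eq hrv]
    omega
  · right
    push Not at h
    obtain ⟨u, hu1, hu2⟩ := h
    intro x hx
    have hxu : ¬ G.Reachable x u := fun h =>
      (Finset.mem_erase.1 hu1).1 (hu r hr u (Finset.mem_of_mem_erase hu1)
        ((hrv.trans hx).trans h)).symm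
    have := (cr_iff_lp hxu).1
      (hS.2 x u (fun e => hxu (e ▸ Reachable.refl x)) fun ha => hxu ha.reachable)
    have := sm u hu2
    omega

/-- S27. Every vertex of the core starts a very long path. -/
theorem core6 {K : Finset V} (hK : CK k G K 6) (hk : 40 ≤ k) {v : V} (hv : v ∈ K)
    (hl : ∀ x ∈ K, k ≤ lp G ∅ x + 2) : ∃ z ∈ K, k ≤ 2 * gK G K z + 20 := by
  by_contra hc
  push Not at hc
  have key : ∀ x ∈ K, ∃ y B, PK G K (x :: y :: B) ∧
      k ≤ B.length + gK G K (B.getLastD y) + 3 ∧ gK G K x ≤ 2 := fun x hx => by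
    obtain ⟨A, hA, -, hA2⟩ := lp_ex G (S := ∅) (x := x) (Set.notMem_empty x)
    obtain ⟨A', h1, h2, h3⟩ := W0 hK.ef (Finset.mem_coe.2 hx) hA
    have h4 := hl x hx
    have h5 := hc x hx
    rcases A' with _ | ⟨y, B⟩
    · simp only [List.length_nil, List.getLastD_nil] at h3
      omega
    · have hP : P G (x :: y :: B) := hA.sub ((List.prefix_cons_inj x).2 h1).isInfix
      have hK' : ∀ t ∈ x :: y :: B, t ∈ (K : Set V) := fun t ht => by
        rcases List.mem_cons.1 ht with rfl | ht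
        · exact Finset.mem_coe.2 hx
        · exact h2 t ht
      have h6 := W1' hK.ef hK.d2.1 hP hK'
      rw [List.getLastD_cons, List.length_cons] at h3
      exact ⟨y, B, ⟨hP, hK'⟩, by omega, by omega⟩
  have g2 : ∀ x ∈ (K : Set V), gK G K x ≤ 2 := fun x hx => by
    obtain ⟨-, -, -, -, h⟩ := key x hx
    exact h
  obtain ⟨y, B, hP, hB, -⟩ := key v hv
  obtain ⟨I, e, hI⟩ : ∃ I e, y :: B = I ++ [e] :=
    ⟨_, _, (List.dropLast_append_getLast (List.cons_ne_nil y B)).symm⟩
  have hlast : B.getLastD y ∈ (K : Set V) :=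
    hP.2 _ (List.mem_cons_of_mem _ List.getLastD_mem_cons)
  have hlen : B.length = I.length := by simpa using congrArg List.length hI
  rw [hI] at hP
  obtain ⟨Br, hBr, hBr2⟩ := L_br hK.dg2 hK.hex
  have hn : I.Nodup := (hP.1.tail.left).1
  have hcnt := L_cnt 4 Br I hn fun m hm h4 => by
    by_contra hno
    push Not at hno
    obtain ⟨s, t, rfl⟩ := hm
    obtain ⟨s', u, hs⟩ : ∃ s' u, v :: s = s' ++ [u] :=
      ⟨_, _, (List.dropLast_append_getLast (List.cons_ne_nil v s)).symm⟩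
    obtain ⟨z', t', ht⟩ := List.exists_cons_of_ne_nil (l := t ++ [e]) (by simp)
    rcases m with _ | ⟨z, M⟩
    · simp at h4
    have e1 : v :: (s ++ z :: M ++ t ++ [e]) = s' ++ (u :: z :: (M ++ [z'])) ++ t' := by
      rw [List.append_assoc (s ++ z :: M), ht, ← List.cons_append, ← List.cons_append, hs]
      simp
    have hi : u :: z :: (M ++ [z']) <:+: v :: (s ++ z :: M ++ t ++ [e]) := ⟨s', t', e1.symm⟩
    have hQ : PK G K (u :: z :: (M ++ [z'])) := ⟨hP.1.sub hi, fun c hc => hP.2 c (hi.subset hc)⟩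
    have hin : ∀ c ∈ z :: (M ++ [z']), c ∈ (K : Set V) := fun c hc =>
      hQ.2 c (List.mem_cons_of_mem _ hc)
    obtain ⟨Z₁, c, c', Z₂, a1, a2, a3, -⟩ := L_thread hK.ef hK.d2 hQ fun c hc => by
      by_contra h3
      refine hno c hc (hBr2 c (hin c ?_) (by omega))
      rw [← List.cons_append]
      exact List.mem_append_left _ hc
    have b1 := g2 c (hin c (by rw [a1]; simp))
    have b2 := g2 c' (hin c' (by rw [a1]; simp))
    have b3 := gK_pos G K z
    have b4 := gK_pos G K z'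
    have b5 := congrArg List.length a1
    simp only [List.length_cons, List.length_append, List.length_nil] at b5 h4
    omega
  have := g2 _ hlast
  have hb : Br.card ≤ 6 := hBr
  omega

/-- Every vertex of a component starts a path of half the length of any path in it. -/
theorem F19_lp {u v : V} {Q : List V} (hQ : P G Q) (hv : v ∈ Q) (hr : G.Reachable u v) :
    Q.length ≤ 2 * lp G ∅ u := by
  obtain ⟨l, h1, h2⟩ : ∃ l, P G (u :: l) ∧ v ∈ u :: l := by
    by_cases e : u = v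
    · exact ⟨[], P.single u, by simp [e]⟩
    · obtain ⟨A, hA⟩ := exists_P hr e
      exact ⟨_, hA, by simp⟩
  obtain ⟨L, w, R, e, h3, h4⟩ := B3_first (K := {x | x ∈ Q}) (l := u :: l) ⟨v, h2, hv⟩
  have key : ∀ C, P G (w :: C) → (∀ c ∈ C, c ∈ Q) → C.length + 1 ≤ lp G ∅ u := fun C a b => by
    have c := P.glue (h1.pre (l' := L ++ [w]) ⟨R, by simp [e]⟩) a fun t p q => h3 t p (b t q)
    cases L with
    | nil =>
      obtain rfl : u = w := (List.cons.inj e).1
      exact lp_ge a fun _ _ h => h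
    | cons t L =>
      obtain rfl : u = t := (List.cons.inj e).1
      have := lp_ge (S := ∅) c fun _ _ h => h
      simp only [List.append_eq, List.length_append, List.length_cons] at this
      omega
  obtain ⟨A, B, rfl⟩ := List.append_of_mem h4
  have a := key B hQ.right fun c h => by simp [h]
  have b := key A.reverse (by simpa using (hQ.pre (l' := A ++ [w]) ⟨B, by simp⟩).reverse)
    fun c h => by simp [List.mem_reverse.1 h]
  simp only [List.length_append, List.length_cons, List.length_reverse] at b ⊢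
  omega

/-- S28. The core of a component with a cycle. -/
theorem core2 {v₀ y : V} (hy : G.Reachable v₀ y) (hn : ¬ Ac G y) :
    ∃ K : Finset V, y ∈ K ∧ (∀ u ∈ K, G.Reachable v₀ u) ∧ EF G K ∧
      (∀ t, G.Reachable v₀ t → t ∉ K → Ac G t) ∧ (∀ u ∈ K, 2 ≤ dg G K u) ∧
      ex G K ≤ ex G (Sf G v₀) := by
  obtain ⟨z, A, h1, h2, h3⟩ : ∃ z A, G.Adj y z ∧ P G (y :: (A ++ [z])) ∧ A ≠ [] := by
    by_contra hc
    exact hn fun z A a b => by_contra fun c => hc ⟨z, A, a, b, c⟩
  obtain ⟨K, a1, a2, a3, a4, a5, a6⟩ := core (v₀ := v₀) (Q := y :: (A ++ [z]))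
    (fun u hu => hy.trans (h2.reach u hu)) (List.cons_ne_nil _ _)
  refine ⟨K, a1 y List.mem_cons_self, a2, a3, a4, fun u hu => ?_, a6⟩
  by_cases hQ : u ∈ y :: (A ++ [z])
  · obtain ⟨l, ⟨b1, x, B, t, e, b2⟩, b3⟩ := Cyc_first (G := G) ⟨h2, y, A, z, rfl, h1⟩ hQ
    obtain ⟨rfl, rfl⟩ := List.cons.inj e
    have hl := b3.length_eq
    have := List.length_pos_iff.2 h3
    cases B with
    | nil =>
      simp only [List.length_append, List.length_cons, List.length_nil] at hl
      omega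
    | cons b B =>
      exact two_le_dg (a1 b (b3.subset (by simp))) (a1 t (b3.subset (by simp))) b1.adj b2
        fun q => b1.tail.notMem (by simp [q])
  · exact a5 u hu hQ

/-- S28. -/
theorem size_of (hD : D2 k G) (hk : 30 ≤ k) {K : Set V} (hE : EF G K) {v₀ z : V} (hz : z ∈ K)
    (hr : G.Reachable v₀ z) (hA : ∀ y, G.Reachable v₀ y → y ∉ K → Ac G y)
    (h : k ≤ 2 * gK G K z + 20) : 2 ^ (k / 2 - 11) ≤ Nat.card V := by
  obtain ⟨A, a1, a2, a3⟩ := B3_ex G K z
  cases A with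
  | nil =>
    rw [List.length_nil] at a3
    omega
  | cons x A =>
    have hx := a2 x List.mem_cons_self
    have := lp_ge (S := {z}) a1.tail fun v hv e => a2 v hv (Set.mem_singleton_iff.1 e ▸ hz)
    rw [List.length_cons] at a3
    have b := brB hD (k / 2 - 11) (by omega) a1.adj (fun t ht => hA t (hr.trans
      (a1.adj.reachable.trans (Rg_sub_Cm _ _ ht))) (Lo3_miss hE hz hx a1.adj ht)) (by omega)
    rw [← Set.ncard_insert_of_notMem fun q => Lo3_miss hE hz hx a1.adj q hz] at b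
    exact b.trans (Set.ncard_le_card _)

/-- S29. -/
theorem low3 (hk : 60 ≤ k) (hS : SatL k G) (h1 : k ≤ Nat.card V) (h2 : Nat.card V < a k)
    (he : G.edgeSet.ncard ≤ Nat.card V + 2) : 2 ^ (k / 2 - 11) ≤ Nat.card V := by
  obtain ⟨Q, hQ, hl⟩ := half_path hS h1
  obtain ⟨v, hv⟩ := List.exists_mem_of_length_pos (show 0 < Q.length by omega)
  have hD := hS.d2
  have lg : ∀ u, G.Reachable v u → 14 ≤ lp G ∅ u := fun u hu => by
    have := F19_lp hQ hv hu.symm
    omega
  by_cases hc : ∀ y, G.Reachable v y → Ac G y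
  · have hE : EF G {v} := fun x hx y hy L _ _ hP =>
      hP.notMem (by simp [Set.mem_singleton_iff.1 hx, Set.mem_singleton_iff.1 hy])
    have hr : ∀ u ∈ ({v} : Set V), G.Reachable v u := fun u hu => by
      rw [Set.mem_singleton_iff.1 hu]
    obtain ⟨z, z1, z2⟩ := noDir hD hE (v := v) rfl hr (fun y hy _ => hc y hy) (fun l hl => by
      have := (List.subperm_of_subset hl.1.1 (l₂ := [v]) fun t ht =>
        List.mem_singleton.2 (hl.2 t ht)).length_le
      rw [List.length_singleton] at this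
      omega) (lg v (Reachable.refl v))
    exact size_of hD (by omega) hE z1 (hr z z1) (fun y hy _ => hc y hy) z2
  obtain ⟨y, hy⟩ := not_forall.1 hc
  obtain ⟨y1, y2⟩ := Classical.not_imp.1 hy
  obtain ⟨K, a1, a2, a3, a4, a5, a6⟩ := core2 y1 y2
  suffices ∃ z ∈ K, k ≤ 2 * gK G K z + 20 by
    obtain ⟨z, z1, z2⟩ := this
    exact size_of hD (by omega) a3 z1 (a2 z z1) a4 z2
  rcases ex_comp2 (by omega) hS h2 v with q | q
  · have hx : ex G K ≤ 4 := by omega
    by_cases hd : ∃ z, Dir G K z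
    · obtain ⟨z, hz⟩ := hd
      obtain ⟨t, t1, t2⟩ := K.exists_max_image (gK G K) ⟨y, a1⟩
      exact ⟨t, t1, core4 ⟨hD, a3, a5, hx⟩ t2 hz⟩
    · exact noDir hD a3 a1 a2 a4 (fun l hl => by
        simpa using L_run a5 hx hl ∅ fun c _ h => absurd ⟨c, h⟩ hd) (lg y y1)
  · have := ex_comp (by omega) hS h2 v
    exact core6 ⟨hD, a3, a5, by omega⟩ (by omega) a1 fun x hx => q x (a2 x hx)

end PS
end
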