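import Pool.Agent.Work.MP_3e1eec_co.T3.Low

section
/-! Binary trees on a weighted graph. -/

open SimpleGraph

namespace PS
variable {U : Type} {C : SimpleGraph U} {h : U → ℕ} {k : ℕ}

theorem F20_dive {a : U} {R : List (U × List Bool)} {L : List Bool} {x : Bool}
    (hP : P (TG C h) ((a, L) :: (a, x :: L) :: R)) : R.length + L.length + 1 ≤ h a := by
  induction R generalizing L x with
  | nil =>
    rcases hP.adj with ⟨-, b, -⟩ | ⟨-, ⟨y, -, c⟩ | ⟨y, b, -⟩⟩
    · exact absurd b (List.cons_ne_nil _ _)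
    · simpa [Nat.succ_le_iff] using c
    · have := congrArg List.length b
      simp only [List.length_cons] at this
      omega
  | cons w R ih =>
    obtain ⟨w1, w2⟩ := w
    rcases hP.tail.adj with ⟨b, -, -⟩ | ⟨e, ⟨y, b, -⟩ | ⟨y, b, -⟩⟩
    · exact absurd b (List.cons_ne_nil _ _)
    · dsimp only at e b
      subst e b
      have := ih hP.tail
      simp only [List.length_cons] at this ⊢
      omega
    · dsimp only at e b
      obtain ⟨-, b⟩ := List.cons_eq_cons.1 b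
      subst e b
      exact absurd (by simp) hP.notMem

theorem F20_core {R : List (U × List Bool)} {a : U} (hP : P (TG C h) ((a, []) :: R)) :
    ∃ M, P C (a :: M) ∧ (∀ u ∈ M, (u, []) ∈ R) ∧ R.length ≤ M.length + h (M.getLastD a) := by
  induction R generalizing a with
  | nil => exact ⟨[], P.single a, by simp, by simp⟩
  | cons w R ih =>
    obtain ⟨w1, w2⟩ := w
    rcases hP.adj with ⟨-, b, c⟩ | ⟨e, ⟨y, b, -⟩ | ⟨y, b, -⟩⟩
    · dsimp only at b c
      subst b
      obtain ⟨M, m1, m2, m3⟩ := ih hP.tail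
      have m4 : ∀ u ∈ w1 :: M, (u, ([] : List Bool)) ∈ (w1, ([] : List Bool)) :: R := by
        intro u hu
        rcases List.mem_cons.1 hu with rfl | hu
        · exact List.mem_cons_self
        · exact List.mem_cons_of_mem _ (m2 u hu)
      refine ⟨w1 :: M, m1.cons c fun hu => hP.notMem (m4 a hu), m4, ?_⟩
      rw [List.getLastD_cons]
      simp only [List.length_cons]
      omega
    · dsimp only at e b
      subst e b
      have := F20_dive hP
      refine ⟨[], P.single a, by simp, ?_⟩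
      simp only [List.length_cons, List.length_nil, List.getLastD_nil] at this ⊢
      omega
    · exact absurd b.symm (List.cons_ne_nil _ _)

theorem F20_climb {R : List (U × List Bool)} {a : U} {L : List Bool}
    (hP : P (TG C h) ((a, L) :: R)) : R.length ≤ L.length + h a ∨
      ∃ b M, P C (a :: b :: M) ∧ R.length ≤ L.length + 1 + M.length + h (M.getLastD b) := by
  induction R generalizing L with
  | nil => exact Or.inl (Nat.zero_le _)
  | cons w R ih =>
    obtain ⟨w1, w2⟩ := w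
    rcases hP.adj with ⟨b, -, -⟩ | ⟨e, ⟨y, b, -⟩ | ⟨y, b, -⟩⟩
    · dsimp only at b
      subst b
      obtain ⟨M, m1, -, m3⟩ := F20_core hP
      cases M with
      | nil =>
        left
        simpa using m3
      | cons b M =>
        refine Or.inr ⟨b, M, m1, ?_⟩
        rw [List.getLastD_cons] at m3
        simp only [List.length_cons, List.length_nil] at m3 ⊢
        omega
    · dsimp only at e b
      subst e b
      have := F20_dive hP
      left
      simp only [List.length_cons]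
      omega
    · dsimp only at e b
      subst e b
      simp only [List.length_cons]
      rcases ih hP.tail with m | ⟨b, M, m1, m2⟩
      · left
        omega
      · exact Or.inr ⟨b, M, m1, by omega⟩

theorem F20_dep {a : U} {L : List Bool} {w : U × List Bool} (hA : (TG C h).Adj (a, L) w) :
    L.length ≤ h a := by
  obtain ⟨w1, w2⟩ := w
  rcases hA with ⟨b, -, -⟩ | ⟨e, ⟨y, -, c⟩ | ⟨y, b, c⟩⟩
  · dsimp only at b
    subst b
    exact Nat.zero_le _
  · exact c.le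
  · dsimp only at e b c
    subst e b
    exact c

theorem F20_last (b : U) (M : List U) :
    ∃ M', b :: M = M' ++ [M.getLastD b] ∧ M'.length = M.length := by
  induction M generalizing b with
  | nil => exact ⟨[], rfl, rfl⟩
  | cons c M ih =>
    obtain ⟨M', e1, e2⟩ := ih c
    refine ⟨b :: M', ?_, by simp [e2]⟩
    rw [List.getLastD_cons, List.cons_append, ← e1]

/-- S30. -/
theorem T_pf [Nonempty U] (hW : WPF k C h) : PF k (TG C h) := by
  intro l hP
  match l, hP with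
  | [], _ =>
    have := hW.1 (Classical.arbitrary U)
    rw [List.length_nil]
    omega
  | [v], _ =>
    have := hW.1 v.1
    rw [List.length_singleton]
    omega
  | (a, L) :: w :: R, hP =>
    have h1 := F20_dep hP.adj
    have h2 := hW.1 a
    rcases F20_climb hP with m | ⟨b, M, m1, m2⟩
    · simp only [List.length_cons] at m ⊢
      omega
    · obtain ⟨M', e1, e2⟩ := F20_last b M
      have := hW.2 a M' (M.getLastD b) (e1 ▸ m1)
      simp only [List.length_cons] at m2 ⊢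
      omega

theorem F21_tr {a : U} {L : List Bool} (x : Bool) (hl : L.length < h a) :
    (TG C h).Adj (a, L) (a, x :: L) := Or.inr ⟨rfl, Or.inl ⟨x, rfl, hl⟩⟩

/-- S31. Climb from `M ++ L₀` to `L₀`, then follow `T`. -/
theorem T_climb {a : U} (M L₀ : List Bool) (hl : (M ++ L₀).length ≤ h a) {T : List (U × List Bool)}
    (hP : P (TG C h) ((a, L₀) :: T)) (hT : ∀ M', M' <:+ M → (a, M' ++ L₀) ∉ T) :
    ∃ A, P (TG C h) ((a, M ++ L₀) :: A) ∧ A.length = M.length + T.length ∧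
      ∀ t ∈ A, t ∈ T ∨ ∃ M', M' <:+ M ∧ t = (a, M' ++ L₀) := by
  induction M with
  | nil => exact ⟨T, hP, by simp, fun t ht => Or.inl ht⟩
  | cons x M ih =>
    obtain ⟨A, a1, a2, a4⟩ := ih (Nat.le_of_succ_le hl)
      fun M' h' => hT M' (h'.trans (List.suffix_cons x M))
    refine ⟨(a, M ++ L₀) :: A, a1.cons (F21_tr x hl).symm fun hm => ?_, ?_, fun t ht => ?_⟩
    · rcases List.mem_cons.1 hm with e | e
      · simp at e
      · rcases a4 _ e with e | ⟨M', e1, e2⟩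
        · exact hT _ List.suffix_rfl e
        · have b1 := e1.length_le
          have b2 := congrArg (fun t : U × List Bool => t.2.length) e2
          simp only [List.length_append, List.length_cons] at b2
          omega
    · simp only [List.length_cons]
      omega
    · rcases List.mem_cons.1 ht with e | e
      · exact Or.inr ⟨M, List.suffix_cons x M, e⟩
      · exact (a4 t e).imp_right fun ⟨M', e1, e2⟩ => ⟨M', e1.trans (List.suffix_cons x M), e2⟩

/-- S31. Dive from `L`, first along `x`. -/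
theorem T_dive {a : U} (L : List Bool) (x : Bool) (hl : L.length ≤ h a) :
    ∃ A, P (TG C h) ((a, L) :: A) ∧ A.length + L.length = h a ∧
      ∀ t ∈ A, ∃ M, t = (a, M ++ x :: L) := by
  obtain ⟨n, hn⟩ := Nat.exists_eq_add_of_le hl
  induction n generalizing L x with
  | zero => exact ⟨[], P.single _, by simp [hn], by simp⟩
  | succ n ih =>
    obtain ⟨A, a1, a2, a3⟩ := ih (x :: L) false (by simp only [List.length_cons]; omega)
      (by simp only [List.length_cons]; omega)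
    refine ⟨(a, x :: L) :: A, a1.cons (F21_tr x (by omega)) fun hm => ?_, ?_, fun t ht => ?_⟩
    · rcases List.mem_cons.1 hm with e | e
      · simp at e
      · obtain ⟨M, e2⟩ := a3 _ e
        have b2 := congrArg (fun t : U × List Bool => t.2.length) e2
        simp only [List.length_append, List.length_cons] at b2
        omega
    · simp only [List.length_cons] at a2 ⊢
      omega
    · rcases List.mem_cons.1 ht with e | e
      · exact ⟨[], e⟩
      · obtain ⟨M, e2⟩ := a3 _ e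
        exact ⟨M ++ [false], by rw [e2, List.append_assoc]; rfl⟩

/-- S31. Follow a path of `C`, then dive, first along `x`. -/
theorem T_tail {a : U} {A : List U} (hP : P C (a :: A)) (x : Bool) :
    ∃ A', P (TG C h) ((a, []) :: A') ∧ A'.length = A.length + h (A.getLastD a) ∧
      ∀ t ∈ A', (t.1 ∈ A ∧ t.2 = []) ∨ ∃ M, t = (A.getLastD a, M ++ [x]) := by
  induction A generalizing a with
  | nil =>
    obtain ⟨A', a1, a2, a3⟩ := T_dive (C := C) (h := h) (a := a) [] x (Nat.zero_le _)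
    exact ⟨A', a1, by simpa using a2, fun t ht => Or.inr (a3 t ht)⟩
  | cons b A ih =>
    obtain ⟨A', a1, a2, a3⟩ := ih hP.tail
    have hadj : (TG C h).Adj (a, []) (b, []) := Or.inl ⟨rfl, rfl, hP.adj⟩
    refine ⟨(b, []) :: A', a1.cons hadj fun hm => ?_, ?_, fun t ht => ?_⟩
    · rcases List.mem_cons.1 hm with e | e
      · exact hadj.ne e
      · rcases a3 _ e with ⟨e1, -⟩ | ⟨M, e1⟩
        · exact hP.notMem (List.mem_cons_of_mem _ e1)
        · have b2 := congrArg (fun t : U × List Bool => t.2.length) e1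
          simp at b2
    · rw [List.getLastD_cons]
      simp only [List.length_cons]
      omega
    · rw [List.getLastD_cons]
      rcases List.mem_cons.1 ht with e | e
      · exact Or.inl ⟨e ▸ List.mem_cons_self, e ▸ rfl⟩
      · exact (a3 t e).imp_left fun ⟨e1, e2⟩ => ⟨List.mem_cons_of_mem _ e1, e2⟩

theorem F21_side {a : U} {A : List U} (hP : P C (a :: A)) {L : List Bool} (hl : L.length ≤ h a) :
    ∃ A', P (TG C h) ((a, L) :: A') ∧ A'.length = L.length + A.length + h (A.getLastD a) ∧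
      ∀ t ∈ (a, L) :: A', t.1 ∈ a :: A := by
  obtain ⟨T, a1, a2, a3⟩ := T_tail (h := h) hP (!L.getLastD false)
  obtain ⟨A', b1, b2, b3⟩ := T_climb L [] (by simpa using hl) a1 (by
    intro M' hM hm
    rcases a3 _ hm with ⟨e1, -⟩ | ⟨M, e1⟩
    · exact hP.notMem e1
    · have e2 : M' = M ++ [!L.getLastD false] := by simpa using congrArg Prod.snd e1
      obtain ⟨N, hN⟩ := hM
      have e3 : L.getLastD false = !L.getLastD false := by
        conv_lhs => rw [← hN, e2, ← List.append_assoc, List.getLastD_concat]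
      simp at e3)
  rw [List.append_nil] at b1
  refine ⟨A', b1, by omega, fun t ht => ?_⟩
  rcases List.mem_cons.1 ht with e | e
  · exact e ▸ List.mem_cons_self
  · rcases b3 t e with e1 | ⟨M', -, e1⟩
    · rcases a3 t e1 with ⟨e2, -⟩ | ⟨M, e2⟩
      · exact List.mem_cons_of_mem _ e2
      · rw [e2]
        exact List.getLastD_mem_cons
    · exact e1 ▸ List.mem_cons_self

/-- S32. -/
theorem T_far {a b : U} (hc : CrC k C h a b) {L L' : List Bool} (hl : L.length ≤ h a)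
    (hl' : L'.length ≤ h b) : Cr (k + L.length + L'.length) (TG C h) (a, L) (b, L') := by
  obtain ⟨A, B, hA, hB, hd, hk⟩ := hc
  obtain ⟨A', a1, a2, a3⟩ := F21_side hA hl
  obtain ⟨B', b1, b2, b3⟩ := F21_side hB hl'
  exact ⟨A', B', a1, b1, fun t ht ht' => hd (a3 t ht) (b3 t ht'), by omega⟩

theorem F22_up {a : U} (ht : Ti k C h a) {L : List Bool} (hl : L.length ≤ h a) :
    ∃ A, P (TG C h) ((a, L) :: A) ∧ k + L.length ≤ h a + A.length + 2 ∧
      ∀ t ∈ (a, L) :: A, t.1 = a → t.2 <:+ L := by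
  obtain ⟨y, B, hP, hk⟩ := ht
  obtain ⟨A', p1, p2, p3⟩ := T_tail (h := h) hP true
  have h1 : ∀ t ∈ A', t.1 ≠ a := fun t ht e => by
    refine hP.notMem ?_
    rcases p3 t ht with h2 | ⟨M, h2⟩
    · exact e ▸ h2.1
    · rw [h2] at e
      rw [← e, List.getLastD_cons]
      exact List.getLastD_mem_cons
  obtain ⟨A, q1, q2, q3⟩ := T_climb (C := C) (h := h) (a := a) L [] (by simpa using hl) p1
    fun M' _ hm => h1 _ hm rfl
  rw [List.append_nil] at q1
  rw [List.getLastD_cons, List.length_cons] at p2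
  refine ⟨A, q1, by omega, fun t ht e => ?_⟩
  rcases List.mem_cons.1 ht with rfl | ht
  · exact List.suffix_refl _
  · rcases q3 t ht with h2 | ⟨M', h2, rfl⟩
    · exact absurd e (h1 t h2)
    · simpa using h2

theorem F22_dive {a : U} (ht : Ti k C h a) {L L' : List Bool} (hl : L.length ≤ L'.length)
    (hl' : L'.length ≤ h a) (hs : ¬ L <:+ L') : Cr k (TG C h) (a, L) (a, L') := by
  obtain ⟨A, p1, p2, p3⟩ := T_dive (C := C) (h := h) (a := a) L true (hl.trans hl')
  obtain ⟨B, q1, q2, q3⟩ := F22_up ht hl'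
  refine ⟨A, B, p1, q1, fun t h1 h2 => hs ?_, by omega⟩
  rcases List.mem_cons.1 h1 with rfl | h1
  · exact q3 _ h2 rfl
  · obtain ⟨M, rfl⟩ := p3 t h1
    exact ((List.suffix_cons true L).trans (List.suffix_append M _)).trans (q3 _ h2 rfl)

theorem F22_anc {a : U} (ht : Ti k C h a) {M L : List Bool} {y z : Bool}
    (hl : (M ++ z :: y :: L).length ≤ h a) : Cr k (TG C h) (a, M ++ z :: y :: L) (a, L) := by
  have e : M ++ z :: y :: L = (M ++ [z]) ++ y :: L := by simp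
  have hl2 := hl
  simp only [List.length_append, List.length_cons] at hl2
  obtain ⟨A, p1, p2, p3⟩ := T_dive (C := C) (h := h) (a := a) (y :: L) (!z)
    (by rw [List.length_cons]; omega)
  obtain ⟨A', r1, r2, r3⟩ := T_climb (C := C) (h := h) (a := a) (M ++ [z]) (y :: L) (e ▸ hl) p1
    fun M' hM hm => by
      obtain ⟨N, hN⟩ := p3 _ hm
      have h1 : M' ++ y :: L = (N ++ [!z]) ++ y :: L := by simpa using congrArg Prod.snd hN
      rw [List.append_cancel_right h1] at hM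
      obtain ⟨R, hR⟩ := hM
      rw [← List.append_assoc] at hR
      have := List.append_inj_right' hR rfl
      simp at this
  obtain ⟨B, q1, q2, q3⟩ := F22_up ht (L := L) (by omega)
  rw [e]
  simp only [List.length_append, List.length_cons] at p2 r2
  refine ⟨A', B, r1, q1, fun t h1 h2 => ?_, by omega⟩
  have h3 : ∃ N, t = (a, N ++ y :: L) := by
    rcases List.mem_cons.1 h1 with rfl | h1
    · exact ⟨_, rfl⟩
    · rcases r3 t h1 with h3 | ⟨N, -, h3⟩
      · obtain ⟨N, hN⟩ := p3 t h3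
        exact ⟨N ++ [!z], by simpa using hN⟩
      · exact ⟨N, h3⟩
  obtain ⟨N, rfl⟩ := h3
  have := (q3 _ h2 rfl).length_le
  simp only [List.length_append, List.length_cons] at this
  omega

theorem F22_le {a : U} (ht : Ti k C h a) {L L' : List Bool} (hl : L.length ≤ L'.length)
    (hl' : L'.length ≤ h a) (hne : L ≠ L') (hn : ¬ (TG C h).Adj (a, L) (a, L')) :
    Cr k (TG C h) (a, L) (a, L') := by
  by_cases hs : L <:+ L'
  · obtain ⟨M, rfl⟩ := hs
    rcases List.eq_nil_or_concat' M with rfl | ⟨M, y, rfl⟩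
    · exact absurd rfl hne
    rcases List.eq_nil_or_concat' M with rfl | ⟨M, z, rfl⟩
    · exact absurd (Or.inr ⟨rfl, Or.inl ⟨y, rfl, hl'⟩⟩) hn
    · have e : M ++ [z] ++ [y] ++ L = M ++ z :: y :: L := by simp
      rw [e] at hl' ⊢
      exact (F22_anc ht hl').symm
  · exact F22_dive ht hl hl' hs

/-- S33. -/
theorem T_same {a : U} (ht : Ti k C h a) {L L' : List Bool} (hl : L.length ≤ h a)
    (hl' : L'.length ≤ h a) (hne : L ≠ L') (hn : ¬ (TG C h).Adj (a, L) (a, L')) :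
    Cr k (TG C h) (a, L) (a, L') := by
  rcases le_total L.length L'.length with h1 | h1
  · exact F22_le ht h1 hl' hne hn
  · exact (F22_le ht h1 hl hne.symm fun h2 => hn h2.symm).symm

/-- S32. -/
theorem T_leaf {a : U} (ht : Ti k C h a) (h1 : 1 ≤ h a) : ∃ L A, L ≠ [] ∧ L.length = h a ∧
    Leaf (TG C h) (a, L) ∧ P (TG C h) ((a, L) :: A) ∧ k ≤ A.length + 2 := by
  obtain ⟨L, hL⟩ : ∃ L : List Bool, L.length + 1 = h a :=
    ⟨List.replicate (h a - 1) true, by rw [List.length_replicate]; omega⟩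
  obtain ⟨A, p1, p2, -⟩ := F22_up ht (L := true :: L) hL.le
  rw [List.length_cons] at p2
  refine ⟨true :: L, A, List.cons_ne_nil _ _, hL,
    ⟨(a, L), Or.inr ⟨rfl, Or.inr ⟨true, rfl, hL.le⟩⟩, ?_⟩, p1, by omega⟩
  rintro ⟨b, M⟩ (⟨h2, -⟩ | ⟨rfl, ⟨x, -, h2⟩ | ⟨x, h2, -⟩⟩)
  · exact absurd h2 (List.cons_ne_nil _ _)
  · exact absurd h2 (not_lt.2 hL.ge)
  · rw [(List.cons.inj h2).2]

end PS
end

section
/-! The core: no long weighted path. -/

open SimpleGraph

namespace PS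
variable {s δ : ℕ}

theorem F23_adj {i j : ℕ} : (Cg s).Adj i j ↔ i ≠ j ∧ (Ce s i j ∨ Ce s j i) := Iff.rfl

/-- S34. -/
theorem C_lt (hs : 8 ≤ s) {i j : ℕ} (h : (Cg s).Adj i j) : i < 2 * s := by
  rw [F23_adj] at h
  unfold Ce at h
  omega

theorem F23_m0 : mr s 0 = 0 := if_pos rfl

theorem F23_m1 {i : ℕ} (h : i ≠ 0) : mr s i = 2 * s - i := if_neg h

theorem F23_me (hs : 8 ≤ s) {i j : ℕ} (h : Ce s i j) :
    mr s i ≠ mr s j ∧ (Ce s (mr s i) (mr s j) ∨ Ce s (mr s j) (mr s i)) := by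
  rcases h with ⟨h1, h2⟩ | ⟨h1, h2⟩ | ⟨h1, h2⟩ | ⟨h1, h2⟩ | ⟨h1, h2⟩
  · rw [F23_m1 (i := j) (by omega)]
    by_cases h0 : i = 0
    · rw [h0, F23_m0]
      exact ⟨by omega, Or.inl (Or.inr (Or.inl ⟨rfl, by omega⟩))⟩
    · rw [F23_m1 h0]
      exact ⟨by omega, Or.inr (Or.inl ⟨by omega, by omega⟩)⟩
  · rw [F23_m1 (i := j) (by omega), h1, F23_m0]
    exact ⟨by omega, Or.inl (Or.inl ⟨by omega, by omega⟩)⟩
  · rw [F23_m1 (i := j) (by omega), F23_m1 (i := i) (by omega)]
    exact ⟨by omega, Or.inr (Or.inr (Or.inr (Or.inl ⟨by omega, by omega⟩)))⟩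
  · rw [F23_m1 (i := j) (by omega), F23_m1 (i := i) (by omega)]
    exact ⟨by omega, Or.inr (Or.inr (Or.inr (Or.inr (Or.inr ⟨by omega, by omega⟩))))⟩
  · rw [F23_m1 (i := j) (by omega), F23_m1 (i := i) (by omega)]
    exact ⟨by omega, Or.inr (Or.inr (Or.inr (Or.inr (Or.inl ⟨by omega, by omega⟩))))⟩

theorem F23_mr (hs : 8 ≤ s) {i j : ℕ} (h : (Cg s).Adj i j) : (Cg s).Adj (mr s i) (mr s j) := by
  rcases (F23_adj.1 h).2 with e | e
  · exact F23_adj.2 (F23_me hs e)
  · exact (F23_adj.2 (F23_me hs e)).symm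

/-- S34. -/
theorem C_mr (hs : 8 ≤ s) {l : List ℕ} (h : P (Cg s) l) (hl : ∀ i ∈ l, i < 2 * s) :
    P (Cg s) (l.map (mr s)) := by
  refine ⟨h.1.map_on fun x hx y hy e => ?_, ?_⟩
  · have h1 := hl x hx
    have h2 := hl y hy
    unfold mr at e
    split_ifs at e <;> omega
  · rw [List.isChain_map]
    exact h.2.imp fun _ _ e => F23_mr hs e

/-- S34. -/
theorem hh_mr {i : ℕ} (h : i < 2 * s) : hh s δ (mr s i) = hh s δ i := by
  by_cases h0 : i = 0
  · subst h0
    rfl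
  · have e : mr s i = 2 * s - i := if_neg h0
    have e1 : min (2 * s - i) (2 * s - (2 * s - i)) = min i (2 * s - i) := by omega
    have e2 : 2 * s - i ≠ 0 := by omega
    rw [e]
    unfold hh
    rw [if_neg h0, if_neg e2, e1]

theorem F23_lt (hs : 8 ≤ s) : ∀ (B : List ℕ) (a y : ℕ), P (Cg s) (a :: y :: B) →
    ∀ i ∈ a :: y :: B, i < 2 * s := by
  intro B
  induction B with
  | nil =>
    intro a y h i hi
    rcases List.mem_cons.1 hi with rfl | hi
    · exact C_lt hs h.adj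
    · rw [List.mem_singleton.1 hi]
      exact C_lt hs h.adj.symm
  | cons z B ih =>
    intro a y h i hi
    rcases List.mem_cons.1 hi with rfl | hi
    · exact C_lt hs h.adj
    · exact ih y z h.tail i hi

/-- S34. A path misses the set `F`. -/
theorem C_len (hs : 8 ≤ s) {a b : ℕ} {M : List ℕ} (h : P (Cg s) (a :: (M ++ [b]))) (F : Finset ℕ)
    (hF : ∀ i ∈ F, i < 2 * s ∧ i ∉ a :: (M ++ [b])) : M.length + 2 + F.card ≤ 2 * s := by
  have hl : ∀ i ∈ a :: (M ++ [b]), i < 2 * s := by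
    cases M with
    | nil => exact F23_lt hs [] a b h
    | cons y M => exact F23_lt hs (M ++ [b]) a y h
  have hd : Disjoint (a :: (M ++ [b])).toFinset F :=
    Finset.disjoint_right.2 fun i hi hm => (hF i hi).2 (List.mem_toFinset.1 hm)
  have hc : ((a :: (M ++ [b])).toFinset ∪ F).card ≤ (Finset.range (2 * s)).card := by
    refine Finset.card_le_card fun i hi => Finset.mem_range.2 ?_
    rcases Finset.mem_union.1 hi with hi | hi
    · exact hl i (List.mem_toFinset.1 hi)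
    · exact (hF i hi).1
  rw [Finset.card_union_of_disjoint hd, List.toFinset_card_of_nodup h.1, Finset.card_range,
    List.length_cons, List.length_append, List.length_singleton] at hc
  omega

theorem F23_nb {i j : ℕ} (h : (Cg s).Adj i j) (h1 : 2 ≤ i) (h2 : i + 2 ≤ s) :
    j = i + 1 ∨ j + 1 = i := by
  rw [F23_adj] at h
  unfold Ce at h
  omega

theorem F23_up : ∀ (B : List ℕ) (x : ℕ), P (Cg s) (x :: (x + 1) :: B) → 1 ≤ x → x + 2 ≤ s →
    ¬ (2 ≤ B.getLastD (x + 1) ∧ B.getLastD (x + 1) + 2 ≤ s) →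
    ∃ R, x :: (x + 1) :: B = List.range' x (s - x) ++ R := by
  intro B
  induction B with
  | nil =>
    intro x _ h1 h2 hb
    have e : s - x = 2 := by
      rw [List.getLastD_nil] at hb
      omega
    exact ⟨[], by rw [e]; rfl⟩
  | cons z B ih =>
    intro x h h1 h2 hb
    by_cases e : s - x = 2
    · exact ⟨z :: B, by rw [e]; rfl⟩
    · have hz : z ≠ x := fun e' => h.notMem (by rw [e']; simp)
      have hz' : z = x + 1 + 1 := by
        have := F23_nb h.tail.adj (by omega) (by omega)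
        omega
      subst hz'
      rw [List.getLastD_cons] at hb
      obtain ⟨R, hR⟩ := ih (x + 1) h.tail (by omega) (by omega) hb
      have e2 : s - x = s - (x + 1) + 1 := by omega
      exact ⟨R, by rw [hR, e2, List.range'_succ]; rfl⟩

theorem F23_down : ∀ (B : List ℕ) (x : ℕ), P (Cg s) ((x + 1) :: x :: B) → 1 ≤ x → x + 2 ≤ s →
    ¬ (2 ≤ B.getLastD x ∧ B.getLastD x + 2 ≤ s) →
    ∃ R, (x + 1) :: x :: B = (List.range' 1 (x + 1)).reverse ++ R := by
  intro B
  induction B with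
  | nil =>
    intro x _ h1 h2 hb
    have e : x = 1 := by
      rw [List.getLastD_nil] at hb
      omega
    exact ⟨[], by rw [e]; rfl⟩
  | cons z B ih =>
    intro x h h1 h2 hb
    by_cases e : x = 1
    · exact ⟨z :: B, by rw [e]; rfl⟩
    · have hz : z ≠ x + 1 := fun e' => h.notMem (by rw [e']; simp)
      have hz' : z + 1 = x := by
        have := F23_nb h.tail.adj (by omega) (by omega)
        omega
      subst hz'
      rw [List.getLastD_cons] at hb
      obtain ⟨R, hR⟩ := ih z h.tail (by omega) (by omega) hb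
      refine ⟨R, ?_⟩
      rw [hR, List.range'_concat (n := z + 1), List.reverse_append, List.reverse_singleton,
        Nat.one_mul, Nat.add_comm 1 (z + 1)]
      rfl

theorem F23_mid : ∀ (B : List ℕ) (a y i : ℕ), P (Cg s) (a :: y :: B) → i ∈ y :: B →
    i ≠ B.getLastD y → ∃ p q, p ≠ q ∧ (Cg s).Adj i p ∧ (Cg s).Adj i q ∧ p ∈ a :: y :: B ∧
      q ∈ B ∧ (p = a → i = y) := by
  intro B
  induction B with
  | nil =>
    intro a y i _ hi hne
    exact absurd (List.mem_singleton.1 hi) hne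
  | cons z B ih =>
    intro a y i h hi hne
    rcases List.mem_cons.1 hi with rfl | hi
    · exact ⟨a, z, fun e => h.notMem (by rw [e]; simp), h.adj.symm, h.tail.adj,
        List.mem_cons_self, List.mem_cons_self, fun _ => rfl⟩
    · rw [List.getLastD_cons] at hne
      obtain ⟨p, q, h1, h2, h3, h4, h5, -⟩ := ih y z i h.tail hi hne
      exact ⟨p, q, h1, h2, h3, List.mem_cons_of_mem _ h4, List.mem_cons_of_mem _ h5,
        fun e => absurd (e ▸ h4) h.notMem⟩

theorem F23_step {a y i : ℕ} {B : List ℕ} (h : P (Cg s) (a :: y :: B))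
    (hb : ¬ (2 ≤ B.getLastD y ∧ B.getLastD y + 2 ≤ s)) (h1 : 2 ≤ i) (h2 : i + 2 ≤ s)
    (ha : i ≠ a) (hy : i ≠ y) (hi : i ∈ a :: y :: B) :
    (i + 1 ≠ a ∧ i + 1 ∈ a :: y :: B) ∧ (i - 1 ≠ a ∧ i - 1 ∈ a :: y :: B) := by
  obtain ⟨p, q, hne, hp, hq, mp, mq, e⟩ := F23_mid B a y i h
    ((List.mem_cons.1 hi).resolve_left ha) (fun e => hb (e ▸ ⟨h1, h2⟩))
  have pa : p ≠ a := fun e' => hy (e e')
  have qa : q ≠ a := fun e' => h.notMem (e' ▸ List.mem_cons_of_mem _ mq)
  have mq' : q ∈ a :: y :: B := List.mem_cons_of_mem _ (List.mem_cons_of_mem _ mq)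
  have n1 := F23_nb hp h1 h2
  have n2 := F23_nb hq h1 h2
  have hc : (p = i + 1 ∧ q = i - 1) ∨ (q = i + 1 ∧ p = i - 1) := by omega
  rcases hc with ⟨e1, e2⟩ | ⟨e1, e2⟩
  · exact ⟨⟨e1 ▸ pa, e1 ▸ mp⟩, e2 ▸ qa, e2 ▸ mq'⟩
  · exact ⟨⟨e1 ▸ qa, e1 ▸ mq'⟩, e2 ▸ pa, e2 ▸ mp⟩

/-- S35. A path which starts in the first thread and does not end there misses one side of it. -/
theorem C_side (hs : 8 ≤ s) {a y : ℕ} {B : List ℕ} (h : P (Cg s) (a :: y :: B)) (h1 : 2 ≤ a)
    (h2 : a + 2 ≤ s) (hb : ¬ (2 ≤ B.getLastD y ∧ B.getLastD y + 2 ≤ s)) :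
    (y = a + 1 ∧ (∀ i, 2 ≤ i → i < a → i ∉ a :: y :: B) ∧
        ∃ R, a :: y :: B = List.range' a (s - a) ++ R) ∨
      (y + 1 = a ∧ (∀ i, a < i → i + 2 ≤ s → i ∉ a :: y :: B) ∧
        ∃ R, a :: y :: B = (List.range' 1 a).reverse ++ R) := by
  rcases F23_nb h.adj h1 h2 with e | e
  · refine Or.inl ⟨e, ?_, ?_⟩
    · have key : ∀ d i, a ≤ i + d → 2 ≤ i → i < a → i ∉ a :: y :: B := by
        intro d
        induction d with
        | zero => intro i k1 k2 k3; omega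
        | succ d ih =>
          intro i k1 k2 k3 hi
          obtain ⟨⟨m1, m2⟩, -⟩ := F23_step h hb k2 (by omega) (by omega) (by omega) hi
          exact ih (i + 1) (by omega) (by omega) (by omega) m2
      exact fun i => key a i (by omega)
    · subst e
      exact F23_up B a h (by omega) h2 hb
  · refine Or.inr ⟨e, ?_, ?_⟩
    · have key : ∀ i, a < i → i + 2 ≤ s → i ∉ a :: y :: B := by
        intro i
        induction i with
        | zero => intro k1; omega
        | succ i ih =>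
          intro k1 k2 hi
          obtain ⟨-, m1, m2⟩ := F23_step h hb (by omega) k2 (by omega) (by omega) hi
          rw [Nat.add_sub_cancel] at m1 m2
          exact ih (by omega) (by omega) m2
      exact key
    · subst e
      exact F23_down B y h (by omega) (by omega) hb

theorem F24_su {l : List ℕ} (h : l.Nodup) {p x y : ℕ} (h1 : [p, x] <:+: l) (h2 : [p, y] <:+: l) :
    x = y := by
  obtain ⟨A, B, rfl⟩ := h1
  obtain ⟨A', B', e⟩ := h2
  have e1 : A ++ [p, x] ++ B = A ++ p :: (x :: B) := by simp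
  have e2 : A' ++ [p, y] ++ B' = A' ++ p :: (y :: B') := by simp
  rw [e1] at h
  rw [e1, e2] at e
  have n1 : p ∉ A := fun hp => List.disjoint_of_nodup_append h hp List.mem_cons_self
  have n2 : p ∉ x :: B := (List.nodup_cons.1 h.of_append_right).1
  have := (List.append_cons_inj_of_notMem n1 n2).1 e.symm
  exact (List.cons.inj this.2.2).1

theorem F24_rev {l : List ℕ} {p q : ℕ} (h : [p, q] <:+: l) : [q, p] <:+: l.reverse := by
  obtain ⟨A, B, rfl⟩ := h
  exact ⟨B.reverse, A.reverse, by simp⟩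

theorem F24_pu {l : List ℕ} (h : l.Nodup) {q x y : ℕ} (h1 : [x, q] <:+: l) (h2 : [y, q] <:+: l) :
    x = y := by
  exact F24_su (List.nodup_reverse.2 h) (F24_rev h1) (F24_rev h2)

theorem F24_hd {a p q : ℕ} {T : List ℕ} (h : (a :: T).Nodup) (h1 : [p, q] <:+: a :: T) :
    q ≠ a := by
  obtain ⟨A, B, e⟩ := h1
  rintro rfl
  refine (List.nodup_cons.1 h).1 ?_
  cases A with
  | nil =>
    have := (List.cons.inj e).2
    rw [← this]; simp
  | cons c A =>
    have := (List.cons.inj e).2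
    rw [← this]; simp

theorem F24_edge {G : SimpleGraph ℕ} {a b p q : ℕ} {M : List ℕ} (h : P G (a :: (M ++ [b])))
    (h1 : [p, q] <:+: a :: (M ++ [b])) :
    G.Adj p q ∧ p ∈ a :: (M ++ [b]) ∧ q ∈ a :: (M ++ [b]) ∧ q ≠ a ∧ p ≠ b := by
  refine ⟨(h.sub h1).adj, h1.subset (by simp), h1.subset (by simp), F24_hd h.1 h1, ?_⟩
  have e : (a :: (M ++ [b])).reverse = b :: (M.reverse ++ [a]) := by simp
  refine F24_hd (T := M.reverse ++ [a]) (p := q) (e ▸ h.reverse.1) ?_
  rw [← e]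
  exact F24_rev h1

theorem F24_int {G : SimpleGraph ℕ} {a b x : ℕ} {M : List ℕ} (h : P G (a :: (M ++ [b])))
    (hx : x ∈ a :: (M ++ [b])) (ha : x ≠ a) (hb : x ≠ b) :
    ∃ p q, [p, x] <:+: a :: (M ++ [b]) ∧ [x, q] <:+: a :: (M ++ [b]) ∧ p ≠ q := by
  have hm : x ∈ M := by simpa [ha, hb] using hx
  obtain ⟨A, B, rfl⟩ := List.append_of_mem hm
  obtain ⟨A', p, hA⟩ : ∃ A' p, a :: A = A' ++ [p] := by
    rcases List.eq_nil_or_concat' (a :: A) with e | e
    · cases e
    · exact e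
  obtain ⟨q, B', hB⟩ : ∃ q B', B ++ [b] = q :: B' := by
    cases B with
    | nil => exact ⟨b, [], rfl⟩
    | cons c B => exact ⟨c, B ++ [b], rfl⟩
  have e : a :: (A ++ x :: B ++ [b]) = A' ++ p :: x :: q :: B' := by
    have : a :: (A ++ x :: B ++ [b]) = (a :: A) ++ x :: (B ++ [b]) := by simp
    rw [this, hA, hB]; simp
  rw [e] at h ⊢
  refine ⟨p, q, ⟨A', q :: B', by simp⟩, ⟨A' ++ [p], B', by simp⟩, ?_⟩
  rintro rfl
  exact h.right.notMem (by simp)

theorem F24_adj {i j : ℕ} (h : (Cg s).Adj i j) : Ce s i j ∨ Ce s j i := h.2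

theorem F24_fin (hs : 8 ≤ s) {a : ℕ} {M : List ℕ} (h : P (Cg s) (a :: (M ++ [0])))
    (hM : ∀ i ∈ a :: (M ++ [0]), ¬ (2 ≤ i ∧ i + 2 ≤ s)) (X : Finset ℕ)
    (hX : ∀ i ∈ X, i < 2 * s ∧ ¬ (2 ≤ i ∧ i + 2 ≤ s) ∧ i ∉ a :: (M ++ [0])) :
    M.length + X.card ≤ s + 1 := by
  have hd : Disjoint (Finset.Icc 2 (s - 2)) X := by
    refine Finset.disjoint_left.2 fun i hi hx => (hX i hx).2.1 ?_
    rw [Finset.mem_Icc] at hi
    omega
  have := C_len hs h (Finset.Icc 2 (s - 2) ∪ X) (by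
    intro i hi
    rcases Finset.mem_union.1 hi with hi | hi
    · rw [Finset.mem_Icc] at hi
      exact ⟨by omega, fun hm => hM i hm (by omega)⟩
    · exact ⟨(hX i hi).1, (hX i hi).2.2⟩)
  rw [Finset.card_union_of_disjoint hd, Nat.card_Icc] at this
  omega

/-- S36. From `s - 1` to `0` outside the first thread one vertex is missed. -/
theorem C_v (hs : 8 ≤ s) {M : List ℕ} (h : P (Cg s) ((s - 1) :: (M ++ [0])))
    (hM : ∀ i ∈ M, ¬ (2 ≤ i ∧ i + 2 ≤ s)) : M.length ≤ s := by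
  have hM' : ∀ i ∈ (s - 1) :: (M ++ [0]), ¬ (2 ≤ i ∧ i + 2 ≤ s) := by
    intro i hi
    simp only [List.mem_cons, List.mem_append, List.not_mem_nil, or_false] at hi
    rcases hi with rfl | hi | rfl
    · omega
    · exact hM i hi
    · omega
  have fin : ∀ x, x < 2 * s → ¬ (2 ≤ x ∧ x + 2 ≤ s) → x ∉ (s - 1) :: (M ++ [0]) →
      M.length ≤ s := by
    intro x h1 h2 h3
    have := F24_fin hs h hM' {x} (by
      intro i hi
      rw [Finset.mem_singleton.1 hi]
      exact ⟨h1, h2, h3⟩)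
    rw [Finset.card_singleton] at this
    omega
  by_cases m1 : 1 ∈ (s - 1) :: (M ++ [0])
  swap
  · exact fin 1 (by omega) (by omega) m1
  by_cases ms : s ∈ (s - 1) :: (M ++ [0])
  swap
  · exact fin s (by omega) (by omega) ms
  refine fin (s + 2) (by omega) (by omega) fun m2 => ?_
  obtain ⟨-, q, -, e1, -⟩ := F24_int h ms (by omega) (by omega)
  obtain ⟨a1, -, -, n1, -⟩ := F24_edge h e1
  have q1 : q = s + 1 := by
    have := F24_adj a1
    unfold Ce at this
    omega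
  obtain ⟨p, -, e2, -, -⟩ := F24_int h m1 (by omega) (by omega)
  obtain ⟨a2, b2, -, -, n2⟩ := F24_edge h e2
  have p1 : p = s + 1 := by
    have := F24_adj a2
    have := hM' p b2
    unfold Ce at *
    omega
  subst q1 p1
  obtain ⟨u, v, e3, e4, n3⟩ := F24_int h m2 (by omega) (by omega)
  have a3 := F24_adj (F24_edge h e3).1
  have a4 := F24_adj (F24_edge h e4).1
  have : u = s + 1 ∨ v = s + 1 := by
    unfold Ce at a3 a4
    omega
  rcases this with rfl | rfl
  · have := F24_su h.1 e2 e3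
    omega
  · have := F24_pu h.1 e1 e4
    omega

/-- S36. From `1` to `0` outside the first thread two vertices are missed. -/
theorem C_u (hs : 8 ≤ s) {M : List ℕ} (h : P (Cg s) (1 :: (M ++ [0])))
    (hM : ∀ i ∈ M, ¬ (2 ≤ i ∧ i + 2 ≤ s)) : M.length + 1 ≤ s := by
  have hM' : ∀ i ∈ 1 :: (M ++ [0]), ¬ (2 ≤ i ∧ i + 2 ≤ s) := by
    intro i hi
    simp only [List.mem_cons, List.mem_append, List.not_mem_nil, or_false] at hi
    rcases hi with rfl | hi | rfl
    · omega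
    · exact hM i hi
    · omega
  have fin : ∀ x, x + 1 < 2 * s → s ≤ x + 1 → x ∉ 1 :: (M ++ [0]) → x + 1 ∉ 1 :: (M ++ [0]) →
      M.length + 1 ≤ s := by
    intro x h1 h2 h3 h4
    have := F24_fin hs h hM' {x, x + 1} (by
      intro i hi
      rcases Finset.mem_insert.1 hi with rfl | hi
      · exact ⟨by omega, by omega, h3⟩
      · rw [Finset.mem_singleton.1 hi]
        exact ⟨h1, by omega, h4⟩)
    rw [Finset.card_pair (by omega)] at this
    omega
  rcases M with _ | ⟨y, M⟩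
  · simp only [List.length_nil]; omega
  have e0 : [1, y] <:+: 1 :: (y :: M ++ [0]) := ⟨[], M ++ [0], by simp⟩
  have y0 : y ≠ 0 := by
    rintro rfl
    exact h.tail.notMem (by simp)
  obtain ⟨a0, -, b0, -, -⟩ := F24_edge h e0
  have y1 : y = s + 1 := by
    have := F24_adj a0
    have := hM' y b0
    unfold Ce at *
    omega
  subst y1
  obtain ⟨-, q, -, e1, -⟩ := F24_int h b0 (by omega) (by omega)
  have key : ∀ x, x ∈ 1 :: ((s + 1) :: M ++ [0]) → x ≠ 1 → x ≠ 0 → x ≠ q →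
      ∃ u v, (Ce s u x ∨ Ce s x u) ∧ (Ce s x v ∨ Ce s v x) ∧ u ≠ v ∧ u ≠ s + 1 ∧ v ≠ s + 1 ∧
        u ∈ 1 :: ((s + 1) :: M ++ [0]) ∧ v ∈ 1 :: ((s + 1) :: M ++ [0]) := by
    intro x hx x1 x0 xq
    obtain ⟨u, v, e3, e4, n3⟩ := F24_int h hx x1 x0
    refine ⟨u, v, F24_adj (F24_edge h e3).1, F24_adj (F24_edge h e4).1, n3, ?_, ?_,
      (F24_edge h e3).2.1, (F24_edge h e4).2.2.1⟩
    · rintro rfl
      exact xq (F24_su h.1 e3 e1)
    · rintro rfl
      exact x1 (F24_pu h.1 e4 e0)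
  by_cases hq : q = s + 2
  · have ns : s ∉ 1 :: ((s + 1) :: M ++ [0]) := fun m => by
      obtain ⟨u, v, a3, a4, n3, n4, n5, -, -⟩ := key s m (by omega) (by omega) (by omega)
      unfold Ce at a3 a4
      omega
    refine fin (s - 1) (by omega) (by omega) (fun m => ?_) (by rwa [Nat.sub_add_cancel (by omega)])
    obtain ⟨u, v, a3, a4, n3, n4, n5, m3, m4⟩ := key (s - 1) m (by omega) (by omega) (by omega)
    have := hM' u m3
    have := hM' v m4
    have : u ≠ s := fun e => ns (e ▸ m3)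
    have : v ≠ s := fun e => ns (e ▸ m4)
    unfold Ce at a3 a4
    omega
  · have ns : s + 2 ∉ 1 :: ((s + 1) :: M ++ [0]) := fun m => by
      obtain ⟨u, v, a3, a4, n3, n4, n5, -, -⟩ :=
        key (s + 2) m (by omega) (by omega) (fun e => hq e.symm)
      unfold Ce at a3 a4
      omega
    refine fin (s + 2) (by omega) (by omega) ns fun m => ?_
    obtain ⟨u, v, e3, e4, n3⟩ := F24_int h m (by omega) (by omega)
    have a3 := F24_adj (F24_edge h e3).1
    have a4 := F24_adj (F24_edge h e4).1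
    have : u ≠ s + 2 := fun e => ns (e ▸ (F24_edge h e3).2.1)
    have : v ≠ s + 2 := fun e => ns (e ▸ (F24_edge h e4).2.2.1)
    unfold Ce at a3 a4
    omega

theorem F25_lt (hs : 8 ≤ s) (B : List ℕ) : ∀ x y, P (Cg s) (x :: y :: B) →
    ∀ i ∈ x :: y :: B, i < 2 * s := by
  induction B with
  | nil =>
    intro x y h i hi
    rcases List.mem_cons.1 hi with rfl | hi
    · exact C_lt hs h.adj
    · rw [List.mem_singleton.1 hi]; exact C_lt hs h.adj.symm
  | cons z B ih =>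
    intro x y h i hi
    rcases List.mem_cons.1 hi with rfl | hi
    · exact C_lt hs h.adj
    · exact ih y z h.tail i hi

theorem F25_form (M : List ℕ) (b : ℕ) : ∃ y B, M ++ [b] = y :: B ∧ B.getLastD y = b := by
  cases M with
  | nil => exact ⟨b, [], rfl, rfl⟩
  | cons m M => exact ⟨m, M ++ [b], rfl, by simp⟩

theorem F25_lt' (hs : 8 ≤ s) {a b : ℕ} {M : List ℕ} (h : P (Cg s) (a :: (M ++ [b]))) :
    ∀ i ∈ a :: (M ++ [b]), i < 2 * s := by
  obtain ⟨y, B, e, -⟩ := F25_form M b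
  rw [e] at h ⊢
  exact F25_lt hs B a y h

theorem F25_rev {a b : ℕ} {M : List ℕ} (h : P (Cg s) (a :: (M ++ [b]))) :
    P (Cg s) (b :: (M.reverse ++ [a])) := by
  simpa using h.reverse

theorem F25_mir (hs : 8 ≤ s) {a b : ℕ} {M : List ℕ} (h : P (Cg s) (a :: (M ++ [b]))) :
    P (Cg s) (mr s a :: (M.map (mr s) ++ [mr s b])) := by
  simpa using C_mr hs h (F25_lt' hs h)

theorem F25_split {M X R : List ℕ} {z : ℕ} (e : M ++ [z] = X ++ R) (hz : z ∉ X) :
    ∃ M', R = M' ++ [z] := by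
  rcases List.eq_nil_or_concat R with rfl | ⟨M', r, rfl⟩
  · rw [List.append_nil] at e
    exact absurd (e ▸ by simp) hz
  · rw [List.concat_eq_append, ← List.append_assoc] at e
    have := List.append_inj_right' e rfl
    exact ⟨M', by rw [List.concat_eq_append, this]⟩

theorem F25_e (hs : 8 ≤ s) {a b : ℕ} {M : List ℕ} (h : P (Cg s) (a :: (M ++ [b]))) (h1 : 2 ≤ a)
    (h2 : a + 2 ≤ s) (hb : ¬ (2 ≤ b ∧ b + 2 ≤ s)) :
    ∃ F : Finset ℕ, (∀ i ∈ F, 2 ≤ i ∧ i + 2 ≤ s ∧ i ∉ a :: (M ++ [b])) ∧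
      min (a - 1) (s - a) ≤ F.card + 2 := by
  obtain ⟨y, B, e, hl⟩ := F25_form M b
  rw [e] at h ⊢
  rcases C_side hs h h1 h2 (by rwa [hl]) with ⟨-, hm, -⟩ | ⟨-, hm, -⟩
  · refine ⟨Finset.Ico 2 a, fun i hi => ?_, by rw [Nat.card_Ico]; omega⟩
    have := Finset.mem_Ico.1 hi
    exact ⟨this.1, by omega, hm i this.1 this.2⟩
  · refine ⟨Finset.Ico (a + 1) (s - 1), fun i hi => ?_, by rw [Nat.card_Ico]; omega⟩
    have := Finset.mem_Ico.1 hi
    exact ⟨by omega, by omega, hm i (by omega) (by omega)⟩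

theorem F25_f (hs : 8 ≤ s) {a b : ℕ} {M : List ℕ} (h : P (Cg s) (a :: (M ++ [b])))
    (h1 : s + 2 ≤ a) (h2 : a + 2 ≤ 2 * s) (hb : ¬ (s + 2 ≤ b ∧ b + 2 ≤ 2 * s)) :
    ∃ F : Finset ℕ, (∀ i ∈ F, s + 2 ≤ i ∧ i + 2 ≤ 2 * s ∧ i ∉ a :: (M ++ [b])) ∧
      min (2 * s - a - 1) (a - s) ≤ F.card + 2 := by
  have ea : mr s a = 2 * s - a := if_neg (by omega)
  obtain ⟨F, hF, hc⟩ := F25_e hs (F25_mir hs h) (by omega) (by omega)
    (by unfold mr; split_ifs <;> omega)
  refine ⟨F.image fun i => 2 * s - i, fun j hj => ?_, ?_⟩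
  · obtain ⟨i, hi, rfl⟩ := Finset.mem_image.1 hj
    obtain ⟨a1, a2, a3⟩ := hF i hi
    refine ⟨by omega, by omega, fun hm => a3 ?_⟩
    have := List.mem_map_of_mem (f := mr s) hm
    have e : mr s (2 * s - i) = i := by unfold mr; split_ifs <;> omega
    rw [e] at this
    simpa using this
  · rw [Finset.card_image_of_injOn fun i hi j hj e => by
      have := hF i hi
      have := hF j hj
      omega]
    omega

theorem F25_zero (hs : 8 ≤ s) {a : ℕ} {M : List ℕ} (h : P (Cg s) (a :: (M ++ [0]))) (h1 : 2 ≤ a)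
    (h2 : a + 2 ≤ s) : min (a - 1) (s - a) + M.length + 2 ≤ 2 * s := by
  obtain ⟨y, B, e, hl⟩ := F25_form M 0
  have h' := h
  rw [e] at h'
  rcases C_side hs h' h1 h2 (by rw [hl]; omega) with ⟨-, hm, R, hR⟩ | ⟨-, hm, R, hR⟩
  · rw [← e] at hm hR
    obtain ⟨M', rfl⟩ := F25_split (M := a :: M) (z := 0) hR (by
      rw [List.mem_range'_1]; omega)
    have hd := (hR ▸ h).disj
    have hlen := congrArg List.length hR
    obtain ⟨n, hn⟩ : ∃ n, s - a = n + 1 := ⟨s - a - 1, by omega⟩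
    have h3 := hR ▸ h
    rw [hn, List.range'_1_concat, show a + n = s - 1 by omega, List.append_assoc] at h3
    have := C_v hs (M := M') h3.right fun i hi hi' => by
      by_cases c : i < a
      · exact hm i hi'.1 c (by rw [hR]; simp [hi])
      · exact hd (List.mem_range'_1.2 (by omega : a ≤ i ∧ i < a + (s - a))) (by simp [hi])
    simp only [List.length_cons, List.length_append, List.length_range', List.length_nil] at hlen
    omega
  · rw [← e] at hm hR
    obtain ⟨M', rfl⟩ := F25_split (M := a :: M) (z := 0) hR (by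
      rw [List.mem_reverse, List.mem_range'_1]; omega)
    have hd := (hR ▸ h).disj
    have hlen := congrArg List.length hR
    obtain ⟨n, hn⟩ : ∃ n, a = n + 1 := ⟨a - 1, by omega⟩
    have h3 := hR ▸ h
    rw [show List.range' 1 a = 1 :: List.range' 2 n by rw [hn]; rfl, List.reverse_cons,
      List.append_assoc] at h3
    have := C_u hs (M := M') h3.right fun i hi hi' => by
      by_cases c : a < i
      · exact hm i c hi'.2 (by rw [hR]; simp [hi])
      · exact hd (List.mem_reverse.2 (List.mem_range'_1.2 (by omega : 1 ≤ i ∧ i < 1 + a)))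
          (by simp [hi])
    simp only [List.length_cons, List.length_append, List.length_range', List.length_nil,
      List.length_reverse] at hlen
    omega

theorem F25_end0 (hs : 8 ≤ s) {a : ℕ} {M : List ℕ} (h : P (Cg s) (a :: (M ++ [0]))) :
    hh s δ a + M.length + 2 ≤ 2 * s := by
  have ha : a ≠ 0 := fun e => h.notMem (by simp [e])
  have hl := C_len hs h ∅ (by simp)
  rw [Finset.card_empty] at hl
  by_cases c1 : 2 ≤ a ∧ a + 2 ≤ s
  · have := F25_zero hs h c1.1 c1.2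
    unfold hh; split_ifs <;> omega
  by_cases c2 : s + 2 ≤ a ∧ a + 2 ≤ 2 * s
  · have h' := F25_mir hs h
    rw [show mr s a = 2 * s - a from if_neg ha, show mr s 0 = 0 from if_pos rfl] at h'
    have := F25_zero hs h' (by omega) (by omega)
    rw [List.length_map] at this
    unfold hh; split_ifs <;> omega
  unfold hh; split_ifs <;> omega

theorem F25_hh {a : ℕ} (ha : a ≠ 0) : hh s δ a = 0 ∨
    (2 ≤ a ∧ a + 2 ≤ s ∧ hh s δ a = min (a - 1) (s - a)) ∨
    (s + 2 ≤ a ∧ a + 2 ≤ 2 * s ∧ hh s δ a = min (2 * s - a - 1) (a - s)) := by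
  unfold hh; split_ifs <;> omega

theorem F25_one (hs : 8 ≤ s) {a b : ℕ} {M : List ℕ} (h : P (Cg s) (a :: (M ++ [b]))) (ha : a ≠ 0)
    (hb : hh s δ b = 0) : hh s δ a + M.length ≤ 2 * s := by
  rcases F25_hh (s := s) (δ := δ) ha with c | ⟨c1, c2, c⟩ | ⟨c1, c2, c⟩
  · have := C_len hs h ∅ (by simp)
    omega
  · obtain ⟨F, hF, hc⟩ := F25_e hs h c1 c2 (by
      unfold hh at hb; split_ifs at hb <;> omega)
    have := C_len hs h F fun i hi => ⟨by have := hF i hi; omega, (hF i hi).2.2⟩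
    omega
  · obtain ⟨F, hF, hc⟩ := F25_f hs h c1 c2 (by
      unfold hh at hb; split_ifs at hb <;> omega)
    have := C_len hs h F fun i hi => ⟨by have := hF i hi; omega, (hF i hi).2.2⟩
    omega

theorem F25_two (hs : 8 ≤ s) {a b : ℕ} {M : List ℕ} (h : P (Cg s) (a :: (M ++ [b])))
    (a1 : 2 ≤ a) (a2 : a + 2 ≤ s) (b1 : s + 2 ≤ b) (b2 : b + 2 ≤ 2 * s) :
    min (a - 1) (s - a) + M.length + min (2 * s - b - 1) (b - s) ≤ 2 * s + 2 := by
  obtain ⟨F, hF, hc⟩ := F25_e hs h a1 a2 (by omega)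
  obtain ⟨F', hF', hc'⟩ := F25_f hs (F25_rev h) b1 b2 (by omega)
  have hd : Disjoint F F' := Finset.disjoint_left.2 fun i hi hi' => by
    have := hF i hi
    have := hF' i hi'
    omega
  have := C_len hs h (F ∪ F') fun i hi => by
    rcases Finset.mem_union.1 hi with hi | hi
    · exact ⟨by have := hF i hi; omega, (hF i hi).2.2⟩
    · refine ⟨by have := hF' i hi; omega, fun hm => (hF' i hi).2.2 ?_⟩
      simp only [List.mem_cons, List.mem_append, List.mem_reverse, List.not_mem_nil] at hm ⊢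
      tauto
  rw [Finset.card_union_of_disjoint hd] at this
  omega

/-- S37. -/
theorem C_pf (hs : 8 ≤ s) (h1 : s ≤ δ + 2) (h2 : δ ≤ s) :
    WPF (2 * s + δ + 1) (Cg s) (hh s δ) := by
  refine ⟨fun a => by unfold hh; split_ifs <;> omega, fun a M b h => ?_⟩
  have hr := F25_rev h
  have hab : a ≠ b := fun e => h.notMem (by simp [e])
  by_cases b0 : b = 0
  · subst b0
    have := F25_end0 (δ := δ) hs h
    rw [show hh s δ 0 = δ from if_pos rfl]
    omega
  by_cases a0 : a = 0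
  · subst a0
    have := F25_end0 (δ := δ) hs hr
    rw [List.length_reverse] at this
    rw [show hh s δ 0 = δ from if_pos rfl]
    omega
  have hl := C_len hs h ∅ (by simp)
  rw [Finset.card_empty] at hl
  rcases F25_hh (s := s) (δ := δ) b0 with d | ⟨d1, d2, d⟩ | ⟨d1, d2, d⟩
  · have := F25_one hs h a0 d
    omega
  · rcases F25_hh (s := s) (δ := δ) a0 with c | ⟨c1, c2, c⟩ | ⟨c1, c2, c⟩
    · have := F25_one hs hr b0 c
      rw [List.length_reverse] at this
      omega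
    · omega
    · have := F25_two hs hr d1 d2 c1 c2
      rw [List.length_reverse] at this
      omega
  · rcases F25_hh (s := s) (δ := δ) a0 with c | ⟨c1, c2, c⟩ | ⟨c1, c2, c⟩
    · have := F25_one hs hr b0 c
      rw [List.length_reverse] at this
      omega
    · have := F25_two hs h c1 c2 d1 d2
      omega
    · omega

end PS
end

section
/-! The core: every new edge creates a long weighted path. -/

open SimpleGraph

namespace PS
variable {s δ a b k : ℕ}

/-- S38. -/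
theorem C_up (a n : ℕ) (h : a + n ≤ 2 * s) : P (Cg s) (List.range' a n) := by
  refine ⟨List.nodup_range', ?_⟩
  induction n generalizing a with
  | zero => exact List.IsChain.nil
  | succ n ih =>
    cases n with
    | zero => exact List.isChain_singleton a
    | succ n =>
      have e := ih (a + 1) (by omega)
      rw [List.range'_succ] at e
      rw [List.range'_succ, List.range'_succ]
      exact List.isChain_cons_cons.2 ⟨⟨by omega, Or.inl (Or.inl ⟨rfl, by omega⟩)⟩, e⟩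

/-- S38. -/
theorem CrC.symm {U : Type} {C : SimpleGraph U} {h : U → ℕ} {a b : U} (hc : CrC k C h a b) :
    CrC k C h b a := by
  obtain ⟨A, B, h1, h2, h3, h4⟩ := hc
  exact ⟨B, A, h2, h1, h3.symm, by omega⟩

/-- S38. -/
theorem CrC.le {U : Type} {C : SimpleGraph U} {h : U → ℕ} {a b : U} {k' : ℕ} (hc : CrC k C h a b)
    (hk : k' ≤ k) : CrC k' C h a b := by
  obtain ⟨A, B, h1, h2, h3, h4⟩ := hc
  exact ⟨A, B, h1, h2, h3, hk.trans h4⟩

theorem F26_lt (hs : 8 ≤ s) {x : ℕ} {A : List ℕ} (h : P (Cg s) (x :: A)) (hx : x < 2 * s) :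
    ∀ i ∈ x :: A, i < 2 * s := by
  induction A generalizing x with
  | nil => intro i hi; rw [List.mem_singleton.1 hi]; exact hx
  | cons y l ih =>
    intro i hi
    rcases List.mem_cons.1 hi with rfl | hi
    · exact hx
    · exact ih h.tail (C_lt hs h.adj.symm) i hi

theorem F26_mr_lt (ha : a < 2 * s) : mr s a < 2 * s := by
  unfold mr
  split_ifs <;> omega

theorem F26_mr_mr (ha : a < 2 * s) : mr s (mr s a) = a := by
  unfold mr
  split_ifs <;> omega

theorem F26_last (f : ℕ → ℕ) (A : List ℕ) (x : ℕ) :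
    (A.map f).getLastD (f x) = f (A.getLastD x) := by
  induction A generalizing x with
  | nil => rfl
  | cons y l ih => simpa only [List.map_cons, List.getLastD_cons] using ih y

theorem F26_last_mem (A : List ℕ) (x : ℕ) : A.getLastD x ∈ x :: A := by
  induction A generalizing x with
  | nil => simp
  | cons y l ih =>
    rw [List.getLastD_cons]
    exact List.mem_cons_of_mem _ (ih y)

theorem F26_mr (hs : 8 ≤ s) {x : ℕ} (hx : x < 2 * s) {A : List ℕ} (h : P (Cg s) (x :: A)) :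
    P (Cg s) (mr s x :: A.map (mr s)) ∧
      hh s δ ((A.map (mr s)).getLastD (mr s x)) = hh s δ (A.getLastD x) :=
  ⟨C_mr hs h (F26_lt hs h hx), by
    rw [F26_last, hh_mr (F26_lt hs h hx _ (F26_last_mem A x))]⟩

theorem F26_crc (hs : 8 ≤ s) (ha : a < 2 * s) (hb : b < 2 * s)
    (hc : CrC k (Cg s) (hh s δ) a b) : CrC k (Cg s) (hh s δ) (mr s a) (mr s b) := by
  obtain ⟨A, B, h1, h2, h3, h4⟩ := hc
  obtain ⟨e1, e2⟩ := F26_mr (δ := δ) hs ha h1
  obtain ⟨e3, e4⟩ := F26_mr (δ := δ) hs hb h2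
  refine ⟨_, _, e1, e3, ?_, by rw [e2, e4, List.length_map, List.length_map]; exact h4⟩
  intro z hz hz'
  rw [← List.map_cons] at hz hz'
  obtain ⟨x, hx, rfl⟩ := List.mem_map.1 hz
  obtain ⟨y, hy, e⟩ := List.mem_map.1 hz'
  have e5 := congrArg (mr s) e
  rw [F26_mr_mr (F26_lt hs h1 ha x hx), F26_mr_mr (F26_lt hs h2 hb y hy)] at e5
  exact h3 hx (e5 ▸ hy)

theorem F26_ti (hs : 8 ≤ s) (ha : a < 2 * s) (hc : Ti k (Cg s) (hh s δ) a) :
    Ti k (Cg s) (hh s δ) (mr s a) := by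
  obtain ⟨y, B, h1, h2⟩ := hc
  obtain ⟨e1, -⟩ := F26_mr (δ := δ) hs ha h1
  obtain ⟨-, e2⟩ := F26_mr (δ := δ) hs (C_lt hs h1.adj.symm) h1.tail
  exact ⟨mr s y, B.map (mr s), e1, by rw [e2, hh_mr ha, List.length_map]; exact h2⟩

/-- S38. -/
theorem CrC.mr (hs : 8 ≤ s) (ha : a < 2 * s) (hb : b < 2 * s)
    (hc : CrC k (Cg s) (hh s δ) (mr s a) (mr s b)) : CrC k (Cg s) (hh s δ) a b := by
  have e := F26_crc hs (F26_mr_lt ha) (F26_mr_lt hb) hc
  rwa [F26_mr_mr ha, F26_mr_mr hb] at e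

/-- S38. -/
theorem Ti.mr (hs : 8 ≤ s) (ha : a < 2 * s) (hc : Ti k (Cg s) (hh s δ) (mr s a)) :
    Ti k (Cg s) (hh s δ) a := by
  have e := F26_ti hs (F26_mr_lt ha) hc
  rwa [F26_mr_mr ha] at e

/-- The list `l` is a path from `x` to `y`. -/
def F26_Sg (s : ℕ) (l : List ℕ) (x y : ℕ) : Prop :=
  P (Cg s) l ∧ l.head? = some x ∧ l.getLast? = some y

theorem F26_up {x y n : ℕ} (h : x + n = y + 1) (h1 : x ≤ y) (h2 : y < 2 * s) :
    F26_Sg s (List.range' x n) x y := by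
  obtain ⟨n, rfl⟩ : ∃ m, n = m + 1 := ⟨n - 1, by omega⟩
  refine ⟨C_up x _ (by omega), by rw [List.range'_succ]; rfl, ?_⟩
  rw [List.range'_1_concat, List.getLast?_concat]
  congr 1
  omega

theorem F26_Sg.rev {l : List ℕ} {x y : ℕ} (h : F26_Sg s l x y) : F26_Sg s l.reverse y x :=
  ⟨h.1.reverse, by rw [List.head?_reverse]; exact h.2.2, by rw [List.getLast?_reverse]; exact h.2.1⟩

theorem F26_Sg.app {l l' : List ℕ} {x y x' y' : ℕ} (h : F26_Sg s l x y) (h' : F26_Sg s l' x' y')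
    (ha : (Cg s).Adj y x') (hd : l.Disjoint l') : F26_Sg s (l ++ l') x y' := by
  obtain ⟨h1, h2, h3⟩ := h
  obtain ⟨g1, g2, g3⟩ := h'
  refine ⟨?_, by rw [List.head?_append, h2]; rfl, by rw [List.getLast?_append, g3]; rfl⟩
  obtain ⟨A, rfl⟩ := List.getLast?_eq_some_iff.1 h3
  obtain ⟨B, rfl⟩ := List.head?_eq_some_iff.1 g2
  have e := h1.append g1 ha hd
  simpa using e

theorem F26_mk {l l' : List ℕ} {x y : ℕ} (h : F26_Sg s l a x) (h' : F26_Sg s l' b y)
    (hd : l.Disjoint l') (hk : k ≤ l.length + hh s δ x + l'.length + hh s δ y) :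
    CrC k (Cg s) (hh s δ) a b := by
  obtain ⟨h1, h2, h3⟩ := h
  obtain ⟨g1, g2, g3⟩ := h'
  obtain ⟨A, rfl⟩ := List.head?_eq_some_iff.1 h2
  obtain ⟨B, rfl⟩ := List.head?_eq_some_iff.1 g2
  rw [List.getLast?_cons, ← List.getLastD_eq_getLast?] at h3 g3
  refine ⟨A, B, h1, g1, hd, ?_⟩
  rw [Option.some.inj h3, Option.some.inj g3]
  simp only [List.length_cons] at hk
  omega

theorem F26_h0 : hh s δ 0 = δ := by simp [hh]

theorem F26_chord (hs : 8 ≤ s) : (Cg s).Adj (2 * s - 1) (s - 1) :=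
  ⟨by omega, Or.inr (Or.inr (Or.inr (Or.inr (Or.inl ⟨by omega, by omega⟩))))⟩

/-- S39. `a ↓ b + 1` and `b ↓ 0`. -/
theorem C_t1 (hs : 8 ≤ s) (h1 : b < a) (h2 : a < 2 * s) :
    CrC (a + 1 + δ + hh s δ (b + 1)) (Cg s) (hh s δ) a b := by
  refine F26_mk (F26_up (x := b + 1) (y := a) (n := a - b) (by omega) (by omega) h2).rev
    (F26_up (x := 0) (y := b) (n := b + 1) (by omega) (by omega) (by omega)).rev ?_ ?_
  · intro z hz hz'
    simp only [List.mem_reverse, List.mem_range'_1] at hz hz'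
    omega
  · simp only [List.length_reverse, List.length_range', F26_h0]
    omega

/-- S39. `a ↑ 2 s - 1, s - 1 ↓ b + 1` and `b ↓ 0`. -/
theorem C_t2 (hs : 8 ≤ s) (h1 : s ≤ a) (h2 : a < 2 * s) (h3 : b + 2 ≤ s) :
    CrC (3 * s - a + δ + hh s δ (b + 1)) (Cg s) (hh s δ) a b := by
  refine F26_mk ((F26_up (x := a) (y := 2 * s - 1) (n := 2 * s - a) (by omega) (by omega)
    (by omega)).app (F26_up (x := b + 1) (y := s - 1) (n := s - 1 - b) (by omega) (by omega)
    (by omega)).rev (F26_chord hs) ?_)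
    (F26_up (x := 0) (y := b) (n := b + 1) (by omega) (by omega) (by omega)).rev ?_ ?_
  · intro z hz hz'
    simp only [List.mem_reverse, List.mem_range'_1] at hz hz'
    omega
  · intro z hz hz'
    simp only [List.mem_append, List.mem_reverse, List.mem_range'_1] at hz hz'
    omega
  · simp only [List.length_append, List.length_reverse, List.length_range', F26_h0]
    omega

/-- S39. `a ↑ b - 1` and `b ↑ 2 s - 1, s - 1 ↓ 0`. -/
theorem C_t3 (hs : 8 ≤ s) (h1 : s ≤ a) (h2 : a < b) (h3 : b < 2 * s) :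
    CrC (3 * s - a + δ + hh s δ (b - 1)) (Cg s) (hh s δ) a b := by
  refine F26_mk (F26_up (x := a) (y := b - 1) (n := b - a) (by omega) (by omega) (by omega))
    ((F26_up (x := b) (y := 2 * s - 1) (n := 2 * s - b) (by omega) (by omega) (by omega)).app
      (F26_up (x := 0) (y := s - 1) (n := s) (by omega) (by omega) (by omega)).rev
      (F26_chord hs) ?_) ?_ ?_
  · intro z hz hz'
    simp only [List.mem_reverse, List.mem_range'_1] at hz hz'
    omega
  · intro z hz hz'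
    simp only [List.mem_append, List.mem_reverse, List.mem_range'_1] at hz hz'
    omega
  · simp only [List.length_append, List.length_reverse, List.length_range', F26_h0]
    omega

theorem F27_cons {U : Type} (f : ℕ → U) (n : ℕ) :
    f 0 :: (List.range n).map (fun i => f (i + 1)) = (List.range (n + 1)).map f := by
  rw [List.range_succ_eq_map, List.map_cons, List.map_map]
  rfl

theorem F27_P {U : Type} {C : SimpleGraph U} (f : ℕ → U) (n : ℕ)
    (ha : ∀ i < n, C.Adj (f i) (f (i + 1))) (hi : ∀ i ≤ n, ∀ j ≤ n, f i = f j → i = j) :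
    P C ((List.range (n + 1)).map f) := by
  refine ⟨List.Nodup.map_on (fun i h1 j h2 e => hi i ?_ j ?_ e) List.nodup_range, ?_⟩
  · exact Nat.le_of_lt_succ (List.mem_range.1 h1)
  · exact Nat.le_of_lt_succ (List.mem_range.1 h2)
  · rw [List.isChain_map]
    exact (List.isChain_range_succ _ n).2 ha

theorem F27_last {U : Type} (f : ℕ → U) (n : ℕ) :
    ((List.range n).map (fun i => f (i + 1))).getLastD (f 0) = f n := by
  cases n with
  | zero => rfl
  | succ n => simp [List.range_succ]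

theorem F27_mk {U : Type} {C : SimpleGraph U} {h : U → ℕ} {x y : U} (f g : ℕ → U) (n m : ℕ)
    (f0 : f 0 = x) (g0 : g 0 = y) (af : ∀ i < n, C.Adj (f i) (f (i + 1)))
    (ag : ∀ i < m, C.Adj (g i) (g (i + 1))) (jf : ∀ i ≤ n, ∀ j ≤ n, f i = f j → i = j)
    (jg : ∀ i ≤ m, ∀ j ≤ m, g i = g j → i = j) (dj : ∀ i ≤ n, ∀ j ≤ m, f i ≠ g j)
    (hk : k ≤ n + h (f n) + m + h (g m) + 2) : CrC k C h x y := by
  subst f0 g0
  refine ⟨(List.range n).map (fun i => f (i + 1)), (List.range m).map (fun i => g (i + 1)),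
    ?_, ?_, ?_, ?_⟩
  · rw [F27_cons]; exact F27_P f n af jf
  · rw [F27_cons]; exact F27_P g m ag jg
  · rw [F27_cons, F27_cons]
    intro v h1 h2
    obtain ⟨i, hi, rfl⟩ := List.mem_map.1 h1
    obtain ⟨j, hj, e⟩ := List.mem_map.1 h2
    exact dj i (Nat.le_of_lt_succ (List.mem_range.1 hi)) j
      (Nat.le_of_lt_succ (List.mem_range.1 hj)) e.symm
  · rw [F27_last, F27_last, List.length_map, List.length_map, List.length_range,
      List.length_range]
    exact hk

theorem F27_up {i j : ℕ} (h1 : j = i + 1) (h2 : j < 2 * s) : (Cg s).Adj i j :=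
  ⟨by omega, Or.inl (Or.inl ⟨h1, h2⟩)⟩

theorem F27_dn {i j : ℕ} (h1 : i = j + 1) (h2 : i < 2 * s) : (Cg s).Adj i j := (F27_up h1 h2).symm

theorem F27_c1 {i j : ℕ} (h1 : i + 1 = s) (h2 : j = s + 1) : (Cg s).Adj i j :=
  ⟨by omega, Or.inl (Or.inr (Or.inr (Or.inl ⟨h1, h2⟩)))⟩

theorem F27_c2 (hs : 8 ≤ s) {i j : ℕ} (h1 : i + 1 = s) (h2 : j + 1 = 2 * s) : (Cg s).Adj i j :=
  ⟨by omega, Or.inl (Or.inr (Or.inr (Or.inr (Or.inl ⟨h1, h2⟩))))⟩

theorem F27_c3 (hs : 8 ≤ s) {i j : ℕ} (h1 : i = 1) (h2 : j = s + 1) : (Cg s).Adj i j :=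
  ⟨by omega, Or.inl (Or.inr (Or.inr (Or.inr (Or.inr ⟨h1, h2⟩))))⟩

/-- The second path runs down from `y` to `0`. -/
theorem F27_down {x y c : ℕ} (f : ℕ → ℕ) (n : ℕ) (hy : y < 2 * s) (f0 : f 0 = x) (fn : f n = c)
    (af : ∀ i < n, (Cg s).Adj (f i) (f (i + 1))) (jf : ∀ i ≤ n, ∀ j ≤ n, f i = f j → i = j)
    (dj : ∀ i ≤ n, y < f i) (hk : k ≤ n + hh s δ c + y + δ + 2) :
    CrC k (Cg s) (hh s δ) x y := by
  refine F27_mk f (fun j => y - j) n y f0 rfl af (fun i hi => F27_dn ?_ ?_) jf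
    (fun i hi j hj e => ?_) (fun i hi j hj e => ?_) ?_
  · omega
  · omega
  · omega
  · have := dj i hi
    omega
  · have e : hh s δ (y - y) = δ := by simp [hh]
    rw [fn, e]
    exact hk

theorem F27_hh (hs : 8 ≤ s) : hh s δ (s + 2) = 2 := by
  unfold hh
  rw [if_neg (by omega), if_neg (by omega)]
  omega

/-- S40. `a ↑ 2 s - 1, s - 1 ↑ a - 1` and `b ↓ 0`. -/
theorem C_t4 (hs : 8 ≤ s) (h1 : s ≤ a) (h2 : a < 2 * s) (h3 : b + 2 ≤ s) :
    CrC (s + 2 + b + δ + hh s δ (a - 1)) (Cg s) (hh s δ) a b := by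
  obtain ⟨f, hf⟩ : ∃ f : ℕ → ℕ, ∀ i, (a + i < 2 * s ∧ f i = a + i) ∨
      (2 * s ≤ a + i ∧ f i + (s + 1) = a + i) :=
    ⟨fun i => if a + i < 2 * s then a + i else a + i - (s + 1),
      fun i => by
        dsimp only
        split_ifs <;> omega⟩
  refine F27_down (c := a - 1) f (s) (by omega) ?_ ?_ (fun i hi => ?_)
    (fun i hi j hj e => ?_) (fun i hi => ?_) (by omega)
  · have := hf 0
    omega
  · have := hf (s)
    omega
  · rcases hf i with u | u <;> rcases hf (i + 1) with w | w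
    · exact F27_up (by omega) (by omega)
    · exact (F27_c2 hs (by omega) (by omega)).symm
    · omega
    · exact F27_up (by omega) (by omega)
  · have := hf i
    have := hf j
    omega
  · have := hf i
    omega

/-- S40. `a ↓ s + 1, 1 ↑ s - 1, 2 s - 1 ↓ a + 1` and `0`. -/
theorem C_t5 (hs : 8 ≤ s) (h1 : s + 1 ≤ a) (h2 : a + 2 ≤ 2 * s) :
    CrC (2 * s - 1 + δ + hh s δ (a + 1)) (Cg s) (hh s δ) a 0 := by
  obtain ⟨f, hf⟩ : ∃ f : ℕ → ℕ, ∀ i, (i + s < a ∧ f i + i = a) ∨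
      (a ≤ i + s ∧ i + 2 ≤ a ∧ f i + a = i + s + 1) ∨ (a < i + 2 ∧ f i = 2 * s + a - 2 - i) :=
    ⟨fun i => if i + s < a then a - i else if i + 2 ≤ a then i + s + 1 - a else 2 * s + a - 2 - i,
      fun i => by
        dsimp only
        split_ifs <;> omega⟩
  refine F27_down (c := a + 1) f (2 * s - 3) (by omega) ?_ ?_ (fun i hi => ?_)
    (fun i hi j hj e => ?_) (fun i hi => ?_) (by omega)
  · have := hf 0
    omega
  · have := hf (2 * s - 3)
    omega
  · rcases hf i with u | u | u <;> rcases hf (i + 1) with w | w | w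
    · exact F27_dn (by omega) (by omega)
    · exact (F27_c3 hs (by omega) (by omega)).symm
    · omega
    · omega
    · exact F27_up (by omega) (by omega)
    · exact F27_c2 hs (by omega) (by omega)
    · omega
    · omega
    · exact F27_dn (by omega) (by omega)
  · have := hf i
    have := hf j
    omega
  · have := hf i
    omega

/-- S40. `a ↓ s + 1, s - 1, 2 s - 1 ↓ a + 1` and `s - 2 ↓ 0`. -/
theorem C_t6 (hs : 8 ≤ s) (h1 : s + 1 ≤ a) (h2 : a + 2 ≤ 2 * s) :
    CrC (2 * s - 1 + δ + hh s δ (a + 1)) (Cg s) (hh s δ) a (s - 2) := by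
  obtain ⟨f, hf⟩ : ∃ f : ℕ → ℕ, ∀ i, (i + s < a ∧ f i + i = a) ∨
      (i + s = a ∧ f i + 1 = s) ∨ (a < i + s ∧ f i = s + a - i) :=
    ⟨fun i => if i + s < a then a - i else if i + s = a then s - 1 else s + a - i,
      fun i => by
        dsimp only
        split_ifs <;> omega⟩
  refine F27_down (c := a + 1) f (s - 1) (by omega) ?_ ?_ (fun i hi => ?_)
    (fun i hi j hj e => ?_) (fun i hi => ?_) (by omega)
  · have := hf 0
    omega
  · have := hf (s - 1)
    omega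
  · rcases hf i with u | u | u <;> rcases hf (i + 1) with w | w | w
    · exact F27_dn (by omega) (by omega)
    · exact (F27_c1 (by omega) (by omega)).symm
    · omega
    · omega
    · omega
    · exact F27_c2 hs (by omega) (by omega)
    · omega
    · omega
    · exact F27_dn (by omega) (by omega)
  · have := hf i
    have := hf j
    omega
  · have := hf i
    omega

/-- S41. `a ↓ s - 1, 2 s - 1 ↓ s + 2` and `s - 2 ↓ 0`. -/
theorem C_t7 (hs : 8 ≤ s) (h1 : s ≤ a + 1) (h2 : a ≤ s + 1) :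
    CrC (a + s + 1 + δ) (Cg s) (hh s δ) a (s - 2) := by
  obtain ⟨f, hf⟩ : ∃ f : ℕ → ℕ, ∀ i, (i + s ≤ a + 1 ∧ f i + i = a) ∨
      (a + 1 < i + s ∧ f i = s + a + 1 - i) :=
    ⟨fun i => if i + s ≤ a + 1 then a - i else s + a + 1 - i,
      fun i => by
        dsimp only
        split_ifs <;> omega⟩
  have e2 : hh s δ (s + 2) = 2 := F27_hh hs
  refine F27_down (c := s + 2) f (a - 1) (by omega) ?_ ?_ (fun i hi => ?_)
    (fun i hi j hj e => ?_) (fun i hi => ?_) (by omega)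
  · have := hf 0
    omega
  · have := hf (a - 1)
    omega
  · rcases hf i with u | u <;> rcases hf (i + 1) with w | w
    · exact F27_dn (by omega) (by omega)
    · exact F27_c2 hs (by omega) (by omega)
    · omega
    · exact F27_dn (by omega) (by omega)
  · have := hf i
    have := hf j
    omega
  · have := hf i
    omega

/-- S41. `a ↓ 1, s + 1 ↑ 2 s - 1, s - 1 ↓ a + 1` and `0`. -/
theorem C_t8 (hs : 8 ≤ s) (h1 : 1 ≤ a) (h2 : a + 2 ≤ s) :
    CrC (2 * s - 1 + δ + hh s δ (a + 1)) (Cg s) (hh s δ) a 0 := by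
  obtain ⟨f, hf⟩ : ∃ f : ℕ → ℕ, ∀ i, (i < a ∧ f i + i = a) ∨
      (a ≤ i ∧ i + 2 ≤ a + s ∧ f i + a = s + 1 + i) ∨ (a + s < i + 2 ∧ f i = 2 * s + a - 2 - i) :=
    ⟨fun i => if i < a then a - i else if i + 2 ≤ a + s then s + 1 + i - a else 2 * s + a - 2 - i,
      fun i => by
        dsimp only
        split_ifs <;> omega⟩
  refine F27_down (c := a + 1) f (2 * s - 3) (by omega) ?_ ?_ (fun i hi => ?_)
    (fun i hi j hj e => ?_) (fun i hi => ?_) (by omega)
  · have := hf 0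
    omega
  · have := hf (2 * s - 3)
    omega
  · rcases hf i with u | u | u <;> rcases hf (i + 1) with w | w | w
    · exact F27_dn (by omega) (by omega)
    · exact F27_c3 hs (by omega) (by omega)
    · omega
    · omega
    · exact F27_up (by omega) (by omega)
    · exact (F27_c2 hs (by omega) (by omega)).symm
    · omega
    · omega
    · exact F27_dn (by omega) (by omega)
  · have := hf i
    have := hf j
    omega
  · have := hf i
    omega

/-- S41. `s, s + 1, 1 ↑ s - 1, 2 s - 1 ↓ s + 2` and `0`. -/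
theorem C_t9 (hs : 8 ≤ s) : CrC (2 * s + 2 + δ) (Cg s) (hh s δ) s 0 := by
  obtain ⟨f, hf⟩ : ∃ f : ℕ → ℕ, ∀ i, (i < 2 ∧ f i = s + i) ∨
      (2 ≤ i ∧ i ≤ s ∧ f i + 1 = i) ∨ (s < i ∧ f i = 3 * s - i) :=
    ⟨fun i => if i < 2 then s + i else if i ≤ s then i - 1 else 3 * s - i,
      fun i => by
        dsimp only
        split_ifs <;> omega⟩
  have e2 : hh s δ (s + 2) = 2 := F27_hh hs
  refine F27_down (c := s + 2) f (2 * s - 2) (by omega) ?_ ?_ (fun i hi => ?_)
    (fun i hi j hj e => ?_) (fun i hi => ?_) (by omega)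
  · have := hf 0
    omega
  · have := hf (2 * s - 2)
    omega
  · rcases hf i with u | u | u <;> rcases hf (i + 1) with w | w | w
    · exact F27_up (by omega) (by omega)
    · exact (F27_c3 hs (by omega) (by omega)).symm
    · omega
    · omega
    · exact F27_up (by omega) (by omega)
    · exact F27_c2 hs (by omega) (by omega)
    · omega
    · omega
    · exact F27_dn (by omega) (by omega)
  · have := hf i
    have := hf j
    omega
  · have := hf i
    omega

/-- A lower bound for the height. -/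
def F28_LB (s i m : ℕ) : Prop :=
  m = 0 ∨ (m + 1 ≤ i ∧ m + i ≤ s ∧ i + 2 ≤ s) ∨ (m + i + 1 ≤ 2 * s ∧ m + s ≤ i ∧ s + 2 ≤ i)

theorem F28_lb {i m : ℕ} (h : F28_LB s i m) : m ≤ hh s δ i := by
  unfold hh
  rcases h with h | h | h <;> split_ifs <;> omega

theorem F28_ub {i : ℕ} (hs : 8 ≤ s) (h : 1 ≤ hh s δ i) : i = 0 ∨
    (2 ≤ i ∧ i + 2 ≤ s ∧ (hh s δ i + 1 = i ∨ hh s δ i + i = s)) ∨
      (s + 2 ≤ i ∧ i + 2 ≤ 2 * s) := by
  unfold hh at h ⊢
  split_ifs at h ⊢ <;> omega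

theorem F28_m (ha : a ≠ 0) : mr s a = 2 * s - a := if_neg ha

theorem F28_m0 : mr s 0 = 0 := if_pos rfl

theorem F28_t1 (hs : 8 ≤ s) {c x y : ℕ} (hc : c ≤ 1)
    (h : y < x ∧ x < 2 * s ∧ F28_LB s (y + 1) (2 * s + c - (x + 1))) :
    CrC (2 * s + δ + c) (Cg s) (hh s δ) x y := by
  have := F28_lb (δ := δ) h.2.2
  exact (C_t1 hs h.1 h.2.1).le (by omega)

theorem F28_t2 (hs : 8 ≤ s) {c x y : ℕ} (hc : c ≤ 1)
    (h : s ≤ x ∧ x < 2 * s ∧ y + 2 ≤ s ∧ F28_LB s (y + 1) (x + c - s)) :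
    CrC (2 * s + δ + c) (Cg s) (hh s δ) x y := by
  have := F28_lb (δ := δ) h.2.2.2
  exact (C_t2 hs h.1 h.2.1 h.2.2.1).le (by omega)

theorem F28_t3 (hs : 8 ≤ s) {c x y : ℕ} (hc : c ≤ 1)
    (h : s ≤ x ∧ x < y ∧ y < 2 * s ∧ F28_LB s (y - 1) (x + c - s)) :
    CrC (2 * s + δ + c) (Cg s) (hh s δ) x y := by
  have := F28_lb (δ := δ) h.2.2.2
  exact (C_t3 hs h.1 h.2.1 h.2.2.1).le (by omega)

theorem F28_t4 (hs : 8 ≤ s) {c x y : ℕ} (hc : c ≤ 1)
    (h : s ≤ x ∧ x < 2 * s ∧ y + 2 ≤ s ∧ F28_LB s (x - 1) (s + c - (y + 2))) :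
    CrC (2 * s + δ + c) (Cg s) (hh s δ) x y := by
  have := F28_lb (δ := δ) h.2.2.2
  exact (C_t4 hs h.1 h.2.1 h.2.2.1).le (by omega)

theorem F28_t5 (hs : 8 ≤ s) {c x y : ℕ} (hc : c ≤ 1)
    (h : y = 0 ∧ s + 1 ≤ x ∧ x + 2 ≤ 2 * s ∧ F28_LB s (x + 1) 2) :
    CrC (2 * s + δ + c) (Cg s) (hh s δ) x y := by
  rw [h.1]
  have := F28_lb (δ := δ) h.2.2.2
  exact (C_t5 hs h.2.1 h.2.2.1).le (by omega)

theorem F28_t55 (hs : 8 ≤ s) {c x y : ℕ} (hc : c ≤ 1)
    (h : y = s - 2 ∧ s + 1 ≤ x ∧ x + 2 ≤ 2 * s ∧ F28_LB s (x + 1) 2) :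
    CrC (2 * s + δ + c) (Cg s) (hh s δ) x y := by
  rw [h.1]
  have := F28_lb (δ := δ) h.2.2.2
  exact (C_t6 hs h.2.1 h.2.2.1).le (by omega)

theorem F28_t6 (hs : 8 ≤ s) {c x y : ℕ} (hc : c ≤ 1)
    (h : y = s - 2 ∧ s + c ≤ x + 1 ∧ x ≤ s + 1) :
    CrC (2 * s + δ + c) (Cg s) (hh s δ) x y := by
  rw [h.1]
  exact (C_t7 hs (by omega) h.2.2).le (by omega)

theorem F28_t7 (hs : 8 ≤ s) {c x y : ℕ} (hc : c ≤ 1)
    (h : y = 0 ∧ 1 ≤ x ∧ x + 2 ≤ s ∧ F28_LB s (x + 1) 2) :
    CrC (2 * s + δ + c) (Cg s) (hh s δ) x y := by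
  rw [h.1]
  have := F28_lb (δ := δ) h.2.2.2
  exact (C_t8 hs h.2.1 h.2.2.1).le (by omega)

theorem F28_t8 (hs : 8 ≤ s) {c x y : ℕ} (hc : c ≤ 1)
    (h : y = 0 ∧ x = s) :
    CrC (2 * s + δ + c) (Cg s) (hh s δ) x y := by
  rw [h.1]
  rw [h.2]
  exact (C_t9 hs).le (by omega)

theorem F28_ti {l : List ℕ} {x y : ℕ} (h : F26_Sg s l x y) (h2 : 2 ≤ l.length)
    (hk : k ≤ hh s δ x + l.length + hh s δ y + 1) : Ti k (Cg s) (hh s δ) x := by
  obtain ⟨h1, h3, h4⟩ := h
  match l, h1, h2, h3, h4, hk with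
  | a :: b :: B, h1, _, h3, h4, hk =>
    obtain rfl : a = x := Option.some.inj h3
    refine ⟨b, B, h1, ?_⟩
    have : B.getLastD b = y := by
      rw [List.getLast?_cons_cons, List.getLast?_cons] at h4
      rw [List.getLastD_eq_getLast?]
      exact Option.some.inj h4
    rw [this]
    simp only [List.length_cons] at hk
    omega

theorem F28_z (hs : 8 ≤ s) : (Cg s).Adj (2 * s - 1) 0 :=
  ⟨by omega, Or.inr (Or.inr (Or.inl ⟨rfl, by omega⟩))⟩

theorem F28_tie (hs : 8 ≤ s) (h1 : 2 ≤ a) (h2 : a + 2 ≤ s)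
    (h : hh s δ a + 1 = a ∨ hh s δ a + a = s) : Ti (2 * s + δ + 1) (Cg s) (hh s δ) a := by
  have z : F26_Sg s (List.range' 0 1) 0 0 := F26_up (by omega) (by omega) (by omega)
  rcases h with h | h
  · refine F28_ti ((F26_up (x := a) (y := 2 * s - 1) (n := 2 * s - a) (by omega) (by omega)
      (by omega)).app z (F28_z hs) ?_) ?_ ?_
    · intro t ht ht'
      simp only [List.mem_range'_1] at ht ht'
      omega
    · simp only [List.length_append, List.length_range']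
      omega
    · simp only [List.length_append, List.length_range', F26_h0]
      omega
  · refine F28_ti (((F26_up (x := 1) (y := a) (n := a) (by omega) (by omega) (by omega)).rev.app
      (F26_up (x := s + 1) (y := 2 * s - 1) (n := s - 1) (by omega) (by omega) (by omega))
      ⟨by omega, Or.inl (Or.inr (Or.inr (Or.inr (Or.inr ⟨rfl, rfl⟩))))⟩ ?_).app z (F28_z hs) ?_)
      ?_ ?_
    · intro t ht ht'
      simp only [List.mem_reverse, List.mem_range'_1] at ht ht'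
      omega
    · intro t ht ht'
      simp only [List.mem_append, List.mem_reverse, List.mem_range'_1] at ht ht'
      omega
    · simp only [List.length_append, List.length_reverse, List.length_range']
      omega
    · simp only [List.length_append, List.length_reverse, List.length_range', F26_h0]
      omega

/-- S42. `a ↑ 2 s - 1, 0` or `a ↓ 1, s + 1 ↑ 2 s - 1, 0`, `0, 2 s - 1 ↓ 2`, and mirror images. -/
theorem C_ti (hs : 8 ≤ s) (h1 : 1 ≤ hh s δ a) : Ti (2 * s + δ + 1) (Cg s) (hh s δ) a := by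
  rcases F28_ub hs h1 with rfl | h | h
  · have z : F26_Sg s (List.range' 0 1) 0 0 := F26_up (by omega) (by omega) (by omega)
    have e := F28_lb (s := s) (δ := δ) (i := 2) (m := 1) (Or.inr (Or.inl (by omega)))
    refine F28_ti (z.app (F26_up (x := 2) (y := 2 * s - 1) (n := 2 * s - 2) (by omega) (by omega)
      (by omega)).rev (F28_z hs).symm ?_) ?_ ?_
    · intro t ht ht'
      simp only [List.mem_reverse, List.mem_range'_1] at ht ht'
      omega
    · simp only [List.length_append, List.length_reverse, List.length_range']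
      omega
    · simp only [List.length_append, List.length_reverse, List.length_range', F26_h0]
      omega
  · exact F28_tie hs h.1 h.2.1 h.2.2
  · refine Ti.mr hs (by omega) ?_
    rw [← hh_mr (by omega : a < 2 * s)] at h1
    rw [F28_m (by omega : a ≠ 0)] at h1 ⊢
    rcases F28_ub hs h1 with e | e | e
    · omega
    · exact F28_tie hs e.1 e.2.1 e.2.2
    · omega

theorem F28_ne0 (hs : 8 ≤ s) (ha : 2 ≤ a ∧ a + 2 ≤ s) (hb : b = 0) :
    CrC (2 * s + δ + 1) (Cg s) (hh s δ) a b := by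
  have q : (0 = 0 ∧ s + 1 ≤ (2 * s - a) ∧ (2 * s - a) + 2 ≤ 2 * s ∧ F28_LB s ((2 * s - a) + 1) 2) ∨
      (b = 0 ∧ 1 ≤ a ∧ a + 2 ≤ s ∧ F28_LB s (a + 1) 2) := by
    unfold F28_LB
    omega
  rcases q with q | q
  · refine CrC.mr hs (by omega) (by omega) ?_
    rw [F28_m (by omega : a ≠ 0), hb, F28_m0]
    exact F28_t5 hs (by omega) q
  · exact F28_t7 hs (by omega) q

theorem F28_ne1 (hs : 8 ≤ s) (ha : 2 ≤ a ∧ a + 2 ≤ s) (hb : b = 1) (h : b + 1 < a) :
    CrC (2 * s + δ + 1) (Cg s) (hh s δ) a b := by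
  have q : ((2 * s - a) < (2 * s - b) ∧ (2 * s - b) < 2 * s ∧ F28_LB s ((2 * s - a) + 1) (2 * s + 1 - ((2 * s - b) + 1))) := by
    unfold F28_LB
    omega
  refine CrC.mr hs (by omega) (by omega) ?_
  rw [F28_m (by omega : a ≠ 0), F28_m (by omega : b ≠ 0)]
  exact (F28_t1 hs (by omega) q).symm

theorem F28_nee (hs : 8 ≤ s) (ha : 2 ≤ a ∧ a + 2 ≤ s) (hb : 2 ≤ b ∧ b + 2 ≤ s) (h : b + 1 < a) :
    CrC (2 * s + δ + 1) (Cg s) (hh s δ) a b := by
  have q : ((2 * s - a) < (2 * s - b) ∧ (2 * s - b) < 2 * s ∧ F28_LB s ((2 * s - a) + 1) (2 * s + 1 - ((2 * s - b) + 1))) ∨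
      (s ≤ (2 * s - a) ∧ (2 * s - a) < (2 * s - b) ∧ (2 * s - b) < 2 * s ∧ F28_LB s ((2 * s - b) - 1) ((2 * s - a) + 1 - s)) := by
    unfold F28_LB
    omega
  rcases q with q | q
  · refine CrC.mr hs (by omega) (by omega) ?_
    rw [F28_m (by omega : a ≠ 0), F28_m (by omega : b ≠ 0)]
    exact (F28_t1 hs (by omega) q).symm
  · refine CrC.mr hs (by omega) (by omega) ?_
    rw [F28_m (by omega : a ≠ 0), F28_m (by omega : b ≠ 0)]
    exact F28_t3 hs (by omega) q

theorem F28_nv0 (hs : 8 ≤ s) (ha : a + 1 = s) (hb : b = 0) :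
    CrC (2 * s + δ + 1) (Cg s) (hh s δ) a b := by
  have q : (0 = 0 ∧ s + 1 ≤ (2 * s - a) ∧ (2 * s - a) + 2 ≤ 2 * s ∧ F28_LB s ((2 * s - a) + 1) 2) := by
    unfold F28_LB
    omega
  refine CrC.mr hs (by omega) (by omega) ?_
  rw [F28_m (by omega : a ≠ 0), hb, F28_m0]
  exact F28_t5 hs (by omega) q

theorem F28_nv1 (hs : 8 ≤ s) (ha : a + 1 = s) (hb : b = 1) :
    CrC (2 * s + δ + 1) (Cg s) (hh s δ) a b := by
  have q : ((2 * s - a) < (2 * s - b) ∧ (2 * s - b) < 2 * s ∧ F28_LB s ((2 * s - a) + 1) (2 * s + 1 - ((2 * s - b) + 1))) := by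
    unfold F28_LB
    omega
  refine CrC.mr hs (by omega) (by omega) ?_
  rw [F28_m (by omega : a ≠ 0), F28_m (by omega : b ≠ 0)]
  exact (F28_t1 hs (by omega) q).symm

theorem F28_nve (hs : 8 ≤ s) (ha : a + 1 = s) (hb : 2 ≤ b ∧ b + 2 ≤ s) (h : b + 1 < a) :
    CrC (2 * s + δ + 1) (Cg s) (hh s δ) a b := by
  have q : (s ≤ (2 * s - a) ∧ (2 * s - a) < (2 * s - b) ∧ (2 * s - b) < 2 * s ∧ F28_LB s ((2 * s - b) - 1) ((2 * s - a) + 1 - s)) := by
    unfold F28_LB
    omega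
  refine CrC.mr hs (by omega) (by omega) ?_
  rw [F28_m (by omega : a ≠ 0), F28_m (by omega : b ≠ 0)]
  exact F28_t3 hs (by omega) q

theorem F28_nr0 (hs : 8 ≤ s) (ha : a = s) (hb : b = 0) :
    CrC (2 * s + δ + 1) (Cg s) (hh s δ) a b := by
  have q : (b = 0 ∧ a = s) := by
    omega
  exact F28_t8 hs (by omega) q

theorem F28_nr1 (hs : 8 ≤ s) (ha : a = s) (hb : b = 1) :
    CrC (2 * s + δ + 1) (Cg s) (hh s δ) a b := by
  have q : (s ≤ a ∧ a < 2 * s ∧ b + 2 ≤ s ∧ F28_LB s (b + 1) (a + 1 - s)) := by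
    unfold F28_LB
    omega
  exact F28_t2 hs (by omega) q

theorem F28_nre (hs : 8 ≤ s) (ha : a = s) (hb : 2 ≤ b ∧ b + 2 ≤ s) :
    CrC (2 * s + δ + 1) (Cg s) (hh s δ) a b := by
  have q : (s ≤ a ∧ a < 2 * s ∧ b + 2 ≤ s ∧ F28_LB s (b + 1) (a + 1 - s)) ∨
      (b = s - 2 ∧ s + 1 ≤ a + 1 ∧ a ≤ s + 1) := by
    unfold F28_LB
    omega
  rcases q with q | q
  · exact F28_t2 hs (by omega) q
  · exact F28_t6 hs (by omega) q

theorem F28_nw0 (hs : 8 ≤ s) (ha : a = s + 1) (hb : b = 0) :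
    CrC (2 * s + δ + 1) (Cg s) (hh s δ) a b := by
  have q : (b = 0 ∧ s + 1 ≤ a ∧ a + 2 ≤ 2 * s ∧ F28_LB s (a + 1) 2) := by
    unfold F28_LB
    omega
  exact F28_t5 hs (by omega) q

theorem F28_nwe (hs : 8 ≤ s) (ha : a = s + 1) (hb : 2 ≤ b ∧ b + 2 ≤ s) :
    CrC (2 * s + δ + 1) (Cg s) (hh s δ) a b := by
  have q : (s ≤ a ∧ a < 2 * s ∧ b + 2 ≤ s ∧ F28_LB s (b + 1) (a + 1 - s)) ∨
      (b = s - 2 ∧ s + 1 ≤ a + 1 ∧ a ≤ s + 1) := by
    unfold F28_LB
    omega
  rcases q with q | q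
  · exact F28_t2 hs (by omega) q
  · exact F28_t6 hs (by omega) q

theorem F28_nf0 (hs : 8 ≤ s) (ha : s + 2 ≤ a ∧ a + 2 ≤ 2 * s) (hb : b = 0) :
    CrC (2 * s + δ + 1) (Cg s) (hh s δ) a b := by
  have q : (b = 0 ∧ s + 1 ≤ a ∧ a + 2 ≤ 2 * s ∧ F28_LB s (a + 1) 2) ∨
      (0 = 0 ∧ 1 ≤ (2 * s - a) ∧ (2 * s - a) + 2 ≤ s ∧ F28_LB s ((2 * s - a) + 1) 2) := by
    unfold F28_LB
    omega
  rcases q with q | q
  · exact F28_t5 hs (by omega) q
  · refine CrC.mr hs (by omega) (by omega) ?_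
    rw [F28_m (by omega : a ≠ 0), hb, F28_m0]
    exact F28_t7 hs (by omega) q

theorem F28_nf1 (hs : 8 ≤ s) (ha : s + 2 ≤ a ∧ a + 2 ≤ 2 * s) (hb : b = 1) :
    CrC (2 * s + δ + 1) (Cg s) (hh s δ) a b := by
  have q : ((2 * s - a) < (2 * s - b) ∧ (2 * s - b) < 2 * s ∧ F28_LB s ((2 * s - a) + 1) (2 * s + 1 - ((2 * s - b) + 1))) ∨
      (s ≤ (2 * s - b) ∧ (2 * s - b) < 2 * s ∧ (2 * s - a) + 2 ≤ s ∧ F28_LB s ((2 * s - b) - 1) (s + 1 - ((2 * s - a) + 2))) := by
    unfold F28_LB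
    omega
  rcases q with q | q
  · refine CrC.mr hs (by omega) (by omega) ?_
    rw [F28_m (by omega : a ≠ 0), F28_m (by omega : b ≠ 0)]
    exact (F28_t1 hs (by omega) q).symm
  · refine CrC.mr hs (by omega) (by omega) ?_
    rw [F28_m (by omega : a ≠ 0), F28_m (by omega : b ≠ 0)]
    exact (F28_t4 hs (by omega) q).symm

theorem F28_nfe (hs : 8 ≤ s) (ha : s + 2 ≤ a ∧ a + 2 ≤ 2 * s) (hb : 2 ≤ b ∧ b + 2 ≤ s) :
    CrC (2 * s + δ + 1) (Cg s) (hh s δ) a b := by
  have q : (b < a ∧ a < 2 * s ∧ F28_LB s (b + 1) (2 * s + 1 - (a + 1))) ∨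
      ((2 * s - a) < (2 * s - b) ∧ (2 * s - b) < 2 * s ∧ F28_LB s ((2 * s - a) + 1) (2 * s + 1 - ((2 * s - b) + 1))) ∨
      (s ≤ a ∧ a < 2 * s ∧ b + 2 ≤ s ∧ F28_LB s (a - 1) (s + 1 - (b + 2))) ∨
      (s ≤ (2 * s - b) ∧ (2 * s - b) < 2 * s ∧ (2 * s - a) + 2 ≤ s ∧ F28_LB s ((2 * s - b) - 1) (s + 1 - ((2 * s - a) + 2))) ∨
      (b = s - 2 ∧ s + 1 ≤ a ∧ a + 2 ≤ 2 * s ∧ F28_LB s (a + 1) 2) := by
    by_cases h2 : 2 * s ≤ a + b
    · by_cases h1 : s + b + 1 ≤ a
      · exact Or.inl ⟨by omega, by omega, Or.inr (Or.inl (by omega))⟩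
      · by_cases h3 : a = s + 2
        · exact Or.inr (Or.inr (Or.inr (Or.inr ⟨by omega, by omega, by omega,
            Or.inr (Or.inr (by omega))⟩)))
        · exact Or.inr (Or.inr (Or.inl ⟨by omega, by omega, by omega, Or.inr (Or.inr (by omega))⟩))
    · by_cases h1 : s + b + 1 ≤ a
      · exact Or.inr (Or.inl ⟨by omega, by omega, Or.inr (Or.inl (by omega))⟩)
      · exact Or.inr (Or.inr (Or.inr (Or.inl ⟨by omega, by omega, by omega,
          Or.inr (Or.inr (by omega))⟩)))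
  rcases q with q | q | q | q | q
  · exact F28_t1 hs (by omega) q
  · refine CrC.mr hs (by omega) (by omega) ?_
    rw [F28_m (by omega : a ≠ 0), F28_m (by omega : b ≠ 0)]
    exact (F28_t1 hs (by omega) q).symm
  · exact F28_t4 hs (by omega) q
  · refine CrC.mr hs (by omega) (by omega) ?_
    rw [F28_m (by omega : a ≠ 0), F28_m (by omega : b ≠ 0)]
    exact (F28_t4 hs (by omega) q).symm
  · exact F28_t55 hs (by omega) q

theorem F28_nfv (hs : 8 ≤ s) (ha : s + 2 ≤ a ∧ a + 2 ≤ 2 * s) (hb : b + 1 = s) :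
    CrC (2 * s + δ + 1) (Cg s) (hh s δ) a b := by
  have q : (s ≤ (2 * s - b) ∧ (2 * s - b) < 2 * s ∧ (2 * s - a) + 2 ≤ s ∧ F28_LB s ((2 * s - a) + 1) ((2 * s - b) + 1 - s)) ∨
      ((2 * s - a) = s - 2 ∧ s + 1 ≤ (2 * s - b) + 1 ∧ (2 * s - b) ≤ s + 1) := by
    unfold F28_LB
    omega
  rcases q with q | q
  · refine CrC.mr hs (by omega) (by omega) ?_
    rw [F28_m (by omega : a ≠ 0), F28_m (by omega : b ≠ 0)]
    exact (F28_t2 hs (by omega) q).symm
  · refine CrC.mr hs (by omega) (by omega) ?_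
    rw [F28_m (by omega : a ≠ 0), F28_m (by omega : b ≠ 0)]
    exact (F28_t6 hs (by omega) q).symm

theorem F28_nfr (hs : 8 ≤ s) (ha : s + 2 ≤ a ∧ a + 2 ≤ 2 * s) (hb : b = s) :
    CrC (2 * s + δ + 1) (Cg s) (hh s δ) a b := by
  have q : (s ≤ (2 * s - b) ∧ (2 * s - b) < 2 * s ∧ (2 * s - a) + 2 ≤ s ∧ F28_LB s ((2 * s - a) + 1) ((2 * s - b) + 1 - s)) ∨
      ((2 * s - a) = s - 2 ∧ s + 1 ≤ (2 * s - b) + 1 ∧ (2 * s - b) ≤ s + 1) := by
    unfold F28_LB
    omega
  rcases q with q | q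
  · refine CrC.mr hs (by omega) (by omega) ?_
    rw [F28_m (by omega : a ≠ 0), F28_m (by omega : b ≠ 0)]
    exact (F28_t2 hs (by omega) q).symm
  · refine CrC.mr hs (by omega) (by omega) ?_
    rw [F28_m (by omega : a ≠ 0), F28_m (by omega : b ≠ 0)]
    exact (F28_t6 hs (by omega) q).symm

theorem F28_nfw (hs : 8 ≤ s) (ha : s + 2 ≤ a ∧ a + 2 ≤ 2 * s) (hb : b = s + 1) (h : b + 1 < a) :
    CrC (2 * s + δ + 1) (Cg s) (hh s δ) a b := by
  have q : (s ≤ b ∧ b < a ∧ a < 2 * s ∧ F28_LB s (a - 1) (b + 1 - s)) := by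
    unfold F28_LB
    omega
  exact (F28_t3 hs (by omega) q).symm

theorem F28_nff (hs : 8 ≤ s) (ha : s + 2 ≤ a ∧ a + 2 ≤ 2 * s) (hb : s + 2 ≤ b ∧ b + 2 ≤ 2 * s) (h : b + 1 < a) :
    CrC (2 * s + δ + 1) (Cg s) (hh s δ) a b := by
  have q : (b < a ∧ a < 2 * s ∧ F28_LB s (b + 1) (2 * s + 1 - (a + 1))) ∨
      (s ≤ b ∧ b < a ∧ a < 2 * s ∧ F28_LB s (a - 1) (b + 1 - s)) := by
    unfold F28_LB
    omega
  rcases q with q | q
  · exact F28_t1 hs (by omega) q
  · exact (F28_t3 hs (by omega) q).symm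

theorem F28_nx1 (hs : 8 ≤ s) (ha : a + 1 = 2 * s) (hb : b = 1) :
    CrC (2 * s + δ + 1) (Cg s) (hh s δ) a b := by
  have q : (b < a ∧ a < 2 * s ∧ F28_LB s (b + 1) (2 * s + 1 - (a + 1))) := by
    unfold F28_LB
    omega
  exact F28_t1 hs (by omega) q

theorem F28_nxe (hs : 8 ≤ s) (ha : a + 1 = 2 * s) (hb : 2 ≤ b ∧ b + 2 ≤ s) :
    CrC (2 * s + δ + 1) (Cg s) (hh s δ) a b := by
  have q : (b < a ∧ a < 2 * s ∧ F28_LB s (b + 1) (2 * s + 1 - (a + 1))) ∨
      (s ≤ a ∧ a < 2 * s ∧ b + 2 ≤ s ∧ F28_LB s (a - 1) (s + 1 - (b + 2))) := by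
    unfold F28_LB
    omega
  rcases q with q | q
  · exact F28_t1 hs (by omega) q
  · exact F28_t4 hs (by omega) q

theorem F28_nxr (hs : 8 ≤ s) (ha : a + 1 = 2 * s) (hb : b = s) :
    CrC (2 * s + δ + 1) (Cg s) (hh s δ) a b := by
  have q : (s ≤ (2 * s - b) ∧ (2 * s - b) < 2 * s ∧ (2 * s - a) + 2 ≤ s ∧ F28_LB s ((2 * s - a) + 1) ((2 * s - b) + 1 - s)) := by
    unfold F28_LB
    omega
  refine CrC.mr hs (by omega) (by omega) ?_
  rw [F28_m (by omega : a ≠ 0), F28_m (by omega : b ≠ 0)]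
  exact (F28_t2 hs (by omega) q).symm

theorem F28_nxw (hs : 8 ≤ s) (ha : a + 1 = 2 * s) (hb : b = s + 1) :
    CrC (2 * s + δ + 1) (Cg s) (hh s δ) a b := by
  have q : (b < a ∧ a < 2 * s ∧ F28_LB s (b + 1) (2 * s + 1 - (a + 1))) := by
    unfold F28_LB
    omega
  exact F28_t1 hs (by omega) q

theorem F28_nxf (hs : 8 ≤ s) (ha : a + 1 = 2 * s) (hb : s + 2 ≤ b ∧ b + 2 ≤ 2 * s) (h : b + 1 < a) :
    CrC (2 * s + δ + 1) (Cg s) (hh s δ) a b := by
  have q : (b < a ∧ a < 2 * s ∧ F28_LB s (b + 1) (2 * s + 1 - (a + 1))) := by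
    unfold F28_LB
    omega
  exact F28_t1 hs (by omega) q

theorem F28_a10 (hs : 8 ≤ s) (ha : a = 1) (hb : b = 0) (h : b + 1 = a) :
    CrC (2 * s + δ + 0) (Cg s) (hh s δ) a b := by
  have q : (0 < (2 * s - a) ∧ (2 * s - a) < 2 * s ∧ F28_LB s (0 + 1) (2 * s + 0 - ((2 * s - a) + 1))) := by
    unfold F28_LB
    omega
  refine CrC.mr hs (by omega) (by omega) ?_
  rw [F28_m (by omega : a ≠ 0), hb, F28_m0]
  exact F28_t1 hs (by omega) q

theorem F28_ae1 (hs : 8 ≤ s) (ha : 2 ≤ a ∧ a + 2 ≤ s) (hb : b = 1) (h : b + 1 = a) :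
    CrC (2 * s + δ + 0) (Cg s) (hh s δ) a b := by
  have q : ((2 * s - a) < (2 * s - b) ∧ (2 * s - b) < 2 * s ∧ F28_LB s ((2 * s - a) + 1) (2 * s + 0 - ((2 * s - b) + 1))) := by
    unfold F28_LB
    omega
  refine CrC.mr hs (by omega) (by omega) ?_
  rw [F28_m (by omega : a ≠ 0), F28_m (by omega : b ≠ 0)]
  exact (F28_t1 hs (by omega) q).symm

theorem F28_aee (hs : 8 ≤ s) (ha : 2 ≤ a ∧ a + 2 ≤ s) (hb : 2 ≤ b ∧ b + 2 ≤ s) (h : b + 1 = a) :
    CrC (2 * s + δ + 0) (Cg s) (hh s δ) a b := by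
  have q : ((2 * s - a) < (2 * s - b) ∧ (2 * s - b) < 2 * s ∧ F28_LB s ((2 * s - a) + 1) (2 * s + 0 - ((2 * s - b) + 1))) ∨
      (s ≤ (2 * s - a) ∧ (2 * s - a) < (2 * s - b) ∧ (2 * s - b) < 2 * s ∧ F28_LB s ((2 * s - b) - 1) ((2 * s - a) + 0 - s)) := by
    unfold F28_LB
    omega
  rcases q with q | q
  · refine CrC.mr hs (by omega) (by omega) ?_
    rw [F28_m (by omega : a ≠ 0), F28_m (by omega : b ≠ 0)]
    exact (F28_t1 hs (by omega) q).symm
  · refine CrC.mr hs (by omega) (by omega) ?_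
    rw [F28_m (by omega : a ≠ 0), F28_m (by omega : b ≠ 0)]
    exact F28_t3 hs (by omega) q

theorem F28_ave (hs : 8 ≤ s) (ha : a + 1 = s) (hb : 2 ≤ b ∧ b + 2 ≤ s) (h : b + 1 = a) :
    CrC (2 * s + δ + 0) (Cg s) (hh s δ) a b := by
  have q : (b = s - 2 ∧ s + 0 ≤ a + 1 ∧ a ≤ s + 1) := by
    omega
  exact F28_t6 hs (by omega) q

theorem F28_afw (hs : 8 ≤ s) (ha : s + 2 ≤ a ∧ a + 2 ≤ 2 * s) (hb : b = s + 1) (h : b + 1 = a) :
    CrC (2 * s + δ + 0) (Cg s) (hh s δ) a b := by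
  have q : ((2 * s - a) = s - 2 ∧ s + 0 ≤ (2 * s - b) + 1 ∧ (2 * s - b) ≤ s + 1) := by
    omega
  refine CrC.mr hs (by omega) (by omega) ?_
  rw [F28_m (by omega : a ≠ 0), F28_m (by omega : b ≠ 0)]
  exact (F28_t6 hs (by omega) q).symm

theorem F28_aff (hs : 8 ≤ s) (ha : s + 2 ≤ a ∧ a + 2 ≤ 2 * s) (hb : s + 2 ≤ b ∧ b + 2 ≤ 2 * s) (h : b + 1 = a) :
    CrC (2 * s + δ + 0) (Cg s) (hh s δ) a b := by
  have q : (b < a ∧ a < 2 * s ∧ F28_LB s (b + 1) (2 * s + 0 - (a + 1))) ∨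
      (s ≤ b ∧ b < a ∧ a < 2 * s ∧ F28_LB s (a - 1) (b + 0 - s)) := by
    unfold F28_LB
    omega
  rcases q with q | q
  · exact F28_t1 hs (by omega) q
  · exact (F28_t3 hs (by omega) q).symm

theorem F28_ax0 (hs : 8 ≤ s) (ha : a + 1 = 2 * s) (hb : b = 0) :
    CrC (2 * s + δ + 0) (Cg s) (hh s δ) a b := by
  have q : (b < a ∧ a < 2 * s ∧ F28_LB s (b + 1) (2 * s + 0 - (a + 1))) := by
    unfold F28_LB
    omega
  exact F28_t1 hs (by omega) q

theorem F28_axf (hs : 8 ≤ s) (ha : a + 1 = 2 * s) (hb : s + 2 ≤ b ∧ b + 2 ≤ 2 * s) (h : b + 1 = a) :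
    CrC (2 * s + δ + 0) (Cg s) (hh s δ) a b := by
  have q : (b < a ∧ a < 2 * s ∧ F28_LB s (b + 1) (2 * s + 0 - (a + 1))) := by
    unfold F28_LB
    omega
  exact F28_t1 hs (by omega) q

theorem F28_reg (hs : 8 ≤ s) (ha : a < 2 * s) : (a = 0) ∨ (a = 1) ∨ (2 ≤ a ∧ a + 2 ≤ s) ∨ (a + 1 = s) ∨ (a = s) ∨ (a = s + 1) ∨ (s + 2 ≤ a ∧ a + 2 ≤ 2 * s) ∨ (a + 1 = 2 * s) := by
  omega

theorem F28_cr (hs : 8 ≤ s) (ha : a < 2 * s) (hb : b < a) (hn : ¬ (Cg s).Adj a b) :
    CrC (2 * s + δ + 1) (Cg s) (hh s δ) a b := by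
  have n0 : ¬ Ce s b a := fun h => hn ⟨by omega, Or.inr h⟩
  have n1 : b + 1 < a := by
    by_contra q
    exact n0 (Or.inl ⟨by omega, ha⟩)
  have n2 : ¬ (b = 0 ∧ a + 1 = 2 * s) := fun h => n0 (Or.inr (Or.inl h))
  have n3 : ¬ (b + 1 = s ∧ a = s + 1) := fun h => n0 (Or.inr (Or.inr (Or.inl h)))
  have n4 : ¬ (b + 1 = s ∧ a + 1 = 2 * s) := fun h => n0 (Or.inr (Or.inr (Or.inr (Or.inl h))))
  have n5 : ¬ (b = 1 ∧ a = s + 1) := fun h => n0 (Or.inr (Or.inr (Or.inr (Or.inr h))))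
  clear n0 hn
  rcases F28_reg hs ha with p | p | p | p | p | p | p | p <;>
    rcases F28_reg hs (hb.trans ha) with q | q | q | q | q | q | q | q
  · omega
  · omega
  · omega
  · omega
  · omega
  · omega
  · omega
  · omega
  · omega
  · omega
  · omega
  · omega
  · omega
  · omega
  · omega
  · omega
  · exact F28_ne0 hs p q
  · exact F28_ne1 hs p q n1
  · exact F28_nee hs p q n1
  · omega
  · omega
  · omega
  · omega
  · omega
  · exact F28_nv0 hs p q
  · exact F28_nv1 hs p q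
  · exact F28_nve hs p q n1
  · omega
  · omega
  · omega
  · omega
  · omega
  · exact F28_nr0 hs p q
  · exact F28_nr1 hs p q
  · exact F28_nre hs p q
  · omega
  · omega
  · omega
  · omega
  · omega
  · exact F28_nw0 hs p q
  · omega
  · exact F28_nwe hs p q
  · omega
  · omega
  · omega
  · omega
  · omega
  · exact F28_nf0 hs p q
  · exact F28_nf1 hs p q
  · exact F28_nfe hs p q
  · exact F28_nfv hs p q
  · exact F28_nfr hs p q
  · exact F28_nfw hs p q n1
  · exact F28_nff hs p q n1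
  · omega
  · omega
  · exact F28_nx1 hs p q
  · exact F28_nxe hs p q
  · omega
  · exact F28_nxr hs p q
  · exact F28_nxw hs p q
  · exact F28_nxf hs p q n1
  · omega

/-- S43. -/
theorem C_cr (hs : 8 ≤ s) (ha : a < 2 * s) (hb : b < 2 * s) (hne : a ≠ b)
    (hn : ¬ (Cg s).Adj a b) : CrC (2 * s + δ + 1) (Cg s) (hh s δ) a b := by
  rcases Nat.lt_or_gt_of_ne hne with h | h
  · exact (F28_cr hs hb h fun e => hn e.symm).symm
  · exact F28_cr hs ha h hn

theorem F28_up (hs : 8 ≤ s) (ha : b + 1 < 2 * s)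
    (h : b = 0 ∨ (1 ≤ b ∧ b + 2 ≤ s) ∨ (s + 1 ≤ b ∧ b + 2 ≤ 2 * s)) :
    CrC (2 * s + δ) (Cg s) (hh s δ) (b + 1) b := by
  rcases F28_reg hs ha with p | p | p | p | p | p | p | p <;>
    rcases F28_reg hs (Nat.lt_of_succ_lt ha) with q | q | q | q | q | q | q | q
  · omega
  · omega
  · omega
  · omega
  · omega
  · omega
  · omega
  · omega
  · exact F28_a10 hs p q rfl
  · omega
  · omega
  · omega
  · omega
  · omega
  · omega
  · omega
  · omega
  · exact F28_ae1 hs p q rfl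
  · exact F28_aee hs p q rfl
  · omega
  · omega
  · omega
  · omega
  · omega
  · omega
  · omega
  · exact F28_ave hs p q rfl
  · omega
  · omega
  · omega
  · omega
  · omega
  · omega
  · omega
  · omega
  · omega
  · omega
  · omega
  · omega
  · omega
  · omega
  · omega
  · omega
  · omega
  · omega
  · omega
  · omega
  · omega
  · omega
  · omega
  · omega
  · omega
  · omega
  · exact F28_afw hs p q rfl
  · exact F28_aff hs p q rfl
  · omega
  · omega
  · omega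
  · omega
  · omega
  · omega
  · omega
  · exact F28_axf hs p q rfl
  · omega

/-- S43. -/
theorem C_cr' (hs : 8 ≤ s) (hn : (Cg s).Adj a b) (h1 : 1 ≤ hh s δ a) :
    CrC (2 * s + δ) (Cg s) (hh s δ) a b := by
  have h := F28_ub hs h1
  rcases hn.2 with (e | e | e | e | e) | e | e | e | e | e
  · rw [e.1]
    exact (F28_up hs (by omega) (by omega)).symm
  · exact (F28_ax0 hs e.2 e.1).symm
  · omega
  · omega
  · omega
  · rw [e.1]
    exact F28_up hs (by omega) (by omega)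
  · omega
  · omega
  · omega
  · omega

end PS
end

section
/-! The saturation number is `n + 3`. -/

open SimpleGraph

namespace PS

theorem F29_pow (t : ℕ) (ht : 4 ≤ t) : 4 * t ≤ 2 ^ t := by
  induction t, ht using Nat.le_induction with
  | base => norm_num
  | succ t ht ih => rw [pow_succ]; omega

theorem F29_hh {s δ i : ℕ} (hi : i ≠ 0) : hh s δ i ≤ s / 2 := by
  unfold hh
  split_ifs <;> omega

theorem F29_lt {s δ i : ℕ} (hs : 8 ≤ s) (hi : 1 ≤ hh s δ i) : i < 2 * s := by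
  unfold hh at hi
  split_ifs at hi <;> omega

theorem F29_le {W : Type} {G : SimpleGraph W} {k k' : ℕ} {x y : W} (h : Cr k G x y)
    (hk : k' ≤ k) : Cr k' G x y := by
  obtain ⟨A, B, a, b, c, d⟩ := h
  exact ⟨A, B, a, b, c, hk.trans d⟩

/-- S44. -/
theorem card3 {s δ : ℕ} (hs : 8 ≤ s) (h2 : δ ≤ s) : ∃ F : Finset (ℕ × List Bool),
    (∀ p : ℕ × List Bool, p.1 < 2 * s → p.2.length ≤ hh s δ p.1 → p ∈ F) ∧
      F.card ≤ 2 ^ (s + 2) := by
  classical
  obtain ⟨F₀, a₀, c₀⟩ := Rod1_ls s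
  obtain ⟨F₁, a₁, c₁⟩ := Rod1_ls (s / 2)
  refine ⟨({0} : Finset ℕ) ×ˢ F₀ ∪ Finset.range (2 * s) ×ˢ F₁, ?_, ?_⟩
  · rintro ⟨i, L⟩ h1 hl
    simp only [Finset.mem_union, Finset.mem_product, Finset.mem_singleton, Finset.mem_range]
    by_cases hi : i = 0
    · subst hi
      refine Or.inl ⟨rfl, a₀ L (le_trans hl ?_)⟩
      simpa [hh] using h2
    · exact Or.inr ⟨h1, a₁ L (le_trans hl (F29_hh hi))⟩
  · refine (Finset.card_union_le _ _).trans ?_
    rw [Finset.card_product, Finset.card_product, Finset.card_singleton, Finset.card_range]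
    have p1 := F29_pow (s - s / 2) (by omega)
    have p2 : 2 ^ (s - s / 2) * 2 ^ (s / 2 + 1) = 2 ^ (s + 1) := by
      rw [← pow_add]; congr 1; omega
    have p3 : 2 * s * F₁.card ≤ 2 ^ (s - s / 2) * 2 ^ (s / 2 + 1) :=
      Nat.mul_le_mul (by omega) (by omega)
    have p4 : 2 ^ (s + 2) = 2 ^ (s + 1) * 2 := pow_succ _ _
    omega

/-- The parent map. -/
def F29_pi (s : ℕ) : ℕ × List Bool → ℕ × List Bool
  | (i, []) => (if i = 0 then 2 * s - 1 else i - 1, [])
  | (i, _ :: L) => (i, L)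

/-- The three chords. -/
def F29_E (s : ℕ) : Set (Sym2 (ℕ × List Bool)) :=
  {s((s - 1, []), (s + 1, [])), s((s - 1, []), (2 * s - 1, [])), s((1, []), (s + 1, []))}

theorem F29_ce {s i j : ℕ} (h : Ce s i j) :
    ((j, []) : ℕ × List Bool) = F29_pi s (i, []) ∨ ((i, []) : ℕ × List Bool) = F29_pi s (j, []) ∨
      s(((i, []) : ℕ × List Bool), ((j, []) : ℕ × List Bool)) ∈ F29_E s := by
  rcases h with ⟨a, b⟩ | ⟨a, b⟩ | ⟨a, b⟩ | ⟨a, b⟩ | ⟨a, b⟩
  · subst a
    exact Or.inr (Or.inl (by simp [F29_pi]))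
  · subst a
    refine Or.inl ?_
    have : j = 2 * s - 1 := by omega
    simp [F29_pi, this]
  · have : i = s - 1 := by omega
    subst this b
    exact Or.inr (Or.inr (Or.inl rfl))
  · have e1 : i = s - 1 := by omega
    have e2 : j = 2 * s - 1 := by omega
    rw [e1, e2]
    exact Or.inr (Or.inr (Or.inr (Or.inl rfl)))
  · subst a b
    exact Or.inr (Or.inr (Or.inr (Or.inr rfl)))

theorem F29_cr {s δ : ℕ} (hs : 8 ≤ s) {a b : ℕ} {L L' : List Bool} (ha : a < 2 * s)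
    (hb : b < 2 * s) (hl : L.length ≤ hh s δ a) (hl' : L'.length ≤ hh s δ b)
    (hne : (a, L) ≠ (b, L')) (hn : ¬ (TG (Cg s) (hh s δ)).Adj (a, L) (b, L')) :
    Cr (2 * s + δ + 1) (TG (Cg s) (hh s δ)) (a, L) (b, L') := by
  by_cases e : a = b
  · subst e
    have hL : L ≠ L' := fun e => hne (by rw [e])
    have h1 : 1 ≤ hh s δ a := by
      by_contra h
      have e1 : L = [] := List.length_eq_zero_iff.1 (by omega)
      have e2 : L' = [] := List.length_eq_zero_iff.1 (by omega)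
      exact hL (e1.trans e2.symm)
    exact T_same (C_ti hs h1) hl hl' hL hn
  by_cases c : (Cg s).Adj a b
  · by_cases e1 : L = []
    · have e2 : L' ≠ [] := fun e2 => hn (Or.inl ⟨e1, e2, c⟩)
      have p : 1 ≤ L'.length := List.length_pos_iff.2 e2
      exact F29_le (T_far (C_cr' hs c.symm (p.trans hl')).symm hl hl') (by omega)
    · have p : 1 ≤ L.length := List.length_pos_iff.2 e1
      exact F29_le (T_far (C_cr' hs c (p.trans hl)) hl hl') (by omega)
  · exact F29_le (T_far (C_cr hs ha hb e c) hl hl') (by omega)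

/-- S45. -/
theorem ok3 {s δ : ℕ} (hs : 8 ≤ s) (h1 : s ≤ δ + 2) (h2 : δ ≤ s) :
    ∃ n e, Ok (2 * s + δ + 1) n e ∧ n ≤ 2 ^ (s + 2) ∧ e ≤ n + 3 := by
  obtain ⟨F, hF, hFc⟩ := card3 hs h2
  have hT : {p : ℕ × List Bool | p.1 < 2 * s ∧ p.2.length ≤ hh s δ p.1} ⊆ (F : Set _) :=
    fun p hp => hF p hp.1 hp.2
  have hn : {p : ℕ × List Bool | p.1 < 2 * s ∧ p.2.length ≤ hh s δ p.1}.ncard ≤ F.card := by
    rw [← Set.ncard_coe_finset]
    exact Set.ncard_le_ncard hT F.finite_toSet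
  have hE : (F29_E s).Finite := ((Set.finite_singleton _).insert _).insert _
  have hEc : (F29_E s).ncard ≤ 3 := by
    refine (Set.ncard_insert_le _ _).trans (Nat.succ_le_succ ?_)
    refine (Set.ncard_insert_le _ _).trans (Nat.succ_le_succ ?_)
    exact (Set.ncard_singleton _).le
  have h0 : 1 ≤ hh s δ 0 := by
    have : hh s δ 0 = δ := if_pos rfl
    omega
  obtain ⟨L, A, hL, -, hl, hA, hk⟩ := T_leaf (C_ti hs h0) h0
  obtain ⟨e, he, hle⟩ := sat_sub
    (S := {p : ℕ × List Bool | p.1 < 2 * s ∧ p.2.length ≤ hh s δ p.1})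
    (F.finite_toSet.subset hT)
    (by
      rintro ⟨i, M⟩ ⟨j, N⟩ (⟨a, -, c⟩ | ⟨a, ⟨x, b, c⟩ | ⟨x, b, c⟩⟩)
      · dsimp only at a c
        subst a
        exact ⟨C_lt hs c, Nat.zero_le _⟩
      · dsimp only at c
        exact ⟨F29_lt hs (δ := δ) (i := i) (by omega), c.le⟩
      · dsimp only at b c
        subst b
        exact ⟨F29_lt hs (δ := δ) (i := i) (by omega), c⟩)
    (T_pf (C_pf hs h1 h2)) (F29_pi s) hE
    (by
      rintro ⟨i, M⟩ ⟨j, N⟩ (⟨a, b, -, c⟩ | ⟨a, ⟨x, b, -⟩ | ⟨x, b, -⟩⟩)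
      · dsimp only at a b c
        subst a b
        rcases c with c | c
        · exact F29_ce c
        · rcases F29_ce c with d | d | d
          · exact Or.inr (Or.inl d)
          · exact Or.inl d
          · exact Or.inr (Or.inr (Sym2.eq_swap ▸ d))
      · dsimp only at a b
        subst a b
        exact Or.inr (Or.inl rfl)
      · dsimp only at a b
        subst a b
        exact Or.inl rfl)
    (fun u hu v hv hne hn => Or.inl (F29_cr hs hu.1 hv.1 hu.2 hv.2 hne hn))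
    hl (by
      rintro u (e | e | e) <;>
        rcases Sym2.eq_iff.1 e with ⟨e, -⟩ | ⟨e, -⟩ <;> exact hL (congrArg Prod.snd e)) hA hk
  exact ⟨_, e, he, hn.trans hFc, by omega⟩

/-- S46. -/
theorem three (k n : ℕ) (h1 : 2 ^ (k / 3 + 3) ≤ n) (h2 : n < 2 ^ (k / 2 - 11)) :
    satN n k = n + 3 := by
  have h3 : k / 3 + 3 < k / 2 - 11 := (Nat.pow_lt_pow_iff_right (by decide)).1 (h1.trans_lt h2)
  have hk : 60 ≤ k := by omega
  refine le_antisymm ?_ ?_
  · obtain ⟨n₀, e, o, c1, c2⟩ := ok3 (s := (k + 1) / 3) (δ := k - 1 - 2 * ((k + 1) / 3))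
      (by omega) (by omega) (by omega)
    rw [show 2 * ((k + 1) / 3) + (k - 1 - 2 * ((k + 1) / 3)) + 1 = k by omega] at o
    have c3 : 2 ^ ((k + 1) / 3 + 2) ≤ 2 ^ (k / 3 + 3) :=
      Nat.pow_le_pow_right (by decide) (by omega)
    have u := Fin_le (Con3_twins (by omega) o (n - n₀))
    rw [show n₀ + (n - n₀) = n by omega] at u
    omega
  · by_contra h
    obtain ⟨G, hG, e⟩ := Fin_mem (n := n) (k := k) (by omega)
    have c : Nat.card (Fin n) = n := by simp
    have p1 := F29_pow (k / 3 + 3) (by omega)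
    have p2 : 2 ^ (k / 2 - 11) ≤ 2 ^ (k / 2 - 1) := Nat.pow_le_pow_right (by decide) (by omega)
    have p3 : n < a k := by
      unfold a
      split_ifs <;> omega
    have := low3 hk hG (by omega) (by omega) (by omega)
    omega

end PS
end
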